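import Pool.Agent.Helper320.PCH.HallJ

/-!
Correspondences with curves: the choice of the points, block by block.
-/

set_option autoImplicit false
set_option linter.overlappingInstances false
set_option linter.unusedSectionVars false
set_option maxHeartbeats 4000000
set_option synthInstance.maxHeartbeats 400000

open FF Pool.Agent.W603.LV

namespace Pool.Agent.Helper320.PCH

section

variable {ι : Type} [Fintype ι] {n : ℕ} {X : Fin n → Type} (p : ∀ i, ι → X i) (σ0 : ι)
  (b : Fin n → ℕ)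

/-- the coordinates in the blocks up to `k` -/
def cls (k : ℕ) (σ : ι) : ∀ i, X i := fun i => if b i ≤ k then p i σ else p i σ0

open scoped Classical in
/-- the classes which agree with the base point in the blocks up to `k`, outside of `J` -/
noncomputable def Cl (k : ℕ) (J : Finset (Fin n)) : Finset (∀ i, X i) :=
  (Finset.univ.filter fun σ => ∀ i, b i ≤ k → i ∉ J → p i σ = p i σ0).image (cls p σ0 b k)

theorem cls_of_le {k : ℕ} {i : Fin n} (h : b i ≤ k) (σ : ι) : cls p σ0 b k σ i = p i σ := if_pos h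

theorem mem_Cl {k : ℕ} {J : Finset (Fin n)} {y : ∀ i, X i} :
    y ∈ Cl p σ0 b k J ↔ ∃ σ, (∀ i, b i ≤ k → i ∉ J → p i σ = p i σ0) ∧ cls p σ0 b k σ = y := by
  classical
  simp [Cl]

theorem base_mem (k : ℕ) (J : Finset (Fin n)) : (fun i => p i σ0) ∈ Cl p σ0 b k J := by
  rw [mem_Cl]
  refine ⟨σ0, fun _ _ _ => rfl, ?_⟩
  funext i
  unfold cls
  split_ifs <;> rfl

open scoped Classical in
/-- the choice in one block -/
theorem exists_block (c : Fin n → ℕ) (k : ℕ) (dbl : (∀ i, X i) → Prop)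
    (h : ∀ J : Finset (Fin n), J.Nonempty → (∀ i ∈ J, b i = k) →
      ((Cl p σ0 b k J).erase fun i => p i σ0).card +
        (((Cl p σ0 b k J).erase fun i => p i σ0).filter dbl).card ≤ ∑ i ∈ J, c i) :
    ∃ T T2 : ∀ i, Finset (X i), (∀ i, T2 i ⊆ T i) ∧ (∀ i, p i σ0 ∉ T i) ∧
      (∀ i, (T i).card + (T2 i).card ≤ c i) ∧
      ∀ σ, (∀ i, b i < k → p i σ = p i σ0) → (∃ i, b i = k ∧ p i σ ≠ p i σ0) →
        (∃ i, b i = k ∧ p i σ ∈ T2 i) ∨
        (∃ i j, b i = k ∧ b j = k ∧ i ≠ j ∧ p i σ ∈ T i ∧ p j σ ∈ T j) ∨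
        (¬ dbl (cls p σ0 b k σ) ∧ ∃ i, b i = k ∧ p i σ ∈ T i) := by
  let C : Finset (∀ i, X i) :=
    (Cl p σ0 b k (Finset.univ.filter fun i => b i = k)).erase fun i => p i σ0
  have hC : ∀ y, y ∈ C ↔ y ≠ (fun i => p i σ0) ∧
      ∃ σ, (∀ i, b i < k → p i σ = p i σ0) ∧ cls p σ0 b k σ = y := by
    intro y
    rw [Finset.mem_erase, mem_Cl]
    constructor
    · rintro ⟨h1, σ, h2, h3⟩
      exact ⟨h1, σ, fun i hi => h2 i hi.le (by simp; omega), h3⟩
    · rintro ⟨h1, σ, h2, h3⟩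
      refine ⟨h1, σ, fun i hi hi' => h2 i ?_, h3⟩
      simp only [Finset.mem_filter, Finset.mem_univ, true_and] at hi'
      omega
  let Ds : Finset ((∀ i, X i) × Bool) :=
    C.image (fun y => (y, false)) ∪ (C.filter dbl).image (fun y => (y, true))
  have hDs : ∀ d : (∀ i, X i) × Bool, d ∈ Ds ↔ d.1 ∈ C ∧ (d.2 = true → dbl d.1) := by
    rintro ⟨y, β⟩
    simp only [Ds, Finset.mem_union, Finset.mem_image, Finset.mem_filter, Prod.mk.injEq]
    cases β
    · simp
    · simp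
  obtain ⟨f, hf1, hf2⟩ := hall_cap (ι := Ds)
    (fun d => Finset.univ.filter fun i => b i = k ∧ d.1.1 i ≠ p i σ0) c (by
      intro A
      obtain ⟨J, hJdef⟩ : ∃ J, J = A.biUnion
        fun d : Ds => Finset.univ.filter fun i => b i = k ∧ d.1.1 i ≠ p i σ0 := ⟨_, rfl⟩
      rw [← hJdef]
      have hmemJ : ∀ i, i ∈ J ↔ ∃ d ∈ A, b i = k ∧ d.1.1 i ≠ p i σ0 := by
        intro i
        rw [hJdef]
        simp
      rcases A.eq_empty_or_nonempty with hA | ⟨d0, hd0⟩
      · rw [hA, Finset.card_empty]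
        exact Nat.zero_le _
      have hin : ∀ d ∈ A, d.1.1 ∈ (Cl p σ0 b k J).erase fun i => p i σ0 := by
        intro d hd
        have h1 := ((hDs d.1).1 d.2).1
        rw [hC] at h1
        obtain ⟨h2, σ, h3, h4⟩ := h1
        rw [Finset.mem_erase, mem_Cl]
        refine ⟨h2, σ, fun i hi hiJ => ?_, h4⟩
        by_contra hne
        have hbi : b i = k := by
          by_contra hcon
          exact hne (h3 i (by omega))
        apply hiJ
        rw [hmemJ]
        refine ⟨d, hd, hbi, ?_⟩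
        rw [← h4, cls_of_le p σ0 b hi]
        exact hne
      have hJ0 : J.Nonempty := by
        have h1 := ((hDs d0.1).1 d0.2).1
        rw [hC] at h1
        obtain ⟨h2, σ, h3, h4⟩ := h1
        by_contra hcon
        apply h2
        funext i
        by_contra hne
        apply hcon
        refine ⟨i, (hmemJ i).2 ⟨d0, hd0, ?_, hne⟩⟩
        rw [← h4] at hne
        unfold cls at hne
        by_contra hb
        by_cases hle : b i ≤ k
        · rw [if_pos hle] at hne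
          exact hne (h3 i (by omega))
        · rw [if_neg hle] at hne
          exact hne rfl
      refine le_trans ?_ (h J hJ0 fun i hi => by
        obtain ⟨d, -, h1, -⟩ := (hmemJ i).1 hi
        exact h1)
      have h5 : A.map (Function.Embedding.subtype _) ⊆
          (((Cl p σ0 b k J).erase fun i => p i σ0).image fun y => (y, false)) ∪
          ((((Cl p σ0 b k J).erase fun i => p i σ0).filter dbl).image fun y => (y, true)) := by
        intro d hd
        rw [Finset.mem_map] at hd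
        obtain ⟨d, hd, rfl⟩ := hd
        have h1 := hin d hd
        have h2 := ((hDs d.1).1 d.2).2
        rw [Finset.mem_union, Finset.mem_image, Finset.mem_image]
        obtain ⟨⟨y, β⟩, hd'⟩ := d
        cases β
        · exact Or.inl ⟨y, h1, rfl⟩
        · exact Or.inr ⟨y, Finset.mem_filter.2 ⟨h1, h2 rfl⟩, rfl⟩
      have h6 := (Finset.card_le_card h5).trans (Finset.card_union_le _ _)
      rw [Finset.card_map] at h6
      exact h6.trans (add_le_add Finset.card_image_le Finset.card_image_le))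
  let G : (∀ i, X i) × Bool → Fin n → Prop := fun d i => ∃ hd : d ∈ Ds, f ⟨d, hd⟩ = i
  let Yt : Fin n → Finset (∀ i, X i) := fun i => C.filter fun y => G (y, true) i
  let Yf : Fin n → Finset (∀ i, X i) := fun i => C.filter fun y => G (y, false) i
  have hGp : ∀ d i, G d i → b i = k ∧ d.1 i ≠ p i σ0 := by
    rintro d i ⟨hd, hfi⟩
    have h1 := hf1 ⟨d, hd⟩
    rw [hfi, Finset.mem_filter] at h1
    exact h1.2
  refine ⟨fun i => (Yt i ∪ Yf i).image fun y => y i, fun i => (Yt i ∩ Yf i).image fun y => y i,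
    fun i => ?_, fun i => ?_, fun i => ?_, fun σ hσ1 hσ2 => ?_⟩
  · exact Finset.image_subset_image (Finset.inter_subset_left.trans Finset.subset_union_left)
  · intro hmem
    rw [Finset.mem_image] at hmem
    obtain ⟨y, hy, hyi⟩ := hmem
    rw [Finset.mem_union, Finset.mem_filter, Finset.mem_filter] at hy
    rcases hy with hy | hy
    · exact (hGp _ _ hy.2).2 hyi
    · exact (hGp _ _ hy.2).2 hyi
  · have h1 : (Yt i ∪ Yf i).card + (Yt i ∩ Yf i).card = (Yt i).card + (Yf i).card :=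
      Finset.card_union_add_card_inter _ _
    have h2 : (Yt i).card + (Yf i).card ≤ (Finset.univ.filter fun d : Ds => f d = i).card := by
      have h3 : ((Yt i).image fun y => (y, true)) ∪ ((Yf i).image fun y => (y, false)) ⊆
          (Finset.univ.filter fun d : Ds => f d = i).map (Function.Embedding.subtype _) := by
        intro d hd
        rw [Finset.mem_union, Finset.mem_image, Finset.mem_image] at hd
        rw [Finset.mem_map]
        rcases hd with ⟨y, hy, rfl⟩ | ⟨y, hy, rfl⟩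
        · obtain ⟨hd, hfd⟩ := (Finset.mem_filter.1 hy).2
          exact ⟨⟨_, hd⟩, Finset.mem_filter.2 ⟨Finset.mem_univ _, hfd⟩, rfl⟩
        · obtain ⟨hd, hfd⟩ := (Finset.mem_filter.1 hy).2
          exact ⟨⟨_, hd⟩, Finset.mem_filter.2 ⟨Finset.mem_univ _, hfd⟩, rfl⟩
      have h4 := Finset.card_le_card h3
      rw [Finset.card_map, Finset.card_union_of_disjoint, Finset.card_image_of_injective _
        (fun a b h => (Prod.ext_iff.1 h).1), Finset.card_image_of_injective _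
        (fun a b h => (Prod.ext_iff.1 h).1)] at h4
      · exact h4
      · rw [Finset.disjoint_left]
        intro x hx hy
        rw [Finset.mem_image] at hx hy
        obtain ⟨a, -, ha⟩ := hx
        obtain ⟨b, -, hb⟩ := hy
        rw [← hb] at ha
        have := (Prod.ext_iff.1 ha).2
        simp at this
    have h3 := hf2 i
    have h4 : ((Yt i ∪ Yf i).image fun y => y i).card ≤ _ := Finset.card_image_le
    have h5 : ((Yt i ∩ Yf i).image fun y => y i).card ≤ _ := Finset.card_image_le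
    show ((Yt i ∪ Yf i).image fun y => y i).card + ((Yt i ∩ Yf i).image fun y => y i).card ≤ c i
    omega
  · obtain ⟨i0, hi0, hne0⟩ := hσ2
    have hyC : cls p σ0 b k σ ∈ C := by
      rw [hC]
      refine ⟨fun h1 => hne0 ?_, σ, hσ1, rfl⟩
      rw [← cls_of_le p σ0 b hi0.le σ, h1]
    have hdf : (cls p σ0 b k σ, false) ∈ Ds := (hDs _).2 ⟨hyC, fun h => by simp at h⟩
    obtain ⟨i1, hi1⟩ : ∃ i1, f ⟨_, hdf⟩ = i1 := ⟨_, rfl⟩
    have hG1 : G (cls p σ0 b k σ, false) i1 := ⟨hdf, hi1⟩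
    have hb1 := (hGp _ _ hG1).1
    have hm1 : cls p σ0 b k σ ∈ Yf i1 := Finset.mem_filter.2 ⟨hyC, hG1⟩
    have hv1 : cls p σ0 b k σ i1 = p i1 σ := cls_of_le p σ0 b hb1.le σ
    have hT1 : p i1 σ ∈ (Yt i1 ∪ Yf i1).image fun y => y i1 := by
      rw [← hv1]
      exact Finset.mem_image_of_mem _ (Finset.mem_union_right _ hm1)
    by_cases hdbl : dbl (cls p σ0 b k σ)
    · have hdt : (cls p σ0 b k σ, true) ∈ Ds := (hDs _).2 ⟨hyC, fun _ => hdbl⟩
      obtain ⟨i2, hi2⟩ : ∃ i2, f ⟨_, hdt⟩ = i2 := ⟨_, rfl⟩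
      have hG2 : G (cls p σ0 b k σ, true) i2 := ⟨hdt, hi2⟩
      have hb2 := (hGp _ _ hG2).1
      have hm2 : cls p σ0 b k σ ∈ Yt i2 := Finset.mem_filter.2 ⟨hyC, hG2⟩
      have hv2 : cls p σ0 b k σ i2 = p i2 σ := cls_of_le p σ0 b hb2.le σ
      by_cases h12 : i1 = i2
      · left
        subst h12
        refine ⟨i1, hb1, ?_⟩
        rw [← hv1]
        exact Finset.mem_image_of_mem _ (Finset.mem_inter.2 ⟨hm2, hm1⟩)
      · right
        left
        refine ⟨i1, i2, hb1, hb2, h12, hT1, ?_⟩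
        rw [← hv2]
        exact Finset.mem_image_of_mem _ (Finset.mem_union_left _ hm2)
    · right
      right
      exact ⟨hdbl, i1, hb1, hT1⟩

open scoped Classical in
/-- the choice of the points, block by block -/
theorem exists_Tb (c : Fin n → ℕ) (N : ℕ) (dbl : ℕ → (∀ i, X i) → Prop)
    (h : ∀ k < N, ∀ J : Finset (Fin n), J.Nonempty → (∀ i ∈ J, b i = k) →
      ((Cl p σ0 b k J).erase fun i => p i σ0).card +
        (((Cl p σ0 b k J).erase fun i => p i σ0).filter (dbl k)).card ≤ ∑ i ∈ J, c i) :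
    ∃ T T2 : ∀ i, Finset (X i), (∀ i, T2 i ⊆ T i) ∧ (∀ i, p i σ0 ∉ T i) ∧
      (∀ i, (T i).card + (T2 i).card ≤ c i) ∧
      ∀ σ, (∃ i, b i < N ∧ p i σ ≠ p i σ0) →
        (∃ i, b i < N ∧ p i σ ∈ T2 i) ∨
        (∃ i j, b i < N ∧ b j < N ∧ i ≠ j ∧ p i σ ∈ T i ∧ p j σ ∈ T j) ∨
        (∃ k, (∀ i, b i < k → p i σ = p i σ0) ∧ ¬ dbl k (cls p σ0 b k σ) ∧
          ∃ i, b i < N ∧ p i σ ∈ T i) := by
  have h1 : ∀ k, ∃ T T2 : ∀ i, Finset (X i), (∀ i, T2 i ⊆ T i) ∧ (∀ i, p i σ0 ∉ T i) ∧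
      (∀ i, (T i).card + (T2 i).card ≤ c i) ∧ (k < N →
      ∀ σ, (∀ i, b i < k → p i σ = p i σ0) → (∃ i, b i = k ∧ p i σ ≠ p i σ0) →
        (∃ i, b i = k ∧ p i σ ∈ T2 i) ∨
        (∃ i j, b i = k ∧ b j = k ∧ i ≠ j ∧ p i σ ∈ T i ∧ p j σ ∈ T j) ∨
        (¬ dbl k (cls p σ0 b k σ) ∧ ∃ i, b i = k ∧ p i σ ∈ T i)) := by
    intro k
    by_cases hk : k < N
    · obtain ⟨T, T2, h1, h2, h3, h4⟩ := exists_block p σ0 b c k (dbl k) (h k hk)
      exact ⟨T, T2, h1, h2, h3, fun _ => h4⟩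
    · exact ⟨fun _ => ∅, fun _ => ∅, fun _ => Finset.Subset.refl _,
        fun _ => Finset.notMem_empty _, fun _ => by simp, fun h => absurd h hk⟩
  choose T T2 hTT hT0 hTc hTk using h1
  refine ⟨fun i => T (b i) i, fun i => T2 (b i) i, fun i => hTT _ _, fun i => hT0 _ _,
    fun i => hTc _ _, fun σ hσ => ?_⟩
  obtain ⟨i0, hi0, hne0⟩ := hσ
  have hne : (Finset.univ.filter fun i => b i < N ∧ p i σ ≠ p i σ0).Nonempty :=
    ⟨i0, Finset.mem_filter.2 ⟨Finset.mem_univ _, hi0, hne0⟩⟩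
  obtain ⟨i1, hi1, hmin⟩ := Finset.exists_min_image _ b hne
  simp only [Finset.mem_filter, Finset.mem_univ, true_and] at hi1 hmin
  have hagree : ∀ i, b i < b i1 → p i σ = p i σ0 := by
    intro i hi
    by_contra hcon
    have := hmin i ⟨by omega, hcon⟩
    omega
  rcases hTk (b i1) hi1.1 σ hagree ⟨i1, rfl, hi1.2⟩ with ⟨i, h1, h2⟩ | ⟨i, j, h1, h2, h3, h4, h5⟩ |
    ⟨h1, i, h2, h3⟩
  · left
    refine ⟨i, by omega, ?_⟩
    simp only [h1]
    exact h2
  · right
    left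
    refine ⟨i, j, by omega, by omega, h3, ?_, ?_⟩
    · simp only [h1]
      exact h4
    · simp only [h2]
      exact h5
  · right
    right
    refine ⟨b i1, hagree, h1, i, by omega, ?_⟩
    simp only [h2]
    exact h3

open scoped Classical in
/-- the choice of the points, block by block -/
theorem exists_Tb' (c : Fin n → ℕ) (N : ℕ) (dbl : ℕ → (∀ i, X i) → Prop)
    (h : ∀ k < N, ∀ J : Finset (Fin n), J.Nonempty → (∀ i ∈ J, b i = k) →
      ∃ m, (∀ E : Finset (∀ i, X i), E ⊆ (Cl p σ0 b k J).erase (fun i => p i σ0) →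
        (∀ y ∈ E, dbl k y) → E.card ≤ m) ∧ (Cl p σ0 b k J).card + m ≤ ∑ i ∈ J, c i + 1) :
    ∃ T T2 : ∀ i, Finset (X i), (∀ i, T2 i ⊆ T i) ∧ (∀ i, p i σ0 ∉ T i) ∧
      (∀ i, (T i).card + (T2 i).card ≤ c i) ∧
      ∀ σ, (∃ i, b i < N ∧ p i σ ≠ p i σ0) →
        (∃ i, b i < N ∧ p i σ ∈ T2 i) ∨
        (∃ i j, b i < N ∧ b j < N ∧ i ≠ j ∧ p i σ ∈ T i ∧ p j σ ∈ T j) ∨
        (∃ k, (∀ i, b i < k → p i σ = p i σ0) ∧ ¬ dbl k (cls p σ0 b k σ) ∧
          ∃ i, b i < N ∧ p i σ ∈ T i) := by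
  refine exists_Tb p σ0 b c N dbl fun k hk J hJ hJk => ?_
  obtain ⟨m, h1, h2⟩ := h k hk J hJ hJk
  have h3 := h1 (((Cl p σ0 b k J).erase fun i => p i σ0).filter (dbl k))
    (Finset.filter_subset _ _) fun y hy => (Finset.mem_filter.1 hy).2
  have h4 : 0 < (Cl p σ0 b k J).card := Finset.card_pos.2 ⟨_, base_mem p σ0 b k J⟩
  rw [Finset.card_erase_of_mem (base_mem p σ0 b k J)]
  omega

end

end Pool.Agent.Helper320.PCH
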