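import Pool.Agent.Helper320.PCH.Block

/-!
Correspondences with curves: the number of the classes of the embeddings.
-/

set_option autoImplicit false
set_option linter.overlappingInstances false
set_option linter.unusedSectionVars false
set_option maxHeartbeats 4000000
set_option synthInstance.maxHeartbeats 400000

open FF Pool.Agent.W603.LV
open Pool.Agent.Helper320.PCL.COREJL

namespace Pool.Agent.Helper320.PCH

/-- the degree over `L(F i : i ∈ S)` of `L(F i : i ∈ S ∪ J)` -/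
noncomputable def relDeg {K : Type} [Field K] [Algebra ℂ K] {n : ℕ} (L : Type) [Field L]
    [Algebra L K] (F : Fin n → IntermediateField ℂ K) (S J : Finset (Fin n)) : ℕ :=
  Module.finrank (IntermediateField.adjoin L (⋃ i ∈ S, (F i : Set K)))
    (IntermediateField.adjoin (IntermediateField.adjoin L (⋃ i ∈ S, (F i : Set K)))
      (⋃ i ∈ J, (F i : Set K)))

section

variable {K L : Type} [Field K] [Field L] [Algebra ℂ K] [Algebra ℂ L]
  [Algebra L K] [IsScalarTower ℂ L K] [FiniteDimensional L K] {n : ℕ}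
  (F : Fin n → IntermediateField ℂ K)

theorem relDeg_pos (S J : Finset (Fin n)) : 0 < relDeg L F S J := Module.finrank_pos

/-- the number of the classes -/
theorem card_Cl (b : Fin n → ℕ) (k : ℕ) (J : Finset (Fin n)) :
    (Cl (fun i => pr (L := L) F i) (s0 K L) b k J).card ≤
      relDeg L F (Finset.univ.filter fun i => b i ≤ k ∧ i ∉ J) J := by
  classical
  have : CharZero L := charZero_of_injective_algebraMap (algebraMap ℂ L).injective
  unfold relDeg
  obtain ⟨S, hS⟩ : ∃ S : Finset (Fin n), S = Finset.univ.filter fun i => b i ≤ k ∧ i ∉ J :=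
    ⟨_, rfl⟩
  have hmS : ∀ i, i ∈ S ↔ b i ≤ k ∧ i ∉ J := fun i => by rw [hS]; simp
  rw [← hS]
  obtain ⟨M, hM⟩ : ∃ M, M = IntermediateField.adjoin L (⋃ i ∈ S, (F i : Set K)) := ⟨_, rfl⟩
  rw [← hM]
  obtain ⟨E, hE⟩ : ∃ E, E = IntermediateField.adjoin M (⋃ i ∈ J, (F i : Set K)) := ⟨_, rfl⟩
  rw [← hE]
  have : CharZero M := charZero_of_injective_algebraMap (algebraMap L M).injective
  have : FiniteDimensional M K := FiniteDimensional.right L M K
  rw [← AlgHom.card M E (AlgebraicClosure K), ← Finset.card_univ]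
  refine Finset.card_le_card_of_forall_subsingleton
    (fun y ρ => ∃ τ : K →ₐ[M] AlgebraicClosure K, τ.comp E.val = ρ ∧
      cls (fun i => pr (L := L) F i) (s0 K L) b k (τ.restrictScalars L) = y) ?_ ?_
  · intro y hy
    rw [mem_Cl] at hy
    obtain ⟨σ, h1, h2⟩ := hy
    obtain ⟨τ, rfl⟩ := mem_range F S M hM σ (fun j hj =>
      h1 j ((hmS j).1 hj).1 ((hmS j).1 hj).2)
    exact ⟨τ.comp E.val, Finset.mem_univ _, τ, rfl, h2⟩
  · rintro ρ - y ⟨-, τ, h1, rfl⟩ y' ⟨-, τ', h1', rfl⟩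
    funext i
    unfold cls
    by_cases hi : b i ≤ k
    · rw [if_pos hi, if_pos hi]
      by_cases hiJ : i ∈ J
      · ext z
        have hz : (z : K) ∈ E := by
          rw [hE]
          exact IntermediateField.subset_adjoin M _ (Set.mem_iUnion₂.2 ⟨i, hiJ, z.2⟩)
        have h2 := DFunLike.congr_fun (h1.trans h1'.symm) ⟨(z : K), hz⟩
        exact h2
      · have hiS : i ∈ S := (hmS i).2 ⟨hi, hiJ⟩
        exact (pr_of_range F S M hM τ i hiS).trans (pr_of_range F S M hM τ' i hiS).symm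
    · rw [if_neg hi, if_neg hi]

/-- the choice of the points -/
theorem core_Tb (b : Fin n → ℕ) (N : ℕ) (μ : Fin n → ℕ)
    (hA : ∀ k < N, ∀ J : Finset (Fin n), J.Nonempty → (∀ i ∈ J, b i = k) →
      relDeg L F (Finset.univ.filter fun i => b i ≤ k ∧ i ∉ J) J ≤ ∑ i ∈ J, μ i + 1) :
    ∃ T : ∀ i, Finset (F i →ₐ[ℂ] AlgebraicClosure K), (∀ i, pr F i (s0 K L) ∉ T i) ∧
      (∀ i, (T i).card ≤ μ i) ∧
      ∀ σ : K →ₐ[L] AlgebraicClosure K, (∃ i, b i < N ∧ pr F i σ ≠ pr F i (s0 K L)) →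
        ∃ i, b i < N ∧ pr F i σ ∈ T i := by
  classical
  obtain ⟨T, T2, h1, h2, h3, h4⟩ := exists_Tb' (fun i => pr (L := L) F i) (s0 K L) b μ N
    (fun _ _ => False) (by
      intro k hk J hJ hJk
      have h5 := card_Cl (L := L) F b k J
      have h6 := hA k hk J hJ hJk
      refine ⟨0, fun E _ hE => ?_, by omega⟩
      rw [Finset.eq_empty_iff_forall_notMem.2 hE, Finset.card_empty])
  refine ⟨T, h2, fun i => (Nat.le_add_right _ _).trans (h3 i), fun σ hσ => ?_⟩
  rcases h4 σ hσ with ⟨i, h5, h6⟩ | ⟨i, j, h5, -, -, h6, -⟩ | ⟨k, -, -, i, h5, h6⟩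
  · exact ⟨i, h5, h1 i h6⟩
  · exact ⟨i, h5, h6⟩
  · exact ⟨i, h5, h6⟩

/-- the choice of the points, with multiplicities -/
theorem core_Tb2 (b : Fin n → ℕ) (N : ℕ) (μ : Fin n → ℕ) (l₀ : Fin n) (hμ : 1 ≤ μ l₀)
    (hA : ∀ k < N, ∀ J : Finset (Fin n), J.Nonempty → (∀ i ∈ J, b i = k) →
      relDeg L F (Finset.univ.filter fun i => b i ≤ k ∧ i ∉ J) J ≤ ∑ i ∈ J, μ i + 1)
    (hB : ∀ J : Finset (Fin n), l₀ ∈ J → (∀ i ∈ J, b i = b l₀) →
      2 * relDeg L F (Finset.univ.filter fun i => b i ≤ b l₀ ∧ i ∉ J) J ≤ ∑ i ∈ J, μ i + 1)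
    (hC : ∀ k < b l₀, ∀ J : Finset (Fin n), J.Nonempty → (∀ i ∈ J, b i = k) →
      2 * relDeg L F (Finset.univ.filter fun i => b i ≤ k ∧ i ∉ J) J ≤ ∑ i ∈ J, μ i + 2) :
    ∃ T T2 : ∀ i, Finset (F i →ₐ[ℂ] AlgebraicClosure K), (∀ i, T2 i ⊆ T i) ∧
      (∀ i, pr F i (s0 K L) ∉ T i) ∧ (∀ i, (T i).card + (T2 i).card ≤ μ i) ∧
      ((T l₀).card + (T2 l₀).card + 1 ≤ μ l₀) ∧
      ∀ σ : K →ₐ[L] AlgebraicClosure K, (∃ i, b i < N ∧ pr F i σ ≠ pr F i (s0 K L)) →
        (∃ i, b i < N ∧ pr F i σ ∈ T2 i) ∨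
        (∃ i j, b i < N ∧ b j < N ∧ i ≠ j ∧ pr F i σ ∈ T i ∧ pr F j σ ∈ T j) ∨
        (pr F l₀ σ = pr F l₀ (s0 K L) ∧ ∃ i, b i < N ∧ pr F i σ ∈ T i) := by
  classical
  let c : Fin n → ℕ := fun i => if i = l₀ then μ i - 1 else μ i
  have hc0 : c l₀ = μ l₀ - 1 := if_pos rfl
  have hci : ∀ i, i ≠ l₀ → c i = μ i := fun i hi => if_neg hi
  have hcle : ∀ i, c i ≤ μ i := by
    intro i
    by_cases hi : i = l₀
    · rw [hi, hc0]
      omega
    · rw [hci i hi]
  have hsum1 : ∀ J : Finset (Fin n), l₀ ∈ J → ∑ i ∈ J, c i + 1 = ∑ i ∈ J, μ i := by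
    intro J hJl
    have h1 : c l₀ + ∑ i ∈ J.erase l₀, c i = ∑ i ∈ J, c i := Finset.add_sum_erase J c hJl
    have h2 : μ l₀ + ∑ i ∈ J.erase l₀, μ i = ∑ i ∈ J, μ i := Finset.add_sum_erase J μ hJl
    have h3 : ∑ i ∈ J.erase l₀, c i = ∑ i ∈ J.erase l₀, μ i :=
      Finset.sum_congr rfl fun i hi => hci i (Finset.mem_erase.1 hi).1
    omega
  have hsum2 : ∀ J : Finset (Fin n), l₀ ∉ J → ∑ i ∈ J, c i = ∑ i ∈ J, μ i := by
    intro J hJl
    exact Finset.sum_congr rfl fun i hi => hci i fun h => hJl (h ▸ hi)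
  obtain ⟨T, T2, h1, h2, h3, h4⟩ := exists_Tb' (fun i => pr (L := L) F i) (s0 K L) b c N
    (fun k y => k < b l₀ ∨ (k = b l₀ ∧ y l₀ ≠ pr (L := L) F l₀ (s0 K L))) (by
      intro k hk J hJ hJk
      have h5 := card_Cl (L := L) F b k J
      have h6 := hA k hk J hJ hJk
      have h8 : ∀ E : Finset (∀ i, F i →ₐ[ℂ] AlgebraicClosure K),
          E ⊆ (Cl (fun i => pr (L := L) F i) (s0 K L) b k J).erase
            (fun i => pr (L := L) F i (s0 K L)) →
          E.card ≤ (Cl (fun i => pr (L := L) F i) (s0 K L) b k J).card - 1 := by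
        intro E hE
        rw [← Finset.card_erase_of_mem (base_mem (fun i => pr (L := L) F i) (s0 K L) b k J)]
        refine Finset.card_le_card fun y hy => ?_
        have h9 := hE hy
        rw [Finset.mem_erase] at h9 ⊢
        exact h9
      by_cases hl : l₀ ∈ J
      · have hkl : b l₀ = k := hJk l₀ hl
        have h10 := hB J hl (fun i hi => by rw [hJk i hi, hkl])
        have h11 := hsum1 J hl
        rw [hkl] at h10
        exact ⟨_, fun E hE _ => h8 E hE, by omega⟩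
      · rw [hsum2 J hl]
        by_cases hkl : k < b l₀
        · have h10 := hC k hkl J hJ hJk
          exact ⟨_, fun E hE _ => h8 E hE, by omega⟩
        · refine ⟨0, fun E hE hEd => ?_, by omega⟩
          refine le_of_eq (Finset.card_eq_zero.2 (Finset.eq_empty_iff_forall_notMem.2 fun y hy => ?_))
          rcases hEd y hy with h11 | ⟨h11, h12⟩
          · exact hkl h11
          · apply h12
            have hy' := hE hy
            rw [Finset.mem_erase, mem_Cl] at hy'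
            obtain ⟨-, σ, h13, rfl⟩ := hy'
            rw [cls_of_le _ _ _ h11.ge]
            exact h13 l₀ h11.ge hl)
  refine ⟨T, T2, h1, h2, fun i => (h3 i).trans (hcle i), ?_, fun σ hσ => ?_⟩
  · have := h3 l₀
    rw [hc0] at this
    omega
  rcases h4 σ hσ with h5 | h5 | ⟨k, h9, h10, i, h5, h6⟩
  · exact Or.inl h5
  · exact Or.inr (Or.inl h5)
  · refine Or.inr (Or.inr ⟨?_, i, h5, h6⟩)
    push Not at h10
    obtain ⟨h11, h12⟩ := h10
    rcases h11.lt_or_eq with h13 | h13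
    · exact h9 l₀ h13
    · have h14 := h12 h13.symm
      rw [cls_of_le _ _ _ h13.le] at h14
      exact h14

end

end Pool.Agent.Helper320.PCH
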