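import Pool.Agent.Helper320.PCH.BlockF

/-!
Correspondences with curves: the degrees of the images.
-/

set_option autoImplicit false
set_option linter.overlappingInstances false
set_option linter.unusedSectionVars false
set_option maxHeartbeats 4000000
set_option synthInstance.maxHeartbeats 400000

open FF Pool.Agent.W603.LV

namespace Pool.Agent.Helper320.PCH

/-- the degree over `L` of `L(F i : i ∈ S)` -/
noncomputable def dg {K : Type} [Field K] [Algebra ℂ K] {n : ℕ} (L : Type) [Field L]
    [Algebra L K] (F : Fin n → IntermediateField ℂ K) (S : Finset (Fin n)) : ℕ :=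
  Module.finrank L (IntermediateField.adjoin L (⋃ i ∈ S, (F i : Set K)))

section

variable {K L : Type} [Field K] [Field L] [Algebra ℂ K]
  [Algebra L K] [FiniteDimensional L K] {n : ℕ}
  (F : Fin n → IntermediateField ℂ K)

theorem dg_pos (S : Finset (Fin n)) : 0 < dg L F S := Module.finrank_pos

theorem dg_mul (S J : Finset (Fin n)) : dg L F S * relDeg L F S J = dg L F (S ∪ J) := by
  classical
  unfold dg relDeg
  obtain ⟨M, hM⟩ : ∃ M, M = IntermediateField.adjoin L (⋃ i ∈ S, (F i : Set K)) := ⟨_, rfl⟩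
  rw [← hM]
  obtain ⟨E, hE⟩ : ∃ E, E = IntermediateField.adjoin M (⋃ i ∈ J, (F i : Set K)) := ⟨_, rfl⟩
  rw [← hE]
  have h1 : E.restrictScalars L =
      IntermediateField.adjoin L (⋃ i ∈ S ∪ J, (F i : Set K)) := by
    rw [hE, hM, IntermediateField.adjoin_adjoin_left]
    congr 1
    ext z
    simp only [Set.mem_union, Set.mem_iUnion, Finset.mem_union]
    constructor
    · rintro (⟨i, hi, hz⟩ | ⟨i, hi, hz⟩)
      · exact ⟨i, Or.inl hi, hz⟩
      · exact ⟨i, Or.inr hi, hz⟩
    · rintro ⟨i, hi | hi, hz⟩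
      · exact Or.inl ⟨i, hi, hz⟩
      · exact Or.inr ⟨i, hi, hz⟩
  rw [← h1]
  exact Module.finrank_mul_finrank L M E

theorem relDeg_le_iff (b : Fin n → ℕ) (k m : ℕ) (J : Finset (Fin n)) (hJ : ∀ i ∈ J, b i = k)
    (a : ℕ) (h : a * dg L F (Finset.univ.filter fun i => b i ≤ k) ≤
      dg L F (Finset.univ.filter fun i => b i ≤ k ∧ i ∉ J) * m) :
    a * relDeg L F (Finset.univ.filter fun i => b i ≤ k ∧ i ∉ J) J ≤ m := by
  have h1 := dg_mul (L := L) F (Finset.univ.filter fun i => b i ≤ k ∧ i ∉ J) J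
  have h2 : (Finset.univ.filter fun i => b i ≤ k ∧ i ∉ J) ∪ J =
      Finset.univ.filter fun i => b i ≤ k := by
    ext i
    simp only [Finset.mem_union, Finset.mem_filter, Finset.mem_univ, true_and]
    constructor
    · rintro (h3 | h3)
      · exact h3.1
      · exact (hJ i h3).le
    · intro h3
      by_cases h4 : i ∈ J
      · exact Or.inr h4
      · exact Or.inl ⟨h3, h4⟩
  rw [h2] at h1
  rw [← h1] at h
  have h3 : 0 < dg L F (Finset.univ.filter fun i => b i ≤ k ∧ i ∉ J) := dg_pos F _
  refine Nat.le_of_mul_le_mul_left ?_ h3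
  calc _ = a * (dg L F (Finset.univ.filter fun i => b i ≤ k ∧ i ∉ J) *
      relDeg L F (Finset.univ.filter fun i => b i ≤ k ∧ i ∉ J) J) := by ring
    _ ≤ _ := h

end

end Pool.Agent.Helper320.PCH
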