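import Pool.Agent.Helper320.PCH.Rel
import Pool.Agent.Helper320.PCH.Deg
import Pool.Agent.Helper320.PCL.Main2

/-!
Correspondences with curves: sections of `K + D` and the Kodaira dimension, block by block.
-/

set_option autoImplicit false
set_option linter.overlappingInstances false
set_option linter.unusedSectionVars false
set_option maxHeartbeats 4000000
set_option synthInstance.maxHeartbeats 400000

open FF Pool.Agent.W603.LV
open Pool.Agent.W602.GT (IsPluri Divisorial RegAt LogAt KodGe LogSec)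
open Pool.Agent.W619.PQ (extForm)
open Pool.Agent.Y172 (exists_crd exists_lift lift_dual pluri_coord)
open Pool.Agent.Y184.NT (trForm trForm_pluri trForm_reg)
open Pool.Agent.Helper320.PC (form_eq der_prod der_mem)
open Pool.Agent.Helper320.PCL

namespace Pool.Agent.Helper320.PCH

/-- nonconstant functions on the factors are a transcendence basis -/
theorem basis_of_alg {n : ℕ} {K : Type} [Field K] [Algebra ℂ K]
    (hK : Algebra.trdeg ℂ K = n) (F : Fin n → IntermediateField ℂ K) [∀ i, IsFF ℂ (F i)]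
    (halg : ∀ z : K, IsAlgebraic (⨆ i, F i : IntermediateField ℂ K) z) (x : ∀ i, F i)
    (hx : ∀ i, Transcendental ℂ (x i)) :
    IsTranscendenceBasis ℂ (fun i => (x i : K)) := by
  let S : IntermediateField ℂ K := IntermediateField.adjoin ℂ (Set.range fun i => (x i : K))
  let A : IntermediateField S K := algebraicClosure S K
  let M : IntermediateField ℂ K := ⨆ i, F i
  have hMA : ∀ z ∈ M, z ∈ A := by
    intro z hz
    rw [mem_algebraicClosure_iff]
    exact Pool.Agent.W619.PQ.alg_iSup F x hx hz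
  let f : M →+* A := (algebraMap M K).codRestrict A fun z => hMA z z.2
  have h1 : Algebra.IsAlgebraic (Algebra.adjoin ℂ (Set.range fun i => (x i : K))) K := by
    refine Pool.Agent.W619.PQ.alg_adjoin fun z => ?_
    have h2 : IsAlgebraic A z :=
      (halg z).ringHom_of_comp_eq f (RingHom.id K) f.injective (by ext z; rfl)
    exact h2.restrictScalars S
  refine Algebra.IsAlgebraic.isTranscendenceBasis_of_lift_le_trdeg_of_finite ℂ _ ?_
  rw [hK]
  simp

section

variable {n : ℕ} {K : Type} [Field K] [Algebra ℂ K] [hess : Algebra.EssFiniteType ℂ K]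
  (hK : Algebra.trdeg ℂ K = n) (F : Fin n → IntermediateField ℂ K)
  [hF : ∀ i, IsFF ℂ (F i)] (B : ∀ i, Finset (Place ℂ (F i)))
  (halg : ∀ z : K, IsAlgebraic (⨆ i, F i : IntermediateField ℂ K) z)
  (L : Type) [Field L] [Algebra ℂ L] [Algebra L K] [IsScalarTower ℂ L K]
  [FiniteDimensional L K]
  (D0 : ∀ i, Derivation ℂ (F i) (F i)) (hD0 : ∀ i, D0 i ≠ 0) (x : ∀ i, F i)
  (hx : ∀ i, Transcendental ℂ (x i)) {z : Fin n → L} {E : Fin n → Derivation ℂ L L}
  (hz : IsTranscendenceBasis ℂ z) (hE : ∀ i j, E i (z j) = if i = j then 1 else 0)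
  {E' : Fin n → Derivation ℂ K K}
  (hE' : ∀ i f, E' i (algebraMap L K f) = algebraMap L K (E i f)) (BL : Place ℂ L → Prop)
  (hBL : ∀ (P : Place ℂ L) (Q : Place ℂ K) (e : ℕ), Over Q P e → BdK F B Q → BL P)

include hess hK halg hD0 hx hz hE hE' in
/-- the form does not vanish -/
theorem delta_ne {δ : K} (hδ : δ = (∏ i, algebraMap (F i) K (1 / (D0 i (x i)) ^ 1)) *
    (Matrix.det (Matrix.of fun j i => E' j (algebraMap (F i) K (x i)))) ^ 1) : δ ≠ 0 := by
  have hzK : IsTranscendenceBasis ℂ (fun j => algebraMap L K (z j)) := hz.algebraMap_comp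
  have hE'd := lift_dual hE hE'
  have hxb : IsTranscendenceBasis ℂ fun i => algebraMap (F i) K (x i) :=
    basis_of_alg hK F halg x hx
  obtain ⟨G, hG⟩ := Pool.Agent.W619.PQ.extForm_ne 1 D0 x (fun _ => 1)
    (fun _ => one_ne_zero) (fun i => der_ne_zero (hD0 i) (hx i)) hxb
  intro h0
  apply hG
  rw [pluri_coord hzK hE'd (Pool.Agent.W619.PQ.extForm_pluri 1 _ x _) G, form_eq F D0 x _ E' hδ, h0,
    mul_zero, mul_zero]

include hess hK hD0 hx hz hE hE' hBL in
/-- if there is no section then the traces vanish -/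
theorem rel_of_genus
    (hg : ∀ ω : (Fin n → Derivation ℂ L L) → L, LogSec ℂ L n 1 BL ω → ∀ D, ω D = 0)
    (c : ∀ i, F i) (hc : ∀ i, IsLogD (B i) (D0 i) (c i)) :
    Algebra.trace L K (extForm (K := K) 1 D0 x c E') = 0 := by
  have hessL : Algebra.EssFiniteType ℂ L := Pool.Agent.TH466.QG.ess_below (K := K)
  have hL : Algebra.trdeg ℂ L = n := Pool.Agent.Y184.NT.trdeg_below (K := K) hK
  obtain ⟨h3, h4⟩ := t_REGL F B D0 hD0 x c hx hc
  have h5 := hg (trForm z (Algebra.trace L K (extForm (K := K) 1 D0 x c E')))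
    ⟨trForm_pluri _ _, fun P hP => (Pool.Agent.R882.LT.trForm_sec hL hz hE hE' _ h3
      hBL (fun Q _ => h4 Q) P hP).1, fun P hP hB =>
      (Pool.Agent.R882.LT.trForm_sec hL hz hE hE' _ h3
      hBL (fun Q _ => h4 Q) P hP).2 hB⟩ E
  have h6 : (Matrix.of fun i j => E i (z j) : Matrix (Fin n) (Fin n) L) = 1 := by
    ext a b
    rw [Matrix.of_apply, hE, Matrix.one_apply]
  rw [trForm, h6, Matrix.det_one, one_mul] at h5
  exact h5

variable (b : Fin n → ℕ) (N : ℕ) (I : Finset (Fin n)) (hIb : ∀ i, i ∈ I ↔ b i < N)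
  (L' : IntermediateField L K)
  (hL' : L' = IntermediateField.adjoin L (⋃ i ∈ I, (F i : Set K)))
  (μ : Fin n → ℕ) (hγ : ∀ i, LGonGe ℂ (F i) (B i) (μ i + 2))
  (hA : ∀ k < N, ∀ J : Finset (Fin n), J.Nonempty → (∀ i ∈ J, b i = k) →
    relDeg L F (Finset.univ.filter fun i => b i ≤ k ∧ i ∉ J) J ≤ ∑ i ∈ J, μ i + 1)

include hess hK halg hD0 hx hz hE hE' hBL hIb hL' hγ hA in
/-- **Dichotomy.** -/
theorem dichB (Λ : Finset (Fin n)) (hΛI : Λ ⊆ I)
    (hB : ∀ l ∈ Λ, ∀ J : Finset (Fin n), l ∈ J → (∀ i ∈ J, b i = b l) →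
      2 * relDeg L F (Finset.univ.filter fun i => b i ≤ b l ∧ i ∉ J) J ≤ ∑ i ∈ J, μ i + 1)
    (hC : ∀ l ∈ Λ, ∀ k < b l, ∀ J : Finset (Fin n), J.Nonempty → (∀ i ∈ J, b i = k) →
      2 * relDeg L F (Finset.univ.filter fun i => b i ≤ k ∧ i ∉ J) J ≤ ∑ i ∈ J, μ i + 2) :
    KodGe ℂ L n BL Λ.card ∨
      ∀ c : ∀ i, F i, (∀ i, i ∉ I → IsLogD (B i) (D0 i) (c i)) →
        Algebra.trace L' K (extForm (K := K) 1 D0 x c E') = 0 := by
  classical
  have hessL : Algebra.EssFiniteType ℂ L := Pool.Agent.TH466.QG.ess_below (K := K)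
  have hL : Algebra.trdeg ℂ L = n := Pool.Agent.Y184.NT.trdeg_below (K := K) hK
  have hzK : IsTranscendenceBasis ℂ (fun j => algebraMap L K (z j)) := hz.algebraMap_comp
  have hE'd := lift_dual hE hE'
  obtain ⟨δ, hδ⟩ : ∃ δ : K, δ = (∏ i, algebraMap (F i) K (1 / (D0 i (x i)) ^ 1)) *
    (Matrix.det (Matrix.of fun j i => E' j (algebraMap (F i) K (x i)))) ^ 1 := ⟨_, rfl⟩
  have hform : ∀ c : ∀ i, F i, extForm (K := K) 1 D0 x c E' =
      (∏ i, (c i : K)) * δ := fun c => form_eq F D0 x c E' hδ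
  have hxb : IsTranscendenceBasis ℂ fun i => algebraMap (F i) K (x i) :=
    basis_of_alg hK F halg x hx
  -- the case of a derivation
  have hcase : ∀ (D : Derivation ℂ L L) (D' : Derivation ℂ K K) (θ : L),
      (∀ f : L, D' (algebraMap L K f) = algebraMap L K (D f)) →
      (∀ c : ∀ i, F i, (∀ i, IsLogD (B i) (D0 i) (c i)) →
        D (Algebra.trace L K ((∏ i, (c i : K)) * δ)) =
          θ * Algebra.trace L K ((∏ i, (c i : K)) * δ)) →
      ∀ l₀ ∈ Λ, D' (x l₀ : K) ≠ 0 →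
      ∀ c : ∀ i, F i, (∀ i, i ∉ I → IsLogD (B i) (D0 i) (c i)) →
        Algebra.trace L' K (extForm (K := K) 1 D0 x c E') = 0 := by
    intro D D' θ hD hθ l₀ hl₀ hne c hc
    rw [hform]
    have hD0x : ∀ l, ((D0 l (x l) : F l) : K) ≠ 0 := by
      intro l h
      exact der_ne_zero (hD0 l) (hx l) (Subtype.ext h)
    have hμ : 1 ≤ μ l₀ := by
      have h1 := hB l₀ hl₀ {l₀} (Finset.mem_singleton_self _)
        (fun i hi => by rw [Finset.mem_singleton.1 hi])
      have h2 := relDeg_pos (L := L) F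
        (Finset.univ.filter fun i => b i ≤ b l₀ ∧ i ∉ ({l₀} : Finset (Fin n))) {l₀}
      rw [Finset.sum_singleton] at h1
      omega
    have hmem : ∀ y ∈ F l₀, y ∈ L' := by
      intro y hy
      rw [hL']
      exact IntermediateField.subset_adjoin L _ (Set.mem_iUnion₂.2 ⟨l₀, hΛI hl₀, hy⟩)
    refine rel_overJ F B b N I hIb L' hL' μ hγ l₀ (hΛI hl₀) hμ hA (hB l₀ hl₀) (hC l₀ hl₀)
      D0 hD0 (D' δ - algebraMap L K θ * δ) δ
      (fun l => D' (x l : K) / (D0 l (x l) : K)) (div_ne_zero hne (hD0x l₀))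
      (div_mem (der_mem hL D D' hD L' (hmem _ (x l₀).2)) (hmem _ (D0 l₀ (x l₀)).2)) ?_ c hc
    intro c hc
    have hcl : ∀ l, D' (c l : K) = D' (x l : K) / (D0 l (x l) : K) * (D0 l (c l) : K) := by
      intro l
      obtain ⟨r, hr1, hr2⟩ := Pool.Agent.W619.PQ.ratio' (K := K) (hx l) (c l)
      have h1 : D' (c l : K) = (r : K) * D' (x l : K) := hr2 D'
      have h2 : (D0 l (c l) : K) = (r : K) * (D0 l (x l) : K) :=
        congrArg Subtype.val (hr1 (D0 l))
      rw [h1, h2]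
      have h3 := hD0x l
      field_simp
    have hprod : D' ((∏ i, (c i : K)) * δ) = (∏ i, (c i : K)) * D' δ +
        ∑ l, δ * (D' (x l : K) / (D0 l (x l) : K)) * (D0 l (c l) : K) *
          ∏ i ∈ Finset.univ.erase l, (c i : K) := by
      rw [D'.leibniz, smul_eq_mul, smul_eq_mul, der_prod D' Finset.univ fun i => (c i : K),
        Finset.mul_sum]
      congr 1
      refine Finset.sum_congr rfl fun l _ => ?_
      rw [hcl l]
      ring
    have h1 : (∏ i, (c i : K)) * (D' δ - algebraMap L K θ * δ) +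
        ∑ l, δ * (D' (x l : K) / (D0 l (x l) : K)) * (D0 l (c l) : K) *
          ∏ i ∈ Finset.univ.erase l, (c i : K) =
        D' ((∏ i, (c i : K)) * δ) - θ • ((∏ i, (c i : K)) * δ) := by
      rw [hprod, Algebra.smul_def]
      ring
    rw [h1, map_sub, map_smul, Pool.Agent.Helper320.PC.t_TRD D D' hD, hθ c hc, smul_eq_mul,
      sub_self]
  by_cases hall : ∀ c : ∀ i, F i, (∀ i, IsLogD (B i) (D0 i) (c i)) →
      Algebra.trace L K ((∏ i, (c i : K)) * δ) = 0
  · right
    intro c hc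
    rw [hform]
    exact rel_over F B b N I hIb L' hL' μ hγ hA D0 hD0 δ hall c hc
  push Not at hall
  obtain ⟨c₀, hc₀, hne⟩ := hall
  by_cases hAA : ∃ (D : Derivation ℂ L L) (D' : Derivation ℂ K K) (θ : L),
    (∀ f : L, D' (algebraMap L K f) = algebraMap L K (D f)) ∧
    (∀ c : ∀ i, F i, (∀ i, IsLogD (B i) (D0 i) (c i)) →
      D (Algebra.trace L K ((∏ i, (c i : K)) * δ)) =
        θ * Algebra.trace L K ((∏ i, (c i : K)) * δ)) ∧
    ∃ l₀ ∈ Λ, D' (x l₀ : K) ≠ 0
  · obtain ⟨D, D', θ, h1, h2, l₀, h3, h4⟩ := hAA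
    exact Or.inr (hcase D D' θ h1 h2 l₀ h3 h4)
  left
  let S : Set L := {s | ∃ c : ∀ i, F i, (∀ i, IsLogD (B i) (D0 i) (c i)) ∧
    s = Algebra.trace L K ((∏ i, (c i : K)) * δ)}
  let e : Fin Λ.card ≃ Λ := Λ.equivFin.symm
  obtain ⟨s, hs, hind⟩ := Pool.Agent.Helper320.PC.t_KOD (K := K) S _ ⟨c₀, hc₀, rfl⟩ hne
    (fun j => (x (e j) : K))
    (hxb.1.comp (fun j => (e j : Fin n)) (Subtype.val_injective.comp e.injective)) (by
      intro D D' hD hS j
      by_contra hcon
      apply hAA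
      refine ⟨D, D', D (Algebra.trace L K ((∏ i, (c₀ i : K)) * δ)) /
        Algebra.trace L K ((∏ i, (c₀ i : K)) * δ), hD, fun c hc => ?_, e j, (e j).2, hcon⟩
      have h1 := hS _ ⟨c, hc, rfl⟩
      obtain ⟨u, hu⟩ : ∃ u : L, u = Algebra.trace L K ((∏ i, (c i : K)) * δ) := ⟨_, rfl⟩
      obtain ⟨v, hv⟩ : ∃ v : L, v = Algebra.trace L K ((∏ i, (c₀ i : K)) * δ) := ⟨_, rfl⟩
      rw [← hu, ← hv] at h1 ⊢
      rw [← hv] at hne
      have h2 : D u = D (u / v * v) := by rw [div_mul_cancel₀ _ hne]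
      rw [h2, D.leibniz, h1, smul_zero, add_zero, smul_eq_mul]
      field_simp)
  choose c hc hsc using hs
  let cc : Fin (Λ.card + 1) → ∀ i, F i := Fin.cons c₀ c
  have hcc : ∀ j i, IsLogD (B i) (D0 i) (cc j i) := by
    intro j
    refine Fin.cases ?_ (fun j => ?_) j
    · exact hc₀
    · exact hc j
  have hreg := fun j => t_REGL F B D0 hD0 x (cc j) hx (hcc j)
  let ω : Fin (Λ.card + 1) → (Fin n → Derivation ℂ L L) → L := fun j =>
    trForm z (Algebra.trace L K (extForm (K := K) 1 D0 x (cc j) E'))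
  have hω : ∀ j (P : Place ℂ L), Divisorial n P → Pool.Agent.R882.LT.SecAt BL P (ω j) :=
    fun j P hP => Pool.Agent.R882.LT.trForm_sec hL hz hE hE' _ (hreg j).1 hBL
      (fun Q _ => (hreg j).2 Q) P hP
  have hval : ∀ j, ω j E = Algebra.trace L K ((∏ i, (cc j i : K)) * δ) := by
    intro j
    change (Matrix.of fun i j => E i (z j) : Matrix (Fin n) (Fin n) L).det * _ = _
    have h1 : (Matrix.of fun i j => E i (z j) : Matrix (Fin n) (Fin n) L) = 1 := by
      ext a b
      rw [Matrix.of_apply, hE, Matrix.one_apply]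
    rw [h1, Matrix.det_one, one_mul, hform]
  refine ⟨1, one_pos, ω, fun j => ⟨trForm_pluri _ _, fun P hP => (hω j P hP).1,
      fun P hP hB => (hω j P hP).2 hB⟩, E, ?_, ?_⟩
  · rw [hval]
    exact hne
  · have h1 : (fun i : Fin Λ.card => ω i.succ E / ω 0 E) =
        fun j => s j / Algebra.trace L K ((∏ i, (c₀ i : K)) * δ) := by
      funext j
      rw [hval, hval, hsc j]
      rfl
    rw [h1]
    exact hind


end

end Pool.Agent.Helper320.PCH
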