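import Pool.Agent.Helper320.PCH.DichB
import Pool.Agent.Helper320.PCL.Fin

/-!
Correspondences with curves: final statements.
-/

set_option autoImplicit false
set_option linter.overlappingInstances false
set_option linter.unusedSectionVars false
set_option maxHeartbeats 4000000
set_option synthInstance.maxHeartbeats 400000

open FF Pool.Agent.W603.LV
open Pool.Agent.W602.GT (IsPluri Divisorial RegAt LogAt KodGe LogSec Psef)
open Pool.Agent.W619.PQ (extForm)
open Pool.Agent.W619.PL (IsA1Uniruled)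
open Pool.Agent.Y172 (exists_crd exists_lift lift_dual pluri_coord)
open Pool.Agent.Helper320.PC (form_eq)
open Pool.Agent.Helper320.PCL

namespace Pool.Agent.Helper320.PCH

theorem trace_top {K L : Type} [Field K] [Field L] [Algebra L K] [FiniteDimensional L K]
    (L' : IntermediateField L K) (hL' : L' = ⊤) (y : K) (h : Algebra.trace L' K y = 0) : y = 0 := by
  subst hL'
  have h1 : y = algebraMap (⊤ : IntermediateField L K) K ⟨y, trivial⟩ := rfl
  rw [h1, Algebra.trace_algebraMap, IntermediateField.finrank_top, one_smul] at h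
  exact congrArg Subtype.val h

theorem trace_mem {K L : Type} [Field K] [Field L] [CharZero L] [Algebra L K]
    [FiniteDimensional L K] (L' : IntermediateField L K) (y : K) (hy : y ∈ L')
    (h : Algebra.trace L' K y = 0) : y = 0 := by
  have : CharZero L' := charZero_of_injective_algebraMap (algebraMap L L').injective
  have : FiniteDimensional L' K := FiniteDimensional.right L L' K
  have h1 : y = algebraMap L' K ⟨y, hy⟩ := rfl
  rw [h1, Algebra.trace_algebraMap, nsmul_eq_mul] at h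
  rcases mul_eq_zero.1 h with h2 | h2
  · exact absurd (Nat.cast_eq_zero.1 h2) Module.finrank_pos.ne'
  · exact congrArg Subtype.val h2

theorem det_mem' {K L : Type} [Field K] [Field L] [Algebra L K] (L' : IntermediateField L K)
    {n : ℕ} (M : Matrix (Fin n) (Fin n) K) (hM : ∀ i j, M i j ∈ L') : M.det ∈ L' := by
  rw [Matrix.det_apply]
  refine sum_mem fun σ _ => ?_
  rw [Units.smul_def]
  exact zsmul_mem (prod_mem fun i _ => hM _ _) _

/-- the form lies in the compositum with the factors -/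
theorem delta_mem {n : ℕ} {K : Type} [Field K] [Algebra ℂ K] [Algebra.EssFiniteType ℂ K]
    (hK : Algebra.trdeg ℂ K = n) (F : Fin n → IntermediateField ℂ K)
    (L : Type) [Field L] [Algebra ℂ L] [Algebra L K] [IsScalarTower ℂ L K]
    [FiniteDimensional L K] (D0 : ∀ i, Derivation ℂ (F i) (F i)) (x : ∀ i, F i)
    {E : Fin n → Derivation ℂ L L} {E' : Fin n → Derivation ℂ K K}
    (hE' : ∀ i f, E' i (algebraMap L K f) = algebraMap L K (E i f))
    (L' : IntermediateField L K) (hL' : ∀ i, ∀ y ∈ F i, y ∈ L') :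
    (∏ i, algebraMap (F i) K (1 / (D0 i (x i)) ^ 1)) *
      (Matrix.det (Matrix.of fun j i => E' j (algebraMap (F i) K (x i)))) ^ 1 ∈ L' := by
  have hessL : Algebra.EssFiniteType ℂ L := Pool.Agent.TH466.QG.ess_below (K := K)
  have hL : Algebra.trdeg ℂ L = n := Pool.Agent.Y184.NT.trdeg_below (K := K) hK
  refine mul_mem (prod_mem fun i _ => hL' i _ (1 / (D0 i (x i)) ^ 1 : F i).2)
    (pow_mem (det_mem' L' _ fun j i => ?_) 1)
  exact Pool.Agent.Helper320.PC.der_mem hL (E j) (E' j) (hE' j) L' (hL' i _ (x i).2)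

section

variable {n : ℕ} {K : Type} [Field K] [Algebra ℂ K] [hess : Algebra.EssFiniteType ℂ K]
  (hK : Algebra.trdeg ℂ K = n) (F : Fin n → IntermediateField ℂ K)
  [hF : ∀ i, IsFF ℂ (F i)] (B : ∀ i, Finset (Place ℂ (F i)))
  (halg : ∀ z : K, IsAlgebraic (⨆ i, F i : IntermediateField ℂ K) z)
  (L : Type) [Field L] [Algebra ℂ L] [Algebra L K] [IsScalarTower ℂ L K]
  [FiniteDimensional L K] (b : Fin n → ℕ) (μ : Fin n → ℕ) (hγ : ∀ i, LGonGe ℂ (F i) (B i) (μ i + 2))
  (BL : Place ℂ L → Prop)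
  (hBL : ∀ (P : Place ℂ L) (Q : Place ℂ K) (e : ℕ), Over Q P e → BdK F B Q → BL P)

include hess hK halg hγ hBL

/-- a section of `K + D` -/
theorem secV
    (hA : ∀ k, ∀ J : Finset (Fin n), J.Nonempty → (∀ i ∈ J, b i = k) →
      dg L F (Finset.univ.filter fun i => b i ≤ k) ≤
        dg L F (Finset.univ.filter fun i => b i ≤ k ∧ i ∉ J) * (∑ i ∈ J, μ i + 1)) :
    ∃ ω : (Fin n → Derivation ℂ L L) → L, LogSec ℂ L n 1 BL ω ∧ ∃ D, ω D ≠ 0 := by
  classical
  by_contra hcon
  have hg : ∀ ω : (Fin n → Derivation ℂ L L) → L, LogSec ℂ L n 1 BL ω → ∀ D, ω D = 0 := by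
    intro ω hω D
    by_contra hne
    exact hcon ⟨ω, hω, D, hne⟩
  have hessL : Algebra.EssFiniteType ℂ L := Pool.Agent.TH466.QG.ess_below (K := K)
  have hL : Algebra.trdeg ℂ L = n := Pool.Agent.Y184.NT.trdeg_below (K := K) hK
  obtain ⟨D0, hD0def⟩ : ∃ D0 : ∀ i, Derivation ℂ (F i) (F i), D0 = fun i => der ℂ (F i) :=
    ⟨_, rfl⟩
  have hD0 : ∀ i, D0 i ≠ 0 := fun i => by rw [hD0def]; exact der_ne
  choose x hx using fun i => IsFF.exists_transcendental (k := ℂ) (K := F i)
  obtain ⟨z, E, hz, hE⟩ := exists_crd (k := ℂ) (K := L) hL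
  choose E' hE' using fun i => exists_lift (k := ℂ) (K := L) (L := K) hL (E i)
  have hδ0 := delta_ne hK F halg L D0 hD0 x hx hz hE hE' rfl
  have hrel := rel_over F B b (Finset.univ.sup b + 1) Finset.univ
    (fun i => ⟨fun _ => Nat.lt_succ_of_le (Finset.le_sup (Finset.mem_univ i)),
      fun _ => Finset.mem_univ i⟩) _ rfl μ hγ
    (fun k _ J hJ hJk => by
      have h1 := relDeg_le_iff (L := L) F b k (∑ i ∈ J, μ i + 1) J hJk 1
        (by rw [one_mul]; exact hA k J hJ hJk)
      rwa [one_mul] at h1) D0 hD0 _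
    (fun c hc => by
      rw [← form_eq F D0 x c E' rfl]
      exact rel_of_genus hK F B L D0 hD0 x hx hz hE hE' BL hBL hg c hc)
    (fun _ => 1) (fun i hi => absurd (Finset.mem_univ i) hi)
  have hcL : CharZero L := charZero_of_injective_algebraMap (algebraMap ℂ L).injective
  simp only [OneMemClass.coe_one, Finset.prod_const_one, one_mul] at hrel
  exact hδ0 (trace_mem _ _ (delta_mem hK F L D0 x hE' _ fun i y hy =>
    IntermediateField.subset_adjoin L _ (Set.mem_iUnion₂.2 ⟨i, Finset.mem_univ i, hy⟩)) hrel)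

/-- the Kodaira dimension -/
theorem kodV (Λ : Finset (Fin n))
    (hA : ∀ k, ∀ J : Finset (Fin n), J.Nonempty → (∀ i ∈ J, b i = k) →
      dg L F (Finset.univ.filter fun i => b i ≤ k) ≤
        dg L F (Finset.univ.filter fun i => b i ≤ k ∧ i ∉ J) * (∑ i ∈ J, μ i + 1))
    (hB : ∀ k, ∀ J : Finset (Fin n), (∃ l ∈ J, l ∈ Λ) → (∀ i ∈ J, b i = k) →
      2 * dg L F (Finset.univ.filter fun i => b i ≤ k) ≤
        dg L F (Finset.univ.filter fun i => b i ≤ k ∧ i ∉ J) * (∑ i ∈ J, μ i + 1))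
    (hC : ∀ k, (∃ l ∈ Λ, k < b l) → ∀ J : Finset (Fin n), J.Nonempty → (∀ i ∈ J, b i = k) →
      2 * dg L F (Finset.univ.filter fun i => b i ≤ k) ≤
        dg L F (Finset.univ.filter fun i => b i ≤ k ∧ i ∉ J) * (∑ i ∈ J, μ i + 2)) :
    KodGe ℂ L n BL Λ.card := by
  classical
  have hessL : Algebra.EssFiniteType ℂ L := Pool.Agent.TH466.QG.ess_below (K := K)
  have hL : Algebra.trdeg ℂ L = n := Pool.Agent.Y184.NT.trdeg_below (K := K) hK
  obtain ⟨D0, hD0def⟩ : ∃ D0 : ∀ i, Derivation ℂ (F i) (F i), D0 = fun i => der ℂ (F i) :=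
    ⟨_, rfl⟩
  have hD0 : ∀ i, D0 i ≠ 0 := fun i => by rw [hD0def]; exact der_ne
  choose x hx using fun i => IsFF.exists_transcendental (k := ℂ) (K := F i)
  obtain ⟨z, E, hz, hE⟩ := exists_crd (k := ℂ) (K := L) hL
  choose E' hE' using fun i => exists_lift (k := ℂ) (K := L) (L := K) hL (E i)
  have hδ0 := delta_ne hK F halg L D0 hD0 x hx hz hE hE' rfl
  rcases dichB hK F B halg L D0 hD0 x hx hz hE hE' BL hBL b (Finset.univ.sup b + 1)
    Finset.univ
    (fun i => ⟨fun _ => Nat.lt_succ_of_le (Finset.le_sup (Finset.mem_univ i)),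
      fun _ => Finset.mem_univ i⟩) _ rfl μ hγ
    (fun k _ J hJ hJk => by
      have h1 := relDeg_le_iff (L := L) F b k (∑ i ∈ J, μ i + 1) J hJk 1
        (by rw [one_mul]; exact hA k J hJ hJk)
      rwa [one_mul] at h1) Λ (Finset.subset_univ _)
    (fun l hl J hJ hJk => relDeg_le_iff (L := L) F b (b l) _ J hJk 2
      (hB (b l) J ⟨l, hJ, hl⟩ hJk))
    (fun l hl k hk J hJ hJk => relDeg_le_iff (L := L) F b k _ J hJk 2
      (hC k ⟨l, hl, hk⟩ J hJ hJk)) with h | h
  · exact h
  exfalso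
  have hrel := h (fun _ => 1) (fun i hi => absurd (Finset.mem_univ i) hi)
  have hcL : CharZero L := charZero_of_injective_algebraMap (algebraMap ℂ L).injective
  rw [form_eq F D0 x _ E' rfl] at hrel
  simp only [OneMemClass.coe_one, Finset.prod_const_one, one_mul] at hrel
  exact hδ0 (trace_mem _ _ (delta_mem hK F L D0 x hE' _ fun i y hy =>
    IntermediateField.subset_adjoin L _ (Set.mem_iUnion₂.2 ⟨i, Finset.mem_univ i, hy⟩)) hrel)

end

end Pool.Agent.Helper320.PCH
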