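import Pool.Agent.Helper320.PCH.Prod

/-!
Images of products of open curves: final statements.
-/

set_option autoImplicit false
set_option linter.overlappingInstances false
set_option linter.unusedSectionVars false
set_option maxHeartbeats 4000000
set_option synthInstance.maxHeartbeats 400000

open FF Pool.Agent.W603.LV
open Pool.Agent.W602.GT
open Pool.Agent.W619.PL (IsA1Uniruled)
open Pool.Agent.Helper320.PCL

namespace Pool.Agent.Helper320.PCH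

section

variable {n : ℕ} (hn : 1 ≤ n) {K : Type} [Field K] [Algebra ℂ K]
  (hK : Algebra.trdeg ℂ K = n) (F : Fin n → IntermediateField ℂ K)
  (hFF : ∀ i, IsFF ℂ (F i)) (B : ∀ i, Finset (Place ℂ (F i))) (hsup : ⨆ i, F i = ⊤)
  (γ : Fin n → ℕ) (hγ : ∀ i, LGonGe ℂ (F i) (B i) (γ i))
  (L : Type) [Field L] [Algebra ℂ L] [Algebra L K] [IsScalarTower ℂ L K]
  [FiniteDimensional L K] (Bd : Place ℂ L → Prop)
  (hBd : ∀ (P : Place ℂ L) (Q : Place ℂ K) (e : ℕ), Over Q P e → (Bd P ↔ BdK F B Q))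
  (b : Fin n → ℕ)
  (hA : ∀ (k : ℕ) (J : Finset (Fin n)), J.Nonempty → (∀ i ∈ J, b i = k) →
    (2 ≤ J.card ∨ ∃ i, k < b i) →
    dg L F (Finset.univ.filter fun i => b i ≤ k) ≤
      dg L F (Finset.univ.filter fun i => b i ≤ k ∧ i ∉ J) * (∑ i ∈ J, (γ i - 2) + 1))

include hn hK hFF hsup hγ hBd hA

theorem fin_prod (Λ : Finset (Fin n))
    (hB : ∀ (k : ℕ) (J : Finset (Fin n)), (∃ l ∈ J, l ∈ Λ) → (∀ i ∈ J, b i = k) →
      2 * dg L F (Finset.univ.filter fun i => b i ≤ k) ≤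
        dg L F (Finset.univ.filter fun i => b i ≤ k ∧ i ∉ J) * (∑ i ∈ J, (γ i - 2) + 1))
    (hC : ∀ k : ℕ, (∃ l ∈ Λ, k < b l) → ∀ J : Finset (Fin n), J.Nonempty →
      (∀ i ∈ J, b i = k) →
      2 * dg L F (Finset.univ.filter fun i => b i ≤ k) ≤
        dg L F (Finset.univ.filter fun i => b i ≤ k ∧ i ∉ J) * (∑ i ∈ J, (γ i - 2) + 2)) :
    IsA1Uniruled ℂ L n Bd ∨ (KodGe ℂ L n Bd Λ.card ∧
      ∃ ω : (Fin n → Derivation ℂ L L) → L, LogSec ℂ L n 1 Bd ω ∧ ∃ D, ω D ≠ 0) := by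
  classical
  obtain ⟨m, rfl⟩ : ∃ m, n = m + 1 := ⟨n - 1, by omega⟩
  by_cases hrat : ∃ i, ∃ t : F i, IntermediateField.adjoin ℂ {t} = ⊤ ∧ ∀ P ∈ B i, 0 < P.ord t
  · obtain ⟨i, t, ht, htB⟩ := hrat
    exact Or.inl (t_RAT hK F hsup B i t ht htB L Bd fun P Q e hQ hP => (hBd P Q e hQ).1 hP)
  have hrat' : ∀ i, ¬ ∃ t : F i, IntermediateField.adjoin ℂ {t} = ⊤ ∧
    ∀ P ∈ B i, 0 < P.ord t := fun i h => hrat ⟨i, h⟩
  refine kodP hK F B hsup L b (fun i => γ i - 2) (fun i t ht htB => ?_) Bd hBd Λ hA hB hC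
  have h1 := lgonGe_max (hrat' i) (hγ i) t ht htB
  have h2 : γ i - 2 + 2 ≤ max (γ i) 2 := by
    rcases le_total (γ i) 2 with h | h
    · rw [max_eq_right h]
      omega
    · rw [max_eq_left h]
      omega
  exact h2.trans h1

theorem fin_prodA :
    [∀ ω : (Fin n → Derivation ℂ L L) → L, LogSec ℂ L n 1 Bd ω → ∀ D, ω D = 0,
      ¬ KodGe ℂ L n Bd 0, ¬ Psef ℂ L n Bd, IsA1Uniruled ℂ L n Bd].TFAE := by
  classical
  have hess : Algebra.EssFiniteType ℂ K := Pool.Agent.Helper320.PC.ess_sup F hsup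
  have hessL : Algebra.EssFiniteType ℂ L := Pool.Agent.TH466.QG.ess_below (K := K)
  have hL : Algebra.trdeg ℂ L = n := Pool.Agent.Y184.NT.trdeg_below (K := K) hK
  tfae_have 1 → 4 := by
    intro hg
    rcases fin_prod hn hK F hFF B hsup γ hγ L Bd hBd b hA ∅
      (fun k J ⟨l, _, hl⟩ => absurd hl (Finset.notMem_empty l))
      (fun k ⟨l, hl, _⟩ => absurd hl (Finset.notMem_empty l)) with h | ⟨-, ω, hω, D, hne⟩
    · exact h
    · exact absurd (hg ω hω D) hne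
  tfae_have 4 → 3 := fun h => t_NPS hL Bd h
  tfae_have 3 → 2 := fun h h' => h (psef_of_kodGe h')
  tfae_have 2 → 1 := by
    intro h ω hω D
    by_contra hne
    exact h (kodGe_zero_of hω hne)
  tfae_finish

theorem fin_prodB (Λ : Finset (Fin n))
    (hB : ∀ (k : ℕ) (J : Finset (Fin n)), (∃ l ∈ J, l ∈ Λ) → (∀ i ∈ J, b i = k) →
      2 * dg L F (Finset.univ.filter fun i => b i ≤ k) ≤
        dg L F (Finset.univ.filter fun i => b i ≤ k ∧ i ∉ J) * (∑ i ∈ J, (γ i - 2) + 1))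
    (hC : ∀ k : ℕ, (∃ l ∈ Λ, k < b l) → ∀ J : Finset (Fin n), J.Nonempty →
      (∀ i ∈ J, b i = k) →
      2 * dg L F (Finset.univ.filter fun i => b i ≤ k) ≤
        dg L F (Finset.univ.filter fun i => b i ≤ k ∧ i ∉ J) * (∑ i ∈ J, (γ i - 2) + 2)) :
    (IsA1Uniruled ℂ L n Bd ∧ ¬ Psef ℂ L n Bd) ∨ KodGe ℂ L n Bd Λ.card := by
  have hess : Algebra.EssFiniteType ℂ K := Pool.Agent.Helper320.PC.ess_sup F hsup
  have hessL : Algebra.EssFiniteType ℂ L := Pool.Agent.TH466.QG.ess_below (K := K)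
  have hL : Algebra.trdeg ℂ L = n := Pool.Agent.Y184.NT.trdeg_below (K := K) hK
  exact (fin_prod hn hK F hFF B hsup γ hγ L Bd hBd b hA Λ hB hC).imp
    (fun h => ⟨h, t_NPS hL Bd h⟩) (fun h => h.1)

end

end Pool.Agent.Helper320.PCH
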