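import Pool.Agent.Helper320.PCL.Corej
import Mathlib.Combinatorics.Hall.Basic

/-!
Correspondences with curves: the choice of the points, by the marriage theorem.
-/

set_option autoImplicit false
set_option linter.overlappingInstances false
set_option linter.unusedSectionVars false
set_option maxHeartbeats 4000000
set_option synthInstance.maxHeartbeats 400000

open FF Pool.Agent.W603.LV

namespace Pool.Agent.Helper320.PCH

/-- the marriage theorem, with capacities -/
theorem hall_cap {ι κ : Type} [Fintype ι] [DecidableEq ι] [DecidableEq κ] (r : ι → Finset κ)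
    (μ : κ → ℕ) (h : ∀ A : Finset ι, A.card ≤ ∑ i ∈ A.biUnion r, μ i) :
    ∃ f : ι → κ, (∀ σ, f σ ∈ r σ) ∧ ∀ i, (Finset.univ.filter fun σ => f σ = i).card ≤ μ i := by
  classical
  obtain ⟨g, hg, hgr⟩ := (Finset.all_card_le_biUnion_card_iff_exists_injective
    (fun σ => (r σ).sigma fun i => Finset.range (μ i))).1 (by
      intro A
      have h1 : A.biUnion (fun σ => (r σ).sigma fun i => Finset.range (μ i)) =
          (A.biUnion r).sigma fun i => Finset.range (μ i) := by
        ext ⟨i, m⟩
        simp only [Finset.mem_biUnion, Finset.mem_sigma, Finset.mem_range]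
        constructor
        · rintro ⟨σ, h1, h2, h3⟩
          exact ⟨⟨σ, h1, h2⟩, h3⟩
        · rintro ⟨⟨σ, h1, h2⟩, h3⟩
          exact ⟨σ, h1, h2, h3⟩
      rw [h1, Finset.card_sigma]
      simpa using h A)
  refine ⟨fun σ => (g σ).1, fun σ => (Finset.mem_sigma.1 (hgr σ)).1, fun i => ?_⟩
  have h2 : ((Finset.univ.filter fun σ => (g σ).1 = i).image g) ⊆
      ({i} : Finset κ).sigma fun i => Finset.range (μ i) := by
    intro y hy
    rw [Finset.mem_image] at hy
    obtain ⟨σ, hσ, rfl⟩ := hy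
    rw [Finset.mem_filter] at hσ
    rw [Finset.mem_sigma, Finset.mem_singleton]
    exact ⟨hσ.2, (Finset.mem_sigma.1 (hgr σ)).2⟩
  have h3 := Finset.card_le_card h2
  rw [Finset.card_image_of_injective _ hg, Finset.card_sigma, Finset.sum_singleton,
    Finset.card_range] at h3
  exact h3

open scoped Classical in
/-- the choice of the points -/
theorem exists_T {ι : Type} [Fintype ι] {n : ℕ} {X : Fin n → Type}
    (p : ∀ i, ι → X i) (σ0 : ι) (I : Finset (Fin n)) (μ : Fin n → ℕ)
    (hI : ∀ i ∈ I, ((Finset.univ.filter fun σ => ∀ j ∈ I, j < i → p j σ = p j σ0).image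
      (p i)).card ≤ μ i + 1)
    (hJ : ∀ J : Finset (Fin n), Disjoint J I →
      (Finset.univ.filter fun σ => ∀ i, i ∉ J → p i σ = p i σ0).card ≤ ∑ i ∈ J, μ i + 1) :
    ∃ T : ∀ i, Finset (X i), (∀ i, p i σ0 ∉ T i) ∧ (∀ i, (T i).card ≤ μ i) ∧
      ∀ σ, σ ≠ σ0 → ∃ i, p i σ ∈ T i := by
  classical
  let S : Finset ι := Finset.univ.filter fun σ => σ ≠ σ0 ∧ ∀ i ∈ I, p i σ = p i σ0
  have hS : ∀ σ, σ ∈ S ↔ (σ ≠ σ0 ∧ ∀ i ∈ I, p i σ = p i σ0) := fun σ => by simp [S]
  obtain ⟨f, hf1, hf2⟩ := hall_cap (ι := S)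
    (fun σ => Finset.univ.filter fun i => i ∉ I ∧ p i σ.1 ≠ p i σ0) μ (by
      intro A
      obtain ⟨J, hJdef⟩ : ∃ J, J = A.biUnion
        fun σ : S => Finset.univ.filter fun i => i ∉ I ∧ p i σ.1 ≠ p i σ0 := ⟨_, rfl⟩
      rw [← hJdef]
      have hmemJ : ∀ i, i ∈ J ↔ ∃ σ ∈ A, i ∉ I ∧ p i σ.1 ≠ p i σ0 := by
        intro i
        rw [hJdef]
        simp
      have h1 : Disjoint J I := by
        rw [Finset.disjoint_left]
        intro i hi
        obtain ⟨σ, -, h, -⟩ := (hmemJ i).1 hi
        exact h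
      have h2 := hJ J h1
      have h3 : A.map (Function.Embedding.subtype _) ⊆
          (Finset.univ.filter fun σ => ∀ i, i ∉ J → p i σ = p i σ0).erase σ0 := by
        intro σ hσ
        rw [Finset.mem_map] at hσ
        obtain ⟨τ, hτ, rfl⟩ := hσ
        have h4 := (hS τ.1).1 τ.2
        rw [Finset.mem_erase, Finset.mem_filter]
        refine ⟨h4.1, Finset.mem_univ _, fun i hi => ?_⟩
        by_contra hne
        by_cases hiI : i ∈ I
        · exact hne (h4.2 i hiI)
        · exact hi ((hmemJ i).2 ⟨τ, hτ, hiI, hne⟩)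
      have h5 := Finset.card_le_card h3
      rw [Finset.card_map, Finset.card_erase_of_mem (by simp)] at h5
      omega)
  refine ⟨fun i => if i ∈ I then
    ((Finset.univ.filter fun σ => ∀ j ∈ I, j < i → p j σ = p j σ0).image (p i)).erase (p i σ0)
    else (Finset.univ.filter fun σ : S => f σ = i).image fun σ => p i σ.1, ?_, ?_, ?_⟩
  · intro i
    by_cases hi : i ∈ I
    · simp only [hi, if_true]
      exact Finset.notMem_erase _ _
    · simp only [hi, if_false]
      intro h
      rw [Finset.mem_image] at h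
      obtain ⟨σ, h1, h2⟩ := h
      rw [Finset.mem_filter] at h1
      have h3 := hf1 σ
      rw [h1.2, Finset.mem_filter] at h3
      exact h3.2.2 h2
  · intro i
    by_cases hi : i ∈ I
    · simp only [hi, if_true]
      rw [Finset.card_erase_of_mem (Finset.mem_image_of_mem _ (by simp))]
      have := hI i hi
      omega
    · simp only [hi, if_false]
      exact Finset.card_image_le.trans (hf2 i)
  · intro σ hσ
    by_cases hall : ∀ i ∈ I, p i σ = p i σ0
    · have hσS : σ ∈ S := (hS σ).2 ⟨hσ, hall⟩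
      refine ⟨f ⟨σ, hσS⟩, ?_⟩
      have h3 := hf1 ⟨σ, hσS⟩
      rw [Finset.mem_filter] at h3
      simp only [h3.2.1, if_false]
      exact Finset.mem_image.2 ⟨⟨σ, hσS⟩, by simp, rfl⟩
    · have hne : (I.filter fun i => p i σ ≠ p i σ0).Nonempty := by
        push Not at hall
        obtain ⟨i, hi, h⟩ := hall
        exact ⟨i, Finset.mem_filter.2 ⟨hi, h⟩⟩
      obtain ⟨i, hi, hmin⟩ := Finset.exists_min_image _ (fun i => i) hne
      rw [Finset.mem_filter] at hi
      refine ⟨i, ?_⟩
      simp only [hi.1, if_true]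
      refine Finset.mem_erase.2 ⟨hi.2, Finset.mem_image_of_mem _ ?_⟩
      rw [Finset.mem_filter]
      refine ⟨Finset.mem_univ _, fun j hj hji => ?_⟩
      by_contra h
      exact absurd (hmin j (Finset.mem_filter.2 ⟨hj, h⟩)) (not_le.2 hji)

open Pool.Agent.Helper320.PCL.COREJL

/-- the choice of the points for the embeddings -/
theorem core_T {K L : Type} [Field K] [Field L] [Algebra ℂ K] [Algebra ℂ L]
    [Algebra L K] [IsScalarTower ℂ L K] [FiniteDimensional L K] {n : ℕ}
    (F : Fin n → IntermediateField ℂ K)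
    (hgen : IntermediateField.adjoin L (⋃ i, (F i : Set K)) = ⊤)
    (I : Finset (Fin n)) (μ : Fin n → ℕ)
    (hI : ∀ i ∈ I, Module.finrank
      (IntermediateField.adjoin L (⋃ j ∈ I.filter (· < i), (F j : Set K)))
      (IntermediateField.adjoin
        (IntermediateField.adjoin L (⋃ j ∈ I.filter (· < i), (F j : Set K)))
        (F i : Set K)) ≤ μ i + 1)
    (hJ : ∀ J : Finset (Fin n), J.Nonempty → Disjoint J I → Module.finrank
      (IntermediateField.adjoin L (⋃ i ∈ Jᶜ, (F i : Set K))) K ≤ ∑ i ∈ J, μ i + 1) :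
    ∃ T : ∀ i, Finset (F i →ₐ[ℂ] AlgebraicClosure K), (∀ i, pr F i (s0 K L) ∉ T i) ∧
      (∀ i, (T i).card ≤ μ i) ∧ ∀ σ, σ ≠ s0 K L → ∃ i, pr F i σ ∈ T i := by
  classical
  have : CharZero L := charZero_of_injective_algebraMap (algebraMap ℂ L).injective
  refine exists_T (fun i => pr (L := L) F i) (s0 K L) I μ ?_ ?_
  · intro i hi
    refine le_trans ?_ (hI i hi)
    obtain ⟨L', hL'⟩ : ∃ L', L' =
      IntermediateField.adjoin L (⋃ j ∈ I.filter (· < i), (F j : Set K)) := ⟨_, rfl⟩
    rw [← hL']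
    have hT : IsScalarTower ℂ L' K := IsScalarTower.of_algebraMap_eq fun c => by
      rw [IsScalarTower.algebraMap_apply ℂ L K, IsScalarTower.algebraMap_apply ℂ L L',
        ← IsScalarTower.algebraMap_apply L L' K]
    refine le_trans (Finset.card_le_card ?_) (card_le (L := L') F i)
    intro y hy
    rw [Finset.mem_image] at hy ⊢
    obtain ⟨σ, hσ, rfl⟩ := hy
    rw [Finset.mem_filter] at hσ
    obtain ⟨τ, rfl⟩ := mem_range F (I.filter (· < i)) L' hL' σ (fun j hj => by
      rw [Finset.mem_filter] at hj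
      exact hσ.2 j hj.1 hj.2)
    exact ⟨τ, Finset.mem_univ _, rfl⟩
  · intro J hJI
    obtain ⟨L', hL'⟩ : ∃ L', L' =
      IntermediateField.adjoin L (⋃ i ∈ Jᶜ, (F i : Set K)) := ⟨_, rfl⟩
    have : CharZero L' := charZero_of_injective_algebraMap (algebraMap L L').injective
    refine (Finset.card_le_card (t := Finset.univ.image
      (fun τ : K →ₐ[L'] AlgebraicClosure K => (τ.restrictScalars L : K →ₐ[L] _)))
      fun σ hσ => ?_).trans (Finset.card_image_le.trans ?_)
    · rw [Finset.mem_filter] at hσ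
      obtain ⟨τ, rfl⟩ := mem_range F Jᶜ L' hL' σ
        (fun j hj => hσ.2 j (Finset.mem_compl.1 hj))
      exact Finset.mem_image_of_mem _ (Finset.mem_univ _)
    rw [Finset.card_univ, AlgHom.card L' K (AlgebraicClosure K)]
    rcases Finset.eq_empty_or_nonempty J with rfl | hJ0
    · have h3 : L' = ⊤ := by
        rw [hL', ← hgen]
        congr 1
        ext z
        simp
      rw [h3, IntermediateField.finrank_top]
      simp
    · rw [hL']
      exact hJ J hJ0 hJI

end Pool.Agent.Helper320.PCH
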