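import Pool.Agent.Helper320.PCH.Hall

/-!
Correspondences with curves: the choice of the points with multiplicities, by the marriage theorem.
-/

set_option autoImplicit false
set_option linter.overlappingInstances false
set_option linter.unusedSectionVars false
set_option maxHeartbeats 4000000
set_option synthInstance.maxHeartbeats 400000

open FF Pool.Agent.W603.LV

namespace Pool.Agent.Helper320.PCH

open scoped Classical in
/-- the choice of the points, with multiplicities -/
theorem exists_T2 {ι : Type} [Fintype ι] {n : ℕ} {X : Fin n → Type}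
    (p : ∀ i, ι → X i) (σ0 : ι) (I : Finset (Fin n)) (c : Fin n → ℕ)
    (hI : ∀ i ∈ I, 2 * ((Finset.univ.filter fun σ => ∀ j ∈ I, j < i → p j σ = p j σ0).image
      (p i)).card ≤ c i + 2)
    (hJ : ∀ J : Finset (Fin n), Disjoint J I →
      2 * (Finset.univ.filter fun σ => ∀ i, i ∉ J → p i σ = p i σ0).card ≤ ∑ i ∈ J, c i + 2) :
    ∃ T T2 : ∀ i, Finset (X i), (∀ i, T2 i ⊆ T i) ∧ (∀ i, p i σ0 ∉ T i) ∧
      (∀ i, (T i).card + (T2 i).card ≤ c i) ∧
      ∀ σ, σ ≠ σ0 → (∃ i, p i σ ∈ T2 i) ∨ ∃ i j, i ≠ j ∧ p i σ ∈ T i ∧ p j σ ∈ T j := by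
  let S : Finset ι := Finset.univ.filter fun σ => σ ≠ σ0 ∧ ∀ i ∈ I, p i σ = p i σ0
  have hS : ∀ σ, σ ∈ S ↔ (σ ≠ σ0 ∧ ∀ i ∈ I, p i σ = p i σ0) := fun σ => by simp [S]
  obtain ⟨f, hf1, hf2⟩ := hall_cap (ι := S × Bool)
    (fun σ => Finset.univ.filter fun i => i ∉ I ∧ p i σ.1.1 ≠ p i σ0) c (by
      intro A
      obtain ⟨J, hJdef⟩ : ∃ J, J = A.biUnion
        fun σ : S × Bool => Finset.univ.filter fun i => i ∉ I ∧ p i σ.1.1 ≠ p i σ0 := ⟨_, rfl⟩
      rw [← hJdef]
      have hmemJ : ∀ i, i ∈ J ↔ ∃ σ ∈ A, i ∉ I ∧ p i σ.1.1 ≠ p i σ0 := by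
        intro i
        rw [hJdef]
        simp
      have h1 : Disjoint J I := by
        rw [Finset.disjoint_left]
        intro i hi
        obtain ⟨σ, -, h, -⟩ := (hmemJ i).1 hi
        exact h
      have h2 := hJ J h1
      have h3 : A ⊆ ((Finset.univ.filter fun σ : S => ∀ i, i ∉ J → p i σ.1 = p i σ0) ×ˢ
          (Finset.univ : Finset Bool)) := by
        intro σ hσ
        have h4 := (hS σ.1.1).1 σ.1.2
        rw [Finset.mem_product, Finset.mem_filter]
        refine ⟨⟨Finset.mem_univ _, fun i hi => ?_⟩, Finset.mem_univ _⟩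
        by_contra hne
        by_cases hiI : i ∈ I
        · exact hne (h4.2 i hiI)
        · exact hi ((hmemJ i).2 ⟨σ, hσ, hiI, hne⟩)
      have h5 := Finset.card_le_card h3
      rw [Finset.card_product, Finset.card_univ, Fintype.card_bool] at h5
      have h6 : (Finset.univ.filter fun σ : S => ∀ i, i ∉ J → p i σ.1 = p i σ0).map
          (Function.Embedding.subtype _) ⊆
          (Finset.univ.filter fun σ => ∀ i, i ∉ J → p i σ = p i σ0).erase σ0 := by
        intro σ hσ
        rw [Finset.mem_map] at hσ
        obtain ⟨τ, hτ, rfl⟩ := hσ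
        rw [Finset.mem_filter] at hτ
        rw [Finset.mem_erase, Finset.mem_filter]
        exact ⟨((hS τ.1).1 τ.2).1, Finset.mem_univ _, hτ.2⟩
      have h7 := Finset.card_le_card h6
      rw [Finset.card_map, Finset.card_erase_of_mem (by simp)] at h7
      omega)
  refine ⟨fun i => if i ∈ I then
    ((Finset.univ.filter fun σ => ∀ j ∈ I, j < i → p j σ = p j σ0).image (p i)).erase (p i σ0)
    else (Finset.univ.filter fun σ : S => f (σ, true) = i ∨ f (σ, false) = i).image
      fun σ => p i σ.1, fun i => if i ∈ I then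
    ((Finset.univ.filter fun σ => ∀ j ∈ I, j < i → p j σ = p j σ0).image (p i)).erase (p i σ0)
    else (Finset.univ.filter fun σ : S => f (σ, true) = i ∧ f (σ, false) = i).image
      fun σ => p i σ.1, ?_, ?_, ?_, ?_⟩
  · intro i
    by_cases hi : i ∈ I
    · simp only [hi, if_true]
      exact Finset.Subset.refl _
    · simp only [hi, if_false]
      refine Finset.image_subset_image fun σ hσ => ?_
      rw [Finset.mem_filter] at hσ ⊢
      exact ⟨hσ.1, Or.inl hσ.2.1⟩
  · intro i
    by_cases hi : i ∈ I
    · simp only [hi, if_true]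
      exact Finset.notMem_erase _ _
    · simp only [hi, if_false]
      intro h
      rw [Finset.mem_image] at h
      obtain ⟨σ, h1, h2⟩ := h
      rw [Finset.mem_filter] at h1
      rcases h1.2 with h1 | h1
      · have h3 := hf1 (σ, true)
        rw [h1, Finset.mem_filter] at h3
        exact h3.2.2 h2
      · have h3 := hf1 (σ, false)
        rw [h1, Finset.mem_filter] at h3
        exact h3.2.2 h2
  · intro i
    by_cases hi : i ∈ I
    · simp only [hi, if_true]
      rw [Finset.card_erase_of_mem (Finset.mem_image_of_mem _ (by simp))]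
      have := hI i hi
      omega
    · simp only [hi, if_false]
      have h1 : (Finset.univ.filter fun σ : S => f (σ, true) = i ∨ f (σ, false) = i).card +
          (Finset.univ.filter fun σ : S => f (σ, true) = i ∧ f (σ, false) = i).card =
          (Finset.univ.filter fun σ : S => f (σ, true) = i).card +
          (Finset.univ.filter fun σ : S => f (σ, false) = i).card := by
        rw [Finset.filter_or, Finset.filter_and, Finset.card_union_add_card_inter]
      have h2 : (Finset.univ.filter fun σ : S => f (σ, true) = i).card +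
          (Finset.univ.filter fun σ : S => f (σ, false) = i).card =
          (Finset.univ.filter fun σ : S × Bool => f σ = i).card := by
        have h3 : (Finset.univ.filter fun σ : S × Bool => f σ = i) =
            ((Finset.univ.filter fun σ : S => f (σ, true) = i).image fun σ => (σ, true)) ∪
            ((Finset.univ.filter fun σ : S => f (σ, false) = i).image fun σ => (σ, false)) := by
          ext ⟨σ, b⟩
          simp only [Finset.mem_filter, Finset.mem_univ, true_and, Finset.mem_union,
            Finset.mem_image, Prod.mk.injEq]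
          cases b
          · constructor
            · intro h
              exact Or.inr ⟨σ, h, rfl, rfl⟩
            · rintro (⟨a, h, rfl, h'⟩ | ⟨a, h, rfl, -⟩)
              · exact absurd h' (by simp)
              · exact h
          · constructor
            · intro h
              exact Or.inl ⟨σ, h, rfl, rfl⟩
            · rintro (⟨a, h, rfl, -⟩ | ⟨a, h, rfl, h'⟩)
              · exact h
              · exact absurd h' (by simp)
        rw [h3, Finset.card_union_of_disjoint, Finset.card_image_of_injective _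
          (fun a b h => (Prod.ext_iff.1 h).1), Finset.card_image_of_injective _
          (fun a b h => (Prod.ext_iff.1 h).1)]
        rw [Finset.disjoint_left]
        intro x hx hy
        rw [Finset.mem_image] at hx hy
        obtain ⟨a, -, ha⟩ := hx
        obtain ⟨b, -, hb⟩ := hy
        rw [← hb] at ha
        have := (Prod.ext_iff.1 ha).2
        simp at this
      have h4 := hf2 i
      have h5 : ((Finset.univ.filter fun σ : S => f (σ, true) = i ∨ f (σ, false) = i).image
        fun σ => p i σ.1).card ≤ _ := Finset.card_image_le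
      have h6 : ((Finset.univ.filter fun σ : S => f (σ, true) = i ∧ f (σ, false) = i).image
        fun σ => p i σ.1).card ≤ _ := Finset.card_image_le
      omega
  · intro σ hσ
    by_cases hall : ∀ i ∈ I, p i σ = p i σ0
    · have hσS : σ ∈ S := (hS σ).2 ⟨hσ, hall⟩
      have h3 := hf1 (⟨σ, hσS⟩, true)
      have h4 := hf1 (⟨σ, hσS⟩, false)
      rw [Finset.mem_filter] at h3 h4
      by_cases heq : f (⟨σ, hσS⟩, true) = f (⟨σ, hσS⟩, false)
      · left
        refine ⟨f (⟨σ, hσS⟩, true), ?_⟩
        simp only [h3.2.1, if_false]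
        exact Finset.mem_image.2 ⟨⟨σ, hσS⟩,
          Finset.mem_filter.2 ⟨Finset.mem_univ _, rfl, heq.symm⟩, rfl⟩
      · right
        refine ⟨_, _, heq, ?_, ?_⟩
        · simp only [h3.2.1, if_false]
          exact Finset.mem_image.2 ⟨⟨σ, hσS⟩,
            Finset.mem_filter.2 ⟨Finset.mem_univ _, Or.inl rfl⟩, rfl⟩
        · simp only [h4.2.1, if_false]
          exact Finset.mem_image.2 ⟨⟨σ, hσS⟩,
            Finset.mem_filter.2 ⟨Finset.mem_univ _, Or.inr rfl⟩, rfl⟩
    · left
      have hne : (I.filter fun i => p i σ ≠ p i σ0).Nonempty := by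
        push Not at hall
        obtain ⟨i, hi, h⟩ := hall
        exact ⟨i, Finset.mem_filter.2 ⟨hi, h⟩⟩
      obtain ⟨i, hi, hmin⟩ := Finset.exists_min_image _ (fun i => i) hne
      rw [Finset.mem_filter] at hi
      refine ⟨i, ?_⟩
      simp only [hi.1, if_true]
      refine Finset.mem_erase.2 ⟨hi.2, Finset.mem_image_of_mem _ ?_⟩
      rw [Finset.mem_filter]
      refine ⟨Finset.mem_univ _, fun j hj hji => ?_⟩
      by_contra h
      exact absurd (hmin j (Finset.mem_filter.2 ⟨hj, h⟩)) (not_le.2 hji)

open Pool.Agent.Helper320.PCL.COREJL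

section

variable {K L : Type} [Field K] [Field L] [Algebra ℂ K] [Algebra ℂ L]
  [Algebra L K] [IsScalarTower ℂ L K] [FiniteDimensional L K] {n : ℕ}
  (F : Fin n → IntermediateField ℂ K)

open scoped Classical in
/-- the number of the points of a factor -/
theorem card_step (I : Finset (Fin n)) (i : Fin n) :
    ((Finset.univ.filter fun σ : K →ₐ[L] AlgebraicClosure K =>
      ∀ j ∈ I, j < i → pr F j σ = pr F j (s0 K L)).image (pr F i)).card ≤
    Module.finrank (IntermediateField.adjoin L (⋃ j ∈ I.filter (· < i), (F j : Set K)))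
      (IntermediateField.adjoin
        (IntermediateField.adjoin L (⋃ j ∈ I.filter (· < i), (F j : Set K)))
        (F i : Set K)) := by
  have : CharZero L := charZero_of_injective_algebraMap (algebraMap ℂ L).injective
  obtain ⟨L', hL'⟩ : ∃ L', L' =
    IntermediateField.adjoin L (⋃ j ∈ I.filter (· < i), (F j : Set K)) := ⟨_, rfl⟩
  rw [← hL']
  have hT : IsScalarTower ℂ L' K := IsScalarTower.of_algebraMap_eq fun c => by
    rw [IsScalarTower.algebraMap_apply ℂ L K, IsScalarTower.algebraMap_apply ℂ L L',
      ← IsScalarTower.algebraMap_apply L L' K]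
  refine le_trans (Finset.card_le_card ?_) (card_le (L := L') F i)
  intro y hy
  rw [Finset.mem_image] at hy ⊢
  obtain ⟨σ, hσ, rfl⟩ := hy
  rw [Finset.mem_filter] at hσ
  obtain ⟨τ, rfl⟩ := mem_range F (I.filter (· < i)) L' hL' σ (fun j hj => by
    rw [Finset.mem_filter] at hj
    exact hσ.2 j hj.1 hj.2)
  exact ⟨τ, Finset.mem_univ _, rfl⟩

open scoped Classical in
/-- the number of the embeddings which agree with the inclusion -/
theorem card_rest (J : Finset (Fin n)) :
    (Finset.univ.filter fun σ : K →ₐ[L] AlgebraicClosure K =>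
      ∀ i, i ∉ J → pr F i σ = pr F i (s0 K L)).card ≤
    Module.finrank (IntermediateField.adjoin L (⋃ i ∈ Jᶜ, (F i : Set K))) K := by
  have : CharZero L := charZero_of_injective_algebraMap (algebraMap ℂ L).injective
  obtain ⟨L', hL'⟩ : ∃ L', L' =
    IntermediateField.adjoin L (⋃ i ∈ Jᶜ, (F i : Set K)) := ⟨_, rfl⟩
  have : CharZero L' := charZero_of_injective_algebraMap (algebraMap L L').injective
  refine (Finset.card_le_card (t := Finset.univ.image
    (fun τ : K →ₐ[L'] AlgebraicClosure K => (τ.restrictScalars L : K →ₐ[L] _)))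
    fun σ hσ => ?_).trans (Finset.card_image_le.trans ?_)
  · rw [Finset.mem_filter] at hσ
    obtain ⟨τ, rfl⟩ := mem_range F Jᶜ L' hL' σ
      (fun j hj => hσ.2 j (Finset.mem_compl.1 hj))
    exact Finset.mem_image_of_mem _ (Finset.mem_univ _)
  rw [Finset.card_univ, AlgHom.card L' K (AlgebraicClosure K), hL']

/-- the degree over the compositum of all factors is `1` -/
theorem finrank_rest_empty (hgen : IntermediateField.adjoin L (⋃ i, (F i : Set K)) = ⊤) :
    Module.finrank (IntermediateField.adjoin L (⋃ i ∈ (∅ : Finset (Fin n))ᶜ, (F i : Set K))) K =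
      1 := by
  have h3 : IntermediateField.adjoin L (⋃ i ∈ (∅ : Finset (Fin n))ᶜ, (F i : Set K)) = ⊤ := by
    rw [← hgen]
    congr 1
    ext z
    simp
  rw [h3, IntermediateField.finrank_top]

end

/-- the choice of the points for the embeddings, with multiplicities -/
theorem core_T2 {K L : Type} [Field K] [Field L] [Algebra ℂ K] [Algebra ℂ L]
    [Algebra L K] [IsScalarTower ℂ L K] [FiniteDimensional L K] {n : ℕ}
    (F : Fin n → IntermediateField ℂ K)
    (hgen : IntermediateField.adjoin L (⋃ i, (F i : Set K)) = ⊤)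
    (I : Finset (Fin n)) (c : Fin n → ℕ)
    (hI : ∀ i ∈ I, 2 * Module.finrank
      (IntermediateField.adjoin L (⋃ j ∈ I.filter (· < i), (F j : Set K)))
      (IntermediateField.adjoin
        (IntermediateField.adjoin L (⋃ j ∈ I.filter (· < i), (F j : Set K)))
        (F i : Set K)) ≤ c i + 2)
    (hJ : ∀ J : Finset (Fin n), J.Nonempty → Disjoint J I → 2 * Module.finrank
      (IntermediateField.adjoin L (⋃ i ∈ Jᶜ, (F i : Set K))) K ≤ ∑ i ∈ J, c i + 2) :
    ∃ T T2 : ∀ i, Finset (F i →ₐ[ℂ] AlgebraicClosure K), (∀ i, T2 i ⊆ T i) ∧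
      (∀ i, pr F i (s0 K L) ∉ T i) ∧ (∀ i, (T i).card + (T2 i).card ≤ c i) ∧
      ∀ σ, σ ≠ s0 K L → (∃ i, pr F i σ ∈ T2 i) ∨
        ∃ i j, i ≠ j ∧ pr F i σ ∈ T i ∧ pr F j σ ∈ T j := by
  classical
  refine exists_T2 (fun i => pr (L := L) F i) (s0 K L) I c ?_ ?_
  · intro i hi
    exact (Nat.mul_le_mul_left 2 (card_step F I i)).trans (hI i hi)
  · intro J hJI
    refine (Nat.mul_le_mul_left 2 (card_rest F J)).trans ?_
    rcases Finset.eq_empty_or_nonempty J with rfl | hJ0
    · rw [finrank_rest_empty F hgen]
      simp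
    · exact hJ J hJ0 hJI

end Pool.Agent.Helper320.PCH
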