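import Pool.Agent.Helper320.PCH.DichB
import Pool.Agent.W619.Y.Parts

/-!
Correspondences with products of a variety and curves: the forms.
-/

set_option autoImplicit false
set_option linter.overlappingInstances false
set_option linter.unusedSectionVars false
set_option maxHeartbeats 4000000
set_option synthInstance.maxHeartbeats 400000

open FF Pool.Agent.W603.LV
open Pool.Agent.W602.GT (IsPluri Divisorial RegAt LogAt DerReg DerLog)
open Pool.Agent.W619.Y (YGood)
open Pool.Agent.Helper320.PCL

namespace Pool.Agent.Helper320.PCH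

/-- the determinant of the derivatives of the functions `g` -/
noncomputable def dform {ι : Type} [Fintype ι] [DecidableEq ι] {n : ℕ} {K : Type} [Field K]
    [Algebra ℂ K] (e : ι ≃ Fin n) (g : ι → K) (D : Fin n → Derivation ℂ K K) : K :=
  (Matrix.of fun i j => D (e i) (g j) : Matrix ι ι K).det

section

variable {ι : Type} [Fintype ι] [DecidableEq ι] {n : ℕ} {K : Type} [Field K] [Algebra ℂ K]
  (e : ι ≃ Fin n)

theorem sum_smul_app (A : Fin n → K) (D : Fin n → Derivation ℂ K K) (z : K) :
    (∑ j, A j • D j) z = ∑ j, A j * D j z := by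
  rw [← Derivation.coeFnAddMonoidHom_apply, map_sum, Finset.sum_apply]
  rfl

theorem dform_pluri (g : ι → K) (a : K) : IsPluri 1 (fun D => a * dform e g D) := by
  intro A D
  have h1 : (Matrix.of fun i j => (∑ l, A (e i) l • D l) (g j) : Matrix ι ι K) =
      (A.submatrix e e) * (Matrix.of fun i j => D (e i) (g j)) := by
    ext i j
    rw [Matrix.of_apply, Matrix.mul_apply, sum_smul_app, ← e.sum_comp]
    rfl
  simp only [dform]
  rw [h1, Matrix.det_mul, Matrix.det_submatrix_equiv_self]
  ring

/-- change of the functions -/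
theorem dform_change (g g' : ι → K) (P : Matrix ι ι K) (s : ι → K) (hs : ∀ i, s i ≠ 0)
    (D : Fin n → Derivation ℂ K K) (h : ∀ a j, D a (g j) = ∑ l, P j l * D a (g' l)) :
    dform e g D = (∏ i, s i) * P.det * (Matrix.of fun i j => D (e i) (g' j) / s j :
      Matrix ι ι K).det := by
  have h1 : (Matrix.of fun i j => D (e i) (g j) : Matrix ι ι K) =
      (Matrix.of fun i j => D (e i) (g' j) / s j : Matrix ι ι K) *
        (Matrix.diagonal s * P.transpose) := by
    ext i j
    rw [Matrix.of_apply, Matrix.mul_apply, h]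
    refine Finset.sum_congr rfl fun l _ => ?_
    rw [Matrix.diagonal_mul, Matrix.transpose_apply, Matrix.of_apply]
    have := hs l
    field_simp
  rw [dform, h1, Matrix.det_mul, Matrix.det_mul, Matrix.det_diagonal, Matrix.det_transpose]
  ring

end

section

variable {K : Type} [Field K] [Algebra ℂ K] {d r n : ℕ} (e : Fin d ⊕ Fin r ≃ Fin n)
  (F : Fin r → IntermediateField ℂ K) [∀ i, IsFF ℂ (F i)] (B : ∀ i, Finset (Place ℂ (F i)))
  (D0 : ∀ i, Derivation ℂ (F i) (F i)) (hD0 : ∀ i, D0 i ≠ 0) (x : ∀ i, F i)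
  (hx : ∀ i, Transcendental ℂ (x i))

/-- the exterior product of a form on a variety and of differentials on curves -/
noncomputable def mform (y : Fin d → K) (a : K) (c : ∀ i, F i)
    (D : Fin n → Derivation ℂ K K) : K :=
  (a * ∏ i, ((c i / D0 i (x i) : F i) : K)) *
    dform e (Sum.elim y fun i => (x i : K)) D

theorem mform_pluri (y : Fin d → K) (a : K) (c : ∀ i, F i) :
    IsPluri 1 (mform e F D0 x y a c) :=
  dform_pluri e _ _

include hD0 hx in
/-- the value of the exterior product -/
theorem mform_eq (y : Fin d → K) (a : K) (c : ∀ i, F i) (t : ∀ i, F i)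
    (ht : ∀ i, Transcendental ℂ (t i)) (s : Fin r → K) (hs : ∀ i, s i ≠ 0)
    (Z : Matrix (Fin d) (Fin d) K) (z : Fin d → K)
    (hZ : ∀ (D : Derivation ℂ K K) l, D (y l) = ∑ c, Z l c * D (z c))
    (D : Fin n → Derivation ℂ K K) :
    mform e F D0 x y a c D = (a * Z.det ^ 1) * (∏ i, ((c i / D0 i (t i) : F i) : K) * s i) *
      (Matrix.of fun (i : Fin d ⊕ Fin r) (j : Fin d ⊕ Fin r) =>
        D (e i) (Sum.elim z (fun i => (t i : K)) j) / Sum.elim (fun _ => 1) s j).det := by
  classical
  choose ρ hρ1 hρ2 using fun i => Pool.Agent.W619.PQ.ratio' (K := K) (ht i) (x i)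
  have hρ0 : ∀ i, (ρ i : K) ≠ 0 := by
    intro i h
    have h1 := hρ1 i (D0 i)
    rw [show ρ i = 0 from Subtype.ext h, zero_mul] at h1
    exact der_ne_zero (hD0 i) (hx i) h1
  have h1 := dform_change e (Sum.elim y fun i => (x i : K)) (Sum.elim z fun i => (t i : K))
    (Matrix.fromBlocks Z 0 0 (Matrix.diagonal fun i => (ρ i : K))) (Sum.elim (fun _ => 1) s)
    (by
      rintro (i | i)
      · exact one_ne_zero
      · exact hs i) D (by
      rintro a (l | i)
      · rw [Fintype.sum_sum_type]
        simp only [Sum.elim_inl, Sum.elim_inr, Matrix.fromBlocks_apply₁₁,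
          Matrix.fromBlocks_apply₁₂, Matrix.zero_apply, zero_mul, Finset.sum_const_zero,
          add_zero]
        exact hZ (D a) l
      · rw [Fintype.sum_sum_type]
        simp only [Sum.elim_inl, Sum.elim_inr, Matrix.fromBlocks_apply₂₁,
          Matrix.fromBlocks_apply₂₂, Matrix.zero_apply, zero_mul, Finset.sum_const_zero,
          zero_add]
        rw [Finset.sum_eq_single i]
        · rw [Matrix.diagonal_apply_eq]
          exact hρ2 i (D a)
        · intro j _ hj
          rw [Matrix.diagonal_apply_ne _ hj.symm, zero_mul]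
        · intro h
          exact absurd (Finset.mem_univ i) h)
  rw [mform, h1, Matrix.det_fromBlocks_zero₂₁, Matrix.det_diagonal, Fintype.prod_sum_type]
  simp only [Sum.elim_inl, Sum.elim_inr, Finset.prod_const_one, one_mul, pow_one]
  have h2 : ∏ i, ((c i / D0 i (x i) : F i) : K) * (ρ i : K) =
      ∏ i, ((c i / D0 i (t i) : F i) : K) := by
    refine Finset.prod_congr rfl fun i _ => ?_
    have h3 := hρ1 i (D0 i)
    have h4 : D0 i (t i) ≠ 0 := der_ne_zero (hD0 i) (ht i)
    have h5 : ρ i ≠ 0 := fun h => hρ0 i (by rw [h]; rfl)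
    have h6 : (c i / D0 i (x i)) * ρ i = c i / D0 i (t i) := by
      rw [h3]
      field_simp
    rw [← h6]
    rfl
  rw [Finset.prod_mul_distrib, ← h2, Finset.prod_mul_distrib]
  ring

end

end Pool.Agent.Helper320.PCH
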