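import Pool.Agent.Helper320.PCH.MixV

/-!
Correspondences with products of a variety and curves: the Kodaira dimension.
-/

set_option autoImplicit false
set_option linter.overlappingInstances false
set_option linter.unusedSectionVars false
set_option maxHeartbeats 4000000
set_option synthInstance.maxHeartbeats 400000

open FF Pool.Agent.W603.LV
open Pool.Agent.W602.GT (IsPluri Divisorial RegAt LogAt KodGe LogSec)
open Pool.Agent.Y172 (exists_crd exists_lift lift_dual pluri_coord)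
open Pool.Agent.Y184.NT (trForm trForm_pluri)
open Pool.Agent.W619.Y (YGood)
open Pool.Agent.Helper320.PC (form_eq der_prod der_mem)
open Pool.Agent.Helper320.PCL

namespace Pool.Agent.Helper320.PCH

/-- the Kodaira dimension, for sections with given traces -/
theorem kodTr {n r : ℕ} {K : Type} [Field K] [Algebra ℂ K] [Algebra.EssFiniteType ℂ K]
    (F : Fin r → IntermediateField ℂ K) [hF : ∀ i, IsFF ℂ (F i)]
    (B : ∀ i, Finset (Place ℂ (F i)))
    (L : Type) [Field L] [Algebra ℂ L] [Algebra L K] [IsScalarTower ℂ L K]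
    [FiniteDimensional L K] (hL : Algebra.trdeg ℂ L = n)
    (hgen : IntermediateField.adjoin L (⋃ i, (F i : Set K)) = ⊤)
    (D0 : ∀ i, Derivation ℂ (F i) (F i)) (hD0 : ∀ i, D0 i ≠ 0) (x : ∀ i, F i)
    (hx : ∀ i, Transcendental ℂ (x i)) (hxb : AlgebraicIndependent ℂ fun i => (x i : K))
    (BL : Place ℂ L → Prop) (E : Fin n → Derivation ℂ L L) (δ : K) (hδ0 : δ ≠ 0)
    (Ω : (∀ i, F i) → (Fin n → Derivation ℂ L L) → L)
    (hΩ : ∀ c : ∀ i, F i, (∀ i, IsLogD (B i) (D0 i) (c i)) → LogSec ℂ L n 1 BL (Ω c))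
    (hval : ∀ c : ∀ i, F i, Ω c E = Algebra.trace L K ((∏ i, (c i : K)) * δ))
    (b : Fin r → ℕ) (μ : Fin r → ℕ) (hγ : ∀ i, LGonGe ℂ (F i) (B i) (μ i + 2))
    (Λ : Finset (Fin r))
    (hA : ∀ k, ∀ J : Finset (Fin r), J.Nonempty → (∀ i ∈ J, b i = k) →
      dg L F (Finset.univ.filter fun i => b i ≤ k) ≤
        dg L F (Finset.univ.filter fun i => b i ≤ k ∧ i ∉ J) * (∑ i ∈ J, μ i + 1))
    (hB : ∀ k, ∀ J : Finset (Fin r), (∃ l ∈ J, l ∈ Λ) → (∀ i ∈ J, b i = k) →
      2 * dg L F (Finset.univ.filter fun i => b i ≤ k) ≤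
        dg L F (Finset.univ.filter fun i => b i ≤ k ∧ i ∉ J) * (∑ i ∈ J, μ i + 1))
    (hC : ∀ k, (∃ l ∈ Λ, k < b l) → ∀ J : Finset (Fin r), J.Nonempty → (∀ i ∈ J, b i = k) →
      2 * dg L F (Finset.univ.filter fun i => b i ≤ k) ≤
        dg L F (Finset.univ.filter fun i => b i ≤ k ∧ i ∉ J) * (∑ i ∈ J, μ i + 2)) :
    KodGe ℂ L n BL Λ.card := by
  classical
  have hessL : Algebra.EssFiniteType ℂ L := Pool.Agent.TH466.QG.ess_below (K := K)
  obtain ⟨L', hL'⟩ : ∃ L' : IntermediateField L K, L' = IntermediateField.adjoin L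
    (⋃ i ∈ (Finset.univ : Finset (Fin r)), (F i : Set K)) := ⟨_, rfl⟩
  have htop : L' = ⊤ := by
    rw [hL', ← hgen]; congr 1; ext t; simp
  have hIb : ∀ i : Fin r, i ∈ (Finset.univ : Finset (Fin r)) ↔ b i < Finset.univ.sup b + 1 :=
    fun i => ⟨fun _ => Nat.lt_succ_of_le (Finset.le_sup (Finset.mem_univ i)),
      fun _ => Finset.mem_univ i⟩
  have hA' : ∀ k < Finset.univ.sup b + 1, ∀ J : Finset (Fin r), J.Nonempty →
      (∀ i ∈ J, b i = k) →
      relDeg L F (Finset.univ.filter fun i => b i ≤ k ∧ i ∉ J) J ≤ ∑ i ∈ J, μ i + 1 := by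
    intro k _ J hJ hJk
    have h1 := relDeg_le_iff (L := L) F b k (∑ i ∈ J, μ i + 1) J hJk 1
      (by rw [one_mul]; exact hA k J hJ hJk)
    rwa [one_mul] at h1
  have hB' : ∀ l ∈ Λ, ∀ J : Finset (Fin r), l ∈ J → (∀ i ∈ J, b i = b l) →
      2 * relDeg L F (Finset.univ.filter fun i => b i ≤ b l ∧ i ∉ J) J ≤ ∑ i ∈ J, μ i + 1 :=
    fun l hl J hJ hJk => relDeg_le_iff (L := L) F b (b l) _ J hJk 2
      (hB (b l) J ⟨l, hJ, hl⟩ hJk)
  have hC' : ∀ l ∈ Λ, ∀ k < b l, ∀ J : Finset (Fin r), J.Nonempty → (∀ i ∈ J, b i = k) →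
      2 * relDeg L F (Finset.univ.filter fun i => b i ≤ k ∧ i ∉ J) J ≤ ∑ i ∈ J, μ i + 2 :=
    fun l hl k hk J hJ hJk => relDeg_le_iff (L := L) F b k _ J hJk 2
      (hC k ⟨l, hl, hk⟩ J hJ hJk)
  have hend : (∀ c : ∀ i, F i, (∀ i, i ∉ (Finset.univ : Finset (Fin r)) →
      IsLogD (B i) (D0 i) (c i)) → Algebra.trace L' K ((∏ i, (c i : K)) * δ) = 0) → False := by
    intro h
    have h1 := h (fun _ => 1) (fun i hi => absurd (Finset.mem_univ i) hi)
    simp only [OneMemClass.coe_one, Finset.prod_const_one, one_mul] at h1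
    exact hδ0 (trace_top _ htop _ h1)
  -- the case of a derivation
  have hcase : ∀ (D : Derivation ℂ L L) (D' : Derivation ℂ K K) (θ : L),
      (∀ f : L, D' (algebraMap L K f) = algebraMap L K (D f)) →
      (∀ c : ∀ i, F i, (∀ i, IsLogD (B i) (D0 i) (c i)) →
        D (Algebra.trace L K ((∏ i, (c i : K)) * δ)) =
          θ * Algebra.trace L K ((∏ i, (c i : K)) * δ)) →
      ∀ l₀ ∈ Λ, D' (x l₀ : K) ≠ 0 → False := by
    intro D D' θ hD hθ l₀ hl₀ hne
    have hD0x : ∀ l, ((D0 l (x l) : F l) : K) ≠ 0 := by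
      intro l h
      exact der_ne_zero (hD0 l) (hx l) (Subtype.ext h)
    have hμ : 1 ≤ μ l₀ := by
      have h1 := hB' l₀ hl₀ {l₀} (Finset.mem_singleton_self _)
        (fun i hi => by rw [Finset.mem_singleton.1 hi])
      have h2 := relDeg_pos (L := L) F
        (Finset.univ.filter fun i => b i ≤ b l₀ ∧ i ∉ ({l₀} : Finset (Fin r))) {l₀}
      rw [Finset.sum_singleton] at h1
      omega
    refine hend (rel_overJ F B b (Finset.univ.sup b + 1) Finset.univ hIb L' hL' μ hγ l₀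
      (Finset.mem_univ _) hμ hA' (hB' l₀ hl₀) (hC' l₀ hl₀)
      D0 hD0 (D' δ - algebraMap L K θ * δ) δ
      (fun l => D' (x l : K) / (D0 l (x l) : K)) (div_ne_zero hne (hD0x l₀))
      (by rw [htop]; exact IntermediateField.mem_top) ?_)
    intro c hc
    have hcl : ∀ l, D' (c l : K) = D' (x l : K) / (D0 l (x l) : K) * (D0 l (c l) : K) := by
      intro l
      obtain ⟨r, hr1, hr2⟩ := Pool.Agent.W619.PQ.ratio' (K := K) (hx l) (c l)
      have h1 : D' (c l : K) = (r : K) * D' (x l : K) := hr2 D'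
      have h2 : (D0 l (c l) : K) = (r : K) * (D0 l (x l) : K) :=
        congrArg Subtype.val (hr1 (D0 l))
      rw [h1, h2]
      have h3 := hD0x l
      field_simp
    have hprod : D' ((∏ i, (c i : K)) * δ) = (∏ i, (c i : K)) * D' δ +
        ∑ l, δ * (D' (x l : K) / (D0 l (x l) : K)) * (D0 l (c l) : K) *
          ∏ i ∈ Finset.univ.erase l, (c i : K) := by
      rw [D'.leibniz, smul_eq_mul, smul_eq_mul, der_prod D' Finset.univ fun i => (c i : K),
        Finset.mul_sum]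
      congr 1
      refine Finset.sum_congr rfl fun l _ => ?_
      rw [hcl l]
      ring
    have h1 : (∏ i, (c i : K)) * (D' δ - algebraMap L K θ * δ) +
        ∑ l, δ * (D' (x l : K) / (D0 l (x l) : K)) * (D0 l (c l) : K) *
          ∏ i ∈ Finset.univ.erase l, (c i : K) =
        D' ((∏ i, (c i : K)) * δ) - θ • ((∏ i, (c i : K)) * δ) := by
      rw [hprod, Algebra.smul_def]
      ring
    rw [h1, map_sub, map_smul, Pool.Agent.Helper320.PC.t_TRD D D' hD, hθ c hc, smul_eq_mul,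
      sub_self]
  by_cases hall : ∀ c : ∀ i, F i, (∀ i, IsLogD (B i) (D0 i) (c i)) →
      Algebra.trace L K ((∏ i, (c i : K)) * δ) = 0
  · exact (hend (rel_over F B b (Finset.univ.sup b + 1) Finset.univ hIb L' hL' μ hγ hA' D0 hD0 δ
      hall)).elim
  push Not at hall
  obtain ⟨c₀, hc₀, hne⟩ := hall
  let S : Set L := {s | ∃ c : ∀ i, F i, (∀ i, IsLogD (B i) (D0 i) (c i)) ∧
    s = Algebra.trace L K ((∏ i, (c i : K)) * δ)}
  let e : Fin Λ.card ≃ Λ := Λ.equivFin.symm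
  obtain ⟨s, hs, hind⟩ := Pool.Agent.Helper320.PC.t_KOD (K := K) S _ ⟨c₀, hc₀, rfl⟩ hne
    (fun j => (x (e j) : K))
    (hxb.comp (fun j => (e j : Fin r)) (Subtype.val_injective.comp e.injective)) (by
      intro D D' hD hS j
      by_contra hcon
      refine hcase D D' (D (Algebra.trace L K ((∏ i, (c₀ i : K)) * δ)) /
        Algebra.trace L K ((∏ i, (c₀ i : K)) * δ)) hD (fun c hc => ?_) (e j) (e j).2 hcon
      have h1 := hS _ ⟨c, hc, rfl⟩
      obtain ⟨u, hu⟩ : ∃ u : L, u = Algebra.trace L K ((∏ i, (c i : K)) * δ) := ⟨_, rfl⟩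
      obtain ⟨v, hv⟩ : ∃ v : L, v = Algebra.trace L K ((∏ i, (c₀ i : K)) * δ) := ⟨_, rfl⟩
      rw [← hu, ← hv] at h1 ⊢
      rw [← hv] at hne
      have h2 : D u = D (u / v * v) := by rw [div_mul_cancel₀ _ hne]
      rw [h2, D.leibniz, h1, smul_zero, add_zero, smul_eq_mul]
      field_simp)
  choose c hc hsc using hs
  let cc : Fin (Λ.card + 1) → ∀ i, F i := Fin.cons c₀ c
  have hcc : ∀ j i, IsLogD (B i) (D0 i) (cc j i) := by
    intro j
    refine Fin.cases ?_ (fun j => ?_) j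
    · exact hc₀
    · exact hc j
  refine ⟨1, one_pos, fun j => Ω (cc j), fun j => hΩ (cc j) (hcc j), E, ?_, ?_⟩
  · change Ω (cc 0) E ≠ 0
    rw [hval]
    exact hne
  · have h1 : (fun i : Fin Λ.card => Ω (cc i.succ) E / Ω (cc 0) E) =
        fun j => s j / Algebra.trace L K ((∏ i, (c₀ i : K)) * δ) := by
      funext j
      rw [hval, hval, hsc j]
      rfl
    rw [h1]
    exact hind

/-- **The Kodaira dimension.** -/
theorem mixK {d r : ℕ} {K : Type} [Field K] [Algebra ℂ K] [Algebra.EssFiniteType ℂ K]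
    (hK : Algebra.trdeg ℂ K = (d + r : ℕ)) (M : IntermediateField ℂ K)
    [Algebra.EssFiniteType ℂ M] (hM : Algebra.trdeg ℂ M = d)
    (η : (Fin d → Derivation ℂ M M) → M) (hη : IsPluri 1 η)
    (hreg : ∀ u : Place ℂ M, Divisorial d u → RegAt u η) (hη0 : ∃ D, η D ≠ 0)
    (F : Fin r → IntermediateField ℂ K) [hF : ∀ i, IsFF ℂ (F i)]
    (B : ∀ i, Finset (Place ℂ (F i)))
    (halg : ∀ z : K, IsAlgebraic (M ⊔ ⨆ i, F i : IntermediateField ℂ K) z)
    (L : Type) [Field L] [Algebra ℂ L] [Algebra L K] [IsScalarTower ℂ L K]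
    [FiniteDimensional L K] (hgen : IntermediateField.adjoin L (⋃ i, (F i : Set K)) = ⊤)
    (b : Fin r → ℕ) (μ : Fin r → ℕ) (hγ : ∀ i, LGonGe ℂ (F i) (B i) (μ i + 2))
    (BL : Place ℂ L → Prop)
    (hBL : ∀ (P : Place ℂ L) (Q : Place ℂ K) (e : ℕ), Over Q P e → BdK F B Q → BL P)
    (Λ : Finset (Fin r))
    (hA : ∀ k, ∀ J : Finset (Fin r), J.Nonempty → (∀ i ∈ J, b i = k) →
      dg L F (Finset.univ.filter fun i => b i ≤ k) ≤
        dg L F (Finset.univ.filter fun i => b i ≤ k ∧ i ∉ J) * (∑ i ∈ J, μ i + 1))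
    (hB : ∀ k, ∀ J : Finset (Fin r), (∃ l ∈ J, l ∈ Λ) → (∀ i ∈ J, b i = k) →
      2 * dg L F (Finset.univ.filter fun i => b i ≤ k) ≤
        dg L F (Finset.univ.filter fun i => b i ≤ k ∧ i ∉ J) * (∑ i ∈ J, μ i + 1))
    (hC : ∀ k, (∃ l ∈ Λ, k < b l) → ∀ J : Finset (Fin r), J.Nonempty → (∀ i ∈ J, b i = k) →
      2 * dg L F (Finset.univ.filter fun i => b i ≤ k) ≤
        dg L F (Finset.univ.filter fun i => b i ≤ k ∧ i ∉ J) * (∑ i ∈ J, μ i + 2)) :
    KodGe ℂ L (d + r) BL Λ.card := by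
  classical
  have hessL : Algebra.EssFiniteType ℂ L := Pool.Agent.TH466.QG.ess_below (K := K)
  have hL : Algebra.trdeg ℂ L = (d + r : ℕ) := Pool.Agent.Y184.NT.trdeg_below (K := K) hK
  obtain ⟨D0, hD0def⟩ : ∃ D0 : ∀ i, Derivation ℂ (F i) (F i), D0 = fun i => der ℂ (F i) :=
    ⟨_, rfl⟩
  have hD0 : ∀ i, D0 i ≠ 0 := fun i => by rw [hD0def]; exact der_ne
  choose x hx using fun i => IsFF.exists_transcendental (k := ℂ) (K := F i)
  obtain ⟨y, EM, hy, hEM⟩ := exists_crd (k := ℂ) (K := M) hM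
  have ha0 : η EM ≠ 0 := by
    obtain ⟨D, hD⟩ := hη0
    intro h0
    apply hD
    rw [pluri_coord hy hEM hη D, h0, mul_zero]
  obtain ⟨a, ha⟩ : ∃ a : K, a = (η EM : K) := ⟨_, rfl⟩
  have ha0' : a ≠ 0 := by
    rw [ha]
    intro h
    exact ha0 (Subtype.ext h)
  have hYG : ∀ w : Place ℂ K, Divisorial (d + r) w → YGood d 1 w (fun l => (y l : K)) a := by
    intro w hw
    rw [ha]
    exact Pool.Agent.W619.Y.pYLOC ℂ K M d (d + r) 1 hM hK
      (fun y hy => Pool.Agent.W619.Y.fin_over y hy) η hη (fun u hu => hreg u hu) y EM hy hEM w hw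
  obtain ⟨z, E, hz, hE⟩ := exists_crd (k := ℂ) (K := L) hL
  choose E' hE' using fun i => exists_lift (k := ℂ) (K := L) (L := K) hL (E i)
  have hzK : IsTranscendenceBasis ℂ (fun j => algebraMap L K (z j)) := hz.algebraMap_comp
  have hE'd := lift_dual hE hE'
  have hbasis := basis_mix hK M y hy F x hx halg
  obtain ⟨δ, hδ⟩ : ∃ δ : K, δ = a * (∏ i, ((1 / D0 i (x i) : F i) : K)) *
    dform finSumFinEquiv (Sum.elim (fun l => (y l : K)) fun i => (x i : K)) E' := ⟨_, rfl⟩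
  have hδ0 : δ ≠ 0 := by
    rw [hδ]
    refine mul_ne_zero (mul_ne_zero ha0' (Finset.prod_ne_zero_iff.2 fun i _ => ?_))
      (dform_ne _ _ hbasis hzK hE'd)
    intro h
    have h1 : (1 / D0 i (x i) : F i) = 0 := Subtype.ext h
    exact one_div_ne_zero (der_ne_zero (hD0 i) (hx i)) h1
  have hform : ∀ c : ∀ i, F i, mform finSumFinEquiv F D0 x (fun l => (y l : K)) a c E' =
      (∏ i, (c i : K)) * δ := by
    intro c
    have h1 : ∏ i, ((c i / D0 i (x i) : F i) : K) =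
        (∏ i, (c i : K)) * ∏ i, ((1 / D0 i (x i) : F i) : K) := by
      rw [← Finset.prod_mul_distrib]
      refine Finset.prod_congr rfl fun i _ => ?_
      rw [div_eq_mul_one_div]
      rfl
    rw [mform, h1, hδ]
    ring
  refine kodTr F B L hL hgen D0 hD0 x hx (hbasis.1.comp Sum.inr Sum.inr_injective) BL E δ hδ0
    (fun c => trForm z (Algebra.trace L K
      (mform finSumFinEquiv F D0 x (fun l => (y l : K)) a c E'))) (fun c hc => ?_) (fun c => ?_)
    b μ hγ Λ hA hB hC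
  · have hsec := fun P hP => Pool.Agent.R882.LT.trForm_sec hL hz hE hE' _
      (mform_pluri finSumFinEquiv F D0 x (fun l => (y l : K)) a c) hBL
      (fun Q hQ => mform_sec finSumFinEquiv F B D0 hD0 x hx Q _ a (hYG Q hQ) c hc) P hP
    exact ⟨trForm_pluri _ _, fun P hP => (hsec P hP).1, fun P hP hB => (hsec P hP).2 hB⟩
  · have h6 : (Matrix.of fun i j => E i (z j) : Matrix (Fin (d + r)) (Fin (d + r)) L) = 1 := by
      ext a b
      rw [Matrix.of_apply, hE, Matrix.one_apply]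
    rw [trForm, h6, Matrix.det_one, one_mul, hform]

end Pool.Agent.Helper320.PCH
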