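import Pool.Agent.Helper320.PCH.Mix

/-!
Correspondences with products of a variety and curves: regularity.
-/

set_option autoImplicit false
set_option linter.overlappingInstances false
set_option linter.unusedSectionVars false
set_option maxHeartbeats 4000000
set_option synthInstance.maxHeartbeats 400000

open FF Pool.Agent.W603.LV
open Pool.Agent.W602.GT (IsPluri Divisorial RegAt LogAt DerReg DerLog)
open Pool.Agent.W619.Y (YGood)
open Pool.Agent.Helper320.PCL

namespace Pool.Agent.Helper320.PCH

section

variable {K : Type} [Field K] [Algebra ℂ K] {d r n : ℕ} (e : Fin d ⊕ Fin r ≃ Fin n)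
  (F : Fin r → IntermediateField ℂ K) [∀ i, IsFF ℂ (F i)] (B : ∀ i, Finset (Place ℂ (F i)))
  (D0 : ∀ i, Derivation ℂ (F i) (F i)) (hD0 : ∀ i, D0 i ≠ 0) (x : ∀ i, F i)
  (hx : ∀ i, Transcendental ℂ (x i))

include hD0 hx

theorem mform_reg_of (w : Place ℂ K) (y : Fin d → K) (a : K) (hY : YGood d 1 w y a)
    (c : ∀ i, F i) (t : ∀ i, F i) (ht : ∀ i, Transcendental ℂ (t i)) (s : Fin r → K)
    (hs : ∀ i, s i ≠ 0) (h1 : ∀ i, w.Reg (((c i / D0 i (t i) : F i) : K) * s i))
    (D : Fin n → Derivation ℂ K K) (h2 : ∀ a i, w.Reg (D a (t i : K) / s i))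
    (h3 : ∀ a z, w.Reg z → w.Reg (D a z)) : w.Reg (mform e F D0 x y a c D) := by
  obtain ⟨Z, z, hz, hZ, hga⟩ := hY
  rw [mform_eq e F D0 hD0 x hx y a c t ht s hs Z z hZ D]
  have h4 : Ge w 0 (∏ i, (((c i / D0 i (t i) : F i) : K) * s i)) := by
    by_cases h0 : ∃ i, ((c i / D0 i (t i) : F i) : K) * s i = 0
    · obtain ⟨i, hi⟩ := h0
      exact Or.inl (Finset.prod_eq_zero (Finset.mem_univ i) hi)
    · push Not at h0
      right
      rw [Pool.Agent.W619.PQ.ord_prod _ _ _ fun i _ => h0 i]
      exact Finset.sum_nonneg fun i _ => (h1 i).resolve_left (h0 i)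
  have h5 : Ge w 0 (Matrix.of fun (i : Fin d ⊕ Fin r) (j : Fin d ⊕ Fin r) =>
      D (e i) (Sum.elim z (fun i => (t i : K)) j) / Sum.elim (fun _ => 1) s j).det := by
    refine Pool.Agent.W619.PQ.ge_det w _ ?_
    rintro i (j | j)
    · simp only [Matrix.of_apply, Sum.elim_inl, div_one]
      exact h3 _ _ (hz j)
    · simp only [Matrix.of_apply, Sum.elim_inr]
      exact h2 _ _
  have h6 := (hga.mul h4).mul h5
  simp only [add_zero] at h6
  exact h6

theorem mform_sec (w : Place ℂ K) (y : Fin d → K) (a : K) (hY : YGood d 1 w y a)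
    (c : ∀ i, F i) (hc : ∀ i, IsLogD (B i) (D0 i) (c i)) :
    LogAt w (mform e F D0 x y a c) ∧
      (¬ BdK F B w → RegAt w (mform e F D0 x y a c)) := by
  classical
  have hx0 : ∀ i, (x i : K) ≠ 0 := fun i h => hx i (by
    rw [show x i = 0 from Subtype.ext h]
    exact isAlgebraic_zero)
  constructor
  · intro D hD
    have ht : ∀ i, ∃ t : F i, Transcendental ℂ t ∧ w.Reg (((c i / D0 i t : F i) : K) * (t : K)) := by
      intro i
      by_cases htriv : ∀ f : F i, w.ord (algebraMap (F i) K f) = 0
      · refine ⟨x i, hx i, ?_⟩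
        have h1 : (((c i / D0 i (x i) : F i) : K) * (x i : K)) =
            algebraMap (F i) K (c i / D0 i (x i) * x i) := rfl
        rw [h1]
        exact Or.inr (htriv _).ge
      · push Not at htriv
        obtain ⟨e', p, hp⟩ := exists_over (K := F i) w htriv
        obtain ⟨t, ht0, ht⟩ := p.surj
        have htt : Transcendental ℂ t := p.transcendental_of_ord_ne (by omega)
        refine ⟨t, htt, ?_⟩
        by_cases hci : c i = 0
        · left
          rw [hci, zero_div]
          exact zero_mul _
        right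
        have h1 : (((c i / D0 i t : F i) : K) * (t : K)) =
            algebraMap (F i) K (c i / D0 i t * t) := rfl
        have hDt := der_ne_zero (hD0 i) htt
        rw [h1, hp.2, p.ord_mul (div_ne_zero hci hDt) ht0, p.ord_div hci hDt, ht,
          vo_eq p ht (hD0 i)]
        have h2 := (hc i p).resolve_left hci
        have h3 := bt_le_one (B i) p
        exact mul_nonneg (by positivity) (by omega)
    choose t ht1 ht2 using ht
    have ht0 : ∀ i, (t i : K) ≠ 0 := fun i h => ht1 i (by
      rw [show t i = 0 from Subtype.ext h]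
      exact isAlgebraic_zero)
    refine mform_reg_of e F D0 hD0 x hx w y a hY c t ht1 (fun i => (t i : K)) ht0 ht2 D
      (fun a i => hD a _) fun a z hz => ?_
    by_cases hz0 : z = 0
    · rw [hz0, map_zero]
      exact w.reg_zero
    · have h1 : Ge w 0 (D a z / z * z) := by
        have h2 : Ge w (0 + 0) (D a z / z * z) := Ge.mul (hD a z) hz
        rwa [add_zero] at h2
      rw [div_mul_cancel₀ _ hz0] at h1
      exact h1
  · intro hbd D hD
    have ht : ∀ i, ∃ t : F i, Transcendental ℂ t ∧ w.Reg (t : K) ∧
        w.Reg (((c i / D0 i t : F i) : K) * 1) := by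
      intro i
      by_cases htriv : ∀ f : F i, w.ord (algebraMap (F i) K f) = 0
      · refine ⟨x i, hx i, Or.inr (htriv (x i)).ge, ?_⟩
        rw [mul_one]
        exact Or.inr (htriv (c i / D0 i (x i))).ge
      · push Not at htriv
        obtain ⟨e', p, hp⟩ := exists_over (K := F i) w htriv
        obtain ⟨t, ht0, ht⟩ := p.surj
        have htt : Transcendental ℂ t := p.transcendental_of_ord_ne (by omega)
        have hpB : p ∉ B i := fun h => hbd ⟨i, p, h, e', hp⟩
        refine ⟨t, htt, ?_, ?_⟩
        · right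
          have h1 : w.ord (t : K) = e' * p.ord t := hp.2 t
          rw [h1, ht]
          positivity
        · rw [mul_one]
          by_cases hci : c i = 0
          · left
            rw [hci, zero_div]
            rfl
          right
          have hDt := der_ne_zero (hD0 i) htt
          have h1 : w.ord ((c i / D0 i t : F i) : K) = e' * p.ord (c i / D0 i t) :=
            hp.2 (c i / D0 i t)
          rw [h1, p.ord_div hci hDt, vo_eq p ht (hD0 i)]
          have h2 := (hc i p).resolve_left hci
          rw [bt_of_notMem hpB] at h2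
          exact mul_nonneg (by positivity) (by omega)
    choose t ht1 ht2 ht3 using ht
    refine mform_reg_of e F D0 hD0 x hx w y a hY c t ht1 (fun _ => 1) (fun _ => one_ne_zero) ht3 D
      (fun a i => ?_) fun a z hz => hD a z hz
    rw [div_one]
    exact hD a _ (ht2 i)

end

end Pool.Agent.Helper320.PCH
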