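import Pool.Agent.Helper320.PCH.MixR
import Pool.Agent.Helper320.PCH.FinB

/-!
Correspondences with products of a variety and curves: the main result.
-/

set_option autoImplicit false
set_option linter.overlappingInstances false
set_option linter.unusedSectionVars false
set_option maxHeartbeats 4000000
set_option synthInstance.maxHeartbeats 400000

open FF Pool.Agent.W603.LV
open Pool.Agent.W602.GT (IsPluri Divisorial RegAt LogAt KodGe LogSec)
open Pool.Agent.Y172 (exists_crd exists_lift lift_dual pluri_coord)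
open Pool.Agent.Y184.NT (trForm trForm_pluri)
open Pool.Agent.W619.Y (YGood)
open Pool.Agent.Helper320.PCL

namespace Pool.Agent.Helper320.PCH

/-- a transcendence basis of the compositum -/
theorem basis_mix {K : Type} [Field K] [Algebra ℂ K] {d r : ℕ}
    (hK : Algebra.trdeg ℂ K = (d + r : ℕ)) (M : IntermediateField ℂ K) (y : Fin d → M)
    (hy : IsTranscendenceBasis ℂ y) (F : Fin r → IntermediateField ℂ K) [∀ i, IsFF ℂ (F i)]
    (x : ∀ i, F i) (hx : ∀ i, Transcendental ℂ (x i))
    (halg : ∀ z : K, IsAlgebraic (M ⊔ ⨆ i, F i : IntermediateField ℂ K) z) :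
    IsTranscendenceBasis ℂ
      (Sum.elim (fun l => (y l : K)) fun i => (x i : K) : Fin d ⊕ Fin r → K) := by
  classical
  obtain ⟨g, hg⟩ : ∃ g : Fin d ⊕ Fin r → K,
    g = Sum.elim (fun l => (y l : K)) fun i => (x i : K) := ⟨_, rfl⟩
  rw [← hg]
  let S : IntermediateField ℂ K := IntermediateField.adjoin ℂ (Set.range g)
  let A : IntermediateField S K := algebraicClosure S K
  have hgS : ∀ i, g i ∈ S := fun i => IntermediateField.subset_adjoin ℂ _ ⟨i, rfl⟩
  have hM : M ≤ A.restrictScalars ℂ := by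
    intro z hz
    rw [IntermediateField.mem_restrictScalars, mem_algebraicClosure_iff]
    have h1 : IsAlgebraic (Algebra.adjoin ℂ (Set.range y)) (⟨z, hz⟩ : M) :=
      hy.isAlgebraic.isAlgebraic _
    have hle : Algebra.adjoin ℂ (Set.range y) ≤ S.toSubalgebra.comap M.val := by
      rw [Algebra.adjoin_le_iff]
      rintro _ ⟨l, rfl⟩
      have h2 := hgS (Sum.inl l)
      rw [hg] at h2
      exact h2
    let f : Algebra.adjoin ℂ (Set.range y) →+* S :=
      ((M.val : M →+* K).comp (algebraMap (Algebra.adjoin ℂ (Set.range y)) M)).codRestrict S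
        fun u => hle u.2
    have hf : Function.Injective f := by
      intro u v huv
      have h3 : ((u : M) : K) = ((v : M) : K) := congrArg (fun t : S => (t : K)) huv
      exact Subtype.ext (Subtype.ext h3)
    exact h1.ringHom_of_comp_eq f (M.val : M →+* K) hf (by ext u; rfl)
  have hF : ⨆ i, F i ≤ A.restrictScalars ℂ := by
    refine iSup_le fun i z hz => ?_
    rw [IntermediateField.mem_restrictScalars, mem_algebraicClosure_iff]
    refine Pool.Agent.W619.PQ.alg_of_mem (F i) (hx i) S ?_ ⟨z, hz⟩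
    have h2 := hgS (Sum.inr i)
    rw [hg] at h2
    exact h2
  have hMF : (M ⊔ ⨆ i, F i : IntermediateField ℂ K) ≤ A.restrictScalars ℂ := sup_le hM hF
  let f : (M ⊔ ⨆ i, F i : IntermediateField ℂ K) →+* A :=
    (algebraMap (M ⊔ ⨆ i, F i : IntermediateField ℂ K) K).codRestrict A fun z => hMF z.2
  have h1 : Algebra.IsAlgebraic (Algebra.adjoin ℂ (Set.range g)) K := by
    refine Pool.Agent.W619.PQ.alg_adjoin fun z => ?_
    have h2 : IsAlgebraic A z :=
      (halg z).ringHom_of_comp_eq f (RingHom.id K) f.injective (by ext z; rfl)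
    exact h2.restrictScalars S
  refine Algebra.IsAlgebraic.isTranscendenceBasis_of_lift_le_trdeg_of_finite ℂ _ ?_
  rw [hK]
  simp

/-- the determinant of a transcendence basis -/
theorem dform_ne {ι : Type} [Fintype ι] [DecidableEq ι] {n : ℕ} {K : Type} [Field K]
    [Algebra ℂ K] (e : ι ≃ Fin n) (g : ι → K) (hg : IsTranscendenceBasis ℂ g)
    {z : Fin n → K} {E : Fin n → Derivation ℂ K K}
    (hz : IsTranscendenceBasis ℂ z) (hE : ∀ i j, E i (z j) = if i = j then 1 else 0) :
    dform e g E ≠ 0 := by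
  choose G hG using fun j => Pool.Agent.W619.PQ.exists_dual g hg j
  intro h0
  have h1 := pluri_coord hz hE (dform_pluri e g 1) (fun a => G (e.symm a))
  rw [h0, mul_zero, mul_zero, one_mul] at h1
  have h2 : (Matrix.of fun i j => G (e.symm (e i)) (g j) : Matrix ι ι K) = 1 := by
    ext i j
    rw [Matrix.of_apply, e.symm_apply_apply, hG, Matrix.one_apply]
    simp only [eq_comm]
  rw [dform, h2, Matrix.det_one] at h1
  exact one_ne_zero h1

/-- **A section of `K + D`.** -/
theorem mixV {d r : ℕ} {K : Type} [Field K] [Algebra ℂ K] [Algebra.EssFiniteType ℂ K]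
    (hK : Algebra.trdeg ℂ K = (d + r : ℕ)) (M : IntermediateField ℂ K)
    [Algebra.EssFiniteType ℂ M] (hM : Algebra.trdeg ℂ M = d)
    (η : (Fin d → Derivation ℂ M M) → M) (hη : IsPluri 1 η)
    (hreg : ∀ u : Place ℂ M, Divisorial d u → RegAt u η) (hη0 : ∃ D, η D ≠ 0)
    (F : Fin r → IntermediateField ℂ K) [hF : ∀ i, IsFF ℂ (F i)]
    (B : ∀ i, Finset (Place ℂ (F i)))
    (halg : ∀ z : K, IsAlgebraic (M ⊔ ⨆ i, F i : IntermediateField ℂ K) z)
    (L : Type) [Field L] [Algebra ℂ L] [Algebra L K] [IsScalarTower ℂ L K]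
    [FiniteDimensional L K] (hgen : IntermediateField.adjoin L (⋃ i, (F i : Set K)) = ⊤)
    (b : Fin r → ℕ) (μ : Fin r → ℕ) (hγ : ∀ i, LGonGe ℂ (F i) (B i) (μ i + 2))
    (BL : Place ℂ L → Prop)
    (hBL : ∀ (P : Place ℂ L) (Q : Place ℂ K) (e : ℕ), Over Q P e → BdK F B Q → BL P)
    (hA : ∀ k, ∀ J : Finset (Fin r), J.Nonempty → (∀ i ∈ J, b i = k) →
      dg L F (Finset.univ.filter fun i => b i ≤ k) ≤
        dg L F (Finset.univ.filter fun i => b i ≤ k ∧ i ∉ J) * (∑ i ∈ J, μ i + 1)) :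
    ∃ ω : (Fin (d + r) → Derivation ℂ L L) → L, LogSec ℂ L (d + r) 1 BL ω ∧
      ∃ D, ω D ≠ 0 := by
  classical
  by_contra hcon
  have hg : ∀ ω : (Fin (d + r) → Derivation ℂ L L) → L, LogSec ℂ L (d + r) 1 BL ω →
      ∀ D, ω D = 0 := by
    intro ω hω D
    by_contra hne
    exact hcon ⟨ω, hω, D, hne⟩
  have hessL : Algebra.EssFiniteType ℂ L := Pool.Agent.TH466.QG.ess_below (K := K)
  have hL : Algebra.trdeg ℂ L = (d + r : ℕ) := Pool.Agent.Y184.NT.trdeg_below (K := K) hK
  obtain ⟨D0, hD0def⟩ : ∃ D0 : ∀ i, Derivation ℂ (F i) (F i), D0 = fun i => der ℂ (F i) :=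
    ⟨_, rfl⟩
  have hD0 : ∀ i, D0 i ≠ 0 := fun i => by rw [hD0def]; exact der_ne
  choose x hx using fun i => IsFF.exists_transcendental (k := ℂ) (K := F i)
  obtain ⟨y, EM, hy, hEM⟩ := exists_crd (k := ℂ) (K := M) hM
  have ha0 : η EM ≠ 0 := by
    obtain ⟨D, hD⟩ := hη0
    intro h0
    apply hD
    rw [pluri_coord hy hEM hη D, h0, mul_zero]
  obtain ⟨a, ha⟩ : ∃ a : K, a = (η EM : K) := ⟨_, rfl⟩
  have ha0' : a ≠ 0 := by
    rw [ha]
    intro h
    exact ha0 (Subtype.ext h)
  have hYG : ∀ w : Place ℂ K, Divisorial (d + r) w → YGood d 1 w (fun l => (y l : K)) a := by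
    intro w hw
    rw [ha]
    exact Pool.Agent.W619.Y.pYLOC ℂ K M d (d + r) 1 hM hK
      (fun y hy => Pool.Agent.W619.Y.fin_over y hy) η hη (fun u hu => hreg u hu) y EM hy hEM w hw
  obtain ⟨z, E, hz, hE⟩ := exists_crd (k := ℂ) (K := L) hL
  choose E' hE' using fun i => exists_lift (k := ℂ) (K := L) (L := K) hL (E i)
  have hzK : IsTranscendenceBasis ℂ (fun j => algebraMap L K (z j)) := hz.algebraMap_comp
  have hE'd := lift_dual hE hE'
  have hbasis := basis_mix hK M y hy F x hx halg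
  obtain ⟨δ, hδ⟩ : ∃ δ : K, δ = a * (∏ i, ((1 / D0 i (x i) : F i) : K)) *
    dform finSumFinEquiv (Sum.elim (fun l => (y l : K)) fun i => (x i : K)) E' := ⟨_, rfl⟩
  have hδ0 : δ ≠ 0 := by
    rw [hδ]
    refine mul_ne_zero (mul_ne_zero ha0' (Finset.prod_ne_zero_iff.2 fun i _ => ?_))
      (dform_ne _ _ hbasis hzK hE'd)
    intro h
    have h1 : (1 / D0 i (x i) : F i) = 0 := Subtype.ext h
    exact one_div_ne_zero (der_ne_zero (hD0 i) (hx i)) h1
  have hform : ∀ c : ∀ i, F i, mform finSumFinEquiv F D0 x (fun l => (y l : K)) a c E' =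
      (∏ i, (c i : K)) * δ := by
    intro c
    have h1 : ∏ i, ((c i / D0 i (x i) : F i) : K) =
        (∏ i, (c i : K)) * ∏ i, ((1 / D0 i (x i) : F i) : K) := by
      rw [← Finset.prod_mul_distrib]
      refine Finset.prod_congr rfl fun i _ => ?_
      rw [div_eq_mul_one_div]
      rfl
    rw [mform, h1, hδ]
    ring
  have hrel : ∀ c : ∀ i, F i, (∀ i, IsLogD (B i) (D0 i) (c i)) →
      Algebra.trace L K ((∏ i, (c i : K)) * δ) = 0 := by
    intro c hc
    rw [← hform]
    have hsec := fun P hP => Pool.Agent.R882.LT.trForm_sec hL hz hE hE' _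
      (mform_pluri finSumFinEquiv F D0 x (fun l => (y l : K)) a c) hBL
      (fun Q hQ => mform_sec finSumFinEquiv F B D0 hD0 x hx Q _ a (hYG Q hQ) c hc) P hP
    have h5 := hg (trForm z (Algebra.trace L K
      (mform finSumFinEquiv F D0 x (fun l => (y l : K)) a c E')))
      ⟨trForm_pluri _ _, fun P hP => (hsec P hP).1, fun P hP hB => (hsec P hP).2 hB⟩ E
    have h6 : (Matrix.of fun i j => E i (z j) : Matrix (Fin (d + r)) (Fin (d + r)) L) = 1 := by
      ext a b
      rw [Matrix.of_apply, hE, Matrix.one_apply]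
    rw [trForm, h6, Matrix.det_one, one_mul] at h5
    exact h5
  have h1 := rel_over F B b (Finset.univ.sup b + 1) Finset.univ
    (fun i => ⟨fun _ => Nat.lt_succ_of_le (Finset.le_sup (Finset.mem_univ i)),
      fun _ => Finset.mem_univ i⟩) _ rfl μ hγ
    (fun k _ J hJ hJk => by
      have h1 := relDeg_le_iff (L := L) F b k (∑ i ∈ J, μ i + 1) J hJk 1
        (by rw [one_mul]; exact hA k J hJ hJk)
      rwa [one_mul] at h1) D0 hD0 δ hrel (fun _ => 1)
    (fun i hi => absurd (Finset.mem_univ i) hi)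
  simp only [OneMemClass.coe_one, Finset.prod_const_one, one_mul] at h1
  exact hδ0 (trace_top _ (by rw [← hgen]; congr 1; ext t; simp) _ h1)

end Pool.Agent.Helper320.PCH
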