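import Pool.Agent.Helper320.PCH.FinB

/-!
Images of products of open curves: the criterion with one exceptional factor.
-/

set_option autoImplicit false
set_option linter.overlappingInstances false
set_option linter.unusedSectionVars false
set_option maxHeartbeats 4000000
set_option synthInstance.maxHeartbeats 400000

open FF Pool.Agent.W603.LV
open Pool.Agent.W602.GT (IsPluri Divisorial RegAt LogAt KodGe LogSec Psef)
open Pool.Agent.W619.PQ (extForm)
open Pool.Agent.W619.PL (IsA1Uniruled)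
open Pool.Agent.Y172 (exists_crd exists_lift lift_dual pluri_coord)
open Pool.Agent.Helper320.PC (form_eq)
open Pool.Agent.Helper320.PCL

namespace Pool.Agent.Helper320.PCH

section

variable {K L : Type} [Field K] [Field L] [Algebra ℂ K]
  [Algebra L K] [FiniteDimensional L K] {n : ℕ}
  (F : Fin n → IntermediateField ℂ K) (b : Fin n → ℕ) (μ : Fin n → ℕ) (j : Fin n)
  (hmax : ∀ i, b i ≤ b j)

/-- the exceptional factor is moved to a new block -/
def newb : Fin n → ℕ := fun i => if i = j then b j + 1 else b i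

theorem newb_self : newb b j j = b j + 1 := if_pos rfl

theorem newb_ne {i : Fin n} (h : i ≠ j) : newb b j i = b i := if_neg h

include hmax in
theorem newb_filter_lt {k : ℕ} (hk : k < b j) (J : Finset (Fin n)) :
    (Finset.univ.filter fun i => newb b j i ≤ k ∧ i ∉ J) =
      Finset.univ.filter fun i => b i ≤ k ∧ i ∉ J := by
  ext i
  simp only [Finset.mem_filter, Finset.mem_univ, true_and]
  by_cases hi : i = j
  · subst hi
    rw [newb_self]
    omega
  · rw [newb_ne b j hi]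

include hmax in
/-- the degrees in the last block -/
theorem step_last
    (hj : ¬ dg L F (Finset.univ.filter fun i => b i ≤ b j) ≤
      dg L F (Finset.univ.filter fun i => b i ≤ b j ∧ i ∉ ({j} : Finset (Fin n))) * (μ j + 1))
    (J : Finset (Fin n)) (hJj : j ∉ J) (a : ℕ)
    (h : a * dg L F (Finset.univ.filter fun i => b i ≤ b j) ≤
      dg L F (Finset.univ.filter fun i => b i ≤ b j ∧ i ∉ insert j J) *
        (∑ i ∈ insert j J, μ i + 1)) :
    a * relDeg L F (Finset.univ.filter fun i => newb b j i ≤ b j ∧ i ∉ J) J ≤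
      ∑ i ∈ J, μ i + 1 := by
  classical
  have e1 : (Finset.univ.filter fun i => newb b j i ≤ b j ∧ i ∉ J) =
      Finset.univ.filter fun i => b i ≤ b j ∧ i ∉ insert j J := by
    ext i
    simp only [Finset.mem_filter, Finset.mem_univ, true_and, Finset.mem_insert, not_or]
    by_cases hi : i = j
    · subst hi
      rw [newb_self]
      simp
    · rw [newb_ne b j hi]
      simp [hi]
  rw [e1]
  have e2 : (Finset.univ.filter fun i => b i ≤ b j ∧ i ∉ insert j J) ∪ J =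
      Finset.univ.filter fun i => b i ≤ b j ∧ i ∉ ({j} : Finset (Fin n)) := by
    ext i
    simp only [Finset.mem_union, Finset.mem_filter, Finset.mem_univ, true_and,
      Finset.mem_insert, not_or, Finset.mem_singleton]
    constructor
    · rintro (⟨h1, h2, h3⟩ | h1)
      · exact ⟨h1, h2⟩
      · exact ⟨hmax i, fun h2 => hJj (h2 ▸ h1)⟩
    · rintro ⟨h1, h2⟩
      by_cases h3 : i ∈ J
      · exact Or.inr h3
      · exact Or.inl ⟨h1, h2, h3⟩
  have e3 : (Finset.univ.filter fun i => b i ≤ b j ∧ i ∉ ({j} : Finset (Fin n))) ∪ {j} =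
      Finset.univ.filter fun i => b i ≤ b j := by
    ext i
    simp only [Finset.mem_union, Finset.mem_filter, Finset.mem_univ, true_and,
      Finset.mem_singleton]
    constructor
    · rintro (h1 | h1)
      · exact h1.1
      · rw [h1]
    · intro h1
      by_cases h3 : i = j
      · exact Or.inr h3
      · exact Or.inl ⟨h1, h3⟩
  obtain ⟨S, hS⟩ : ∃ S, S = Finset.univ.filter fun i => b i ≤ b j ∧ i ∉ insert j J := ⟨_, rfl⟩
  have h1 := dg_mul (L := L) F (Finset.univ.filter fun i => b i ≤ b j ∧ i ∉ insert j J) J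
  rw [e2] at h1
  have h2 := dg_mul (L := L) F
    (Finset.univ.filter fun i => b i ≤ b j ∧ i ∉ ({j} : Finset (Fin n))) {j}
  rw [e3] at h2
  rw [Finset.sum_insert hJj] at h
  rw [← hS] at h h1 ⊢
  obtain ⟨d1, hd1⟩ : ∃ d1, d1 = dg L F S := ⟨_, rfl⟩
  obtain ⟨d2, hd2⟩ : ∃ d2, d2 = dg L F
    (Finset.univ.filter fun i => b i ≤ b j ∧ i ∉ ({j} : Finset (Fin n))) := ⟨_, rfl⟩
  obtain ⟨d3, hd3⟩ : ∃ d3, d3 = dg L F (Finset.univ.filter fun i => b i ≤ b j) := ⟨_, rfl⟩
  obtain ⟨e, he⟩ : ∃ e, e = relDeg L F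
    (Finset.univ.filter fun i => b i ≤ b j ∧ i ∉ ({j} : Finset (Fin n))) {j} := ⟨_, rfl⟩
  obtain ⟨y, hy⟩ : ∃ y, y = relDeg L F S J := ⟨_, rfl⟩
  obtain ⟨s, hs⟩ : ∃ s, s = ∑ i ∈ J, μ i := ⟨_, rfl⟩
  have hd1pos : 0 < d1 := by rw [hd1]; exact dg_pos F _
  rw [← hd1, ← hd2, ← hy] at h1
  rw [← hd2, ← hd3, ← he] at h2
  rw [← hd2, ← hd3] at hj
  rw [← hd1, ← hd3, ← hs] at h
  rw [← hy, ← hs]
  have h3 : μ j + 2 ≤ e := by
    by_contra hcon
    apply hj
    rw [← h2]
    exact Nat.mul_le_mul_left _ (by omega)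
  have h4 : a * y * (μ j + 2) ≤ μ j + s + 1 := by
    refine Nat.le_of_mul_le_mul_left ?_ hd1pos
    calc d1 * (a * y * (μ j + 2)) = a * ((d1 * y) * (μ j + 2)) := by ring
      _ ≤ a * ((d1 * y) * e) := Nat.mul_le_mul_left _ (Nat.mul_le_mul_left _ h3)
      _ = a * d3 := by rw [h1, h2]
      _ ≤ d1 * (μ j + s + 1) := h
  by_contra hcon
  have h5 : s + 2 ≤ a * y := by omega
  have h6 : (s + 2) * (μ j + 2) ≤ a * y * (μ j + 2) := Nat.mul_le_mul_right _ h5
  nlinarith [Nat.zero_le (s * μ j), Nat.zero_le s, Nat.zero_le (μ j)]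

end

section

variable {m : ℕ} {K : Type} [Field K] [Algebra ℂ K]
  (hK : Algebra.trdeg ℂ K = (m + 1 : ℕ)) (F : Fin (m + 1) → IntermediateField ℂ K)
  [hF : ∀ i, IsFF ℂ (F i)] (B : ∀ i, Finset (Place ℂ (F i))) (hsup : ⨆ i, F i = ⊤)
  (L : Type) [Field L] [Algebra ℂ L] [Algebra L K] [IsScalarTower ℂ L K]
  [FiniteDimensional L K] (b : Fin (m + 1) → ℕ) (μ : Fin (m + 1) → ℕ)
  (hγ : ∀ i, LGonGe ℂ (F i) (B i) (μ i + 2)) (BL : Place ℂ L → Prop)
  (hBL : ∀ (P : Place ℂ L) (Q : Place ℂ K) (e : ℕ), Over Q P e → (BL P ↔ BdK F B Q))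

include hK hsup hγ hBL

/-- the relation over the compositum with all factors but one implies `A¹`-uniruled -/
theorem a1_of_rel' (D0 : ∀ i, Derivation ℂ (F i) (F i)) (hD0 : ∀ i, D0 i ≠ 0) (x : ∀ i, F i)
    (hx : ∀ i, Transcendental ℂ (x i)) {z : Fin (m + 1) → L}
    {E : Fin (m + 1) → Derivation ℂ L L}
    (hz : IsTranscendenceBasis ℂ z) (hE : ∀ i j, E i (z j) = if i = j then 1 else 0)
    {E' : Fin (m + 1) → Derivation ℂ K K}
    (hE' : ∀ i f, E' i (algebraMap L K f) = algebraMap L K (E i f)) (i : Fin (m + 1))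
    (L' : IntermediateField L K)
    (hL' : L' = IntermediateField.adjoin L (⋃ j ∈ Finset.univ.erase i, (F j : Set K)))
    (hrel : ∀ c : ∀ i, F i, (∀ i, IsLogD (B i) (D0 i) (c i)) →
      Algebra.trace L' K (extForm (K := K) 1 D0 x c E') = 0) :
    IsA1Uniruled ℂ L (m + 1) BL := by
  classical
  have hzK : IsTranscendenceBasis ℂ (fun j => algebraMap L K (z j)) := hz.algebraMap_comp
  have hE'd := lift_dual hE hE'
  choose c0 hc0 hc0r using fun i => exists_log (hγ i) (Nat.le_add_left 2 _) (hD0 i)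
  have hmem : ∀ z : L, algebraMap L K z ∈ L'.restrictScalars ℂ := fun z => L'.algebraMap_mem z
  have hfin : FiniteDimensional (L'.restrictScalars ℂ) K :=
    inferInstanceAs (FiniteDimensional L' K)
  refine a1_sub L (L'.restrictScalars ℂ) hmem BL (a1_of_rel (t_UNI t_TWO t_P1)
    (t_A1 t_EXT t_P1) hK F B
    hsup D0 hD0 x hx c0 hc0 hc0r (L'.restrictScalars ℂ) i
    (fun j hji z hz => ?_) (fun l => hmem (z l)) hzK hE'd (fun c hc => ?_) _
    fun v Q e hQ hv => ?_)
  · show z ∈ L'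
    rw [hL']
    exact IntermediateField.subset_adjoin L _
      (Set.mem_iUnion₂.2 ⟨j, Finset.mem_erase.2 ⟨hji, Finset.mem_univ j⟩, hz⟩)
  · have h5 : ((Algebra.trace L' K (extForm (K := K) 1 D0 x c E') : L') : K) = 0 := by
      rw [hrel c hc]
      rfl
    exact Subtype.ext h5
  · obtain ⟨Q', e0, P, e', h3, h4, h5⟩ := hv
    obtain ⟨e'', h6⟩ := over_mid (L'.restrictScalars ℂ) hmem hQ h3 h4
    exact (hBL P Q e'' h6).1 h5

/-- **`A¹`-uniruled or of large Kodaira dimension.** -/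
theorem kodP (Λ : Finset (Fin (m + 1)))
    (hA : ∀ k, ∀ J : Finset (Fin (m + 1)), J.Nonempty → (∀ i ∈ J, b i = k) →
      (2 ≤ J.card ∨ ∃ i, k < b i) →
      dg L F (Finset.univ.filter fun i => b i ≤ k) ≤
        dg L F (Finset.univ.filter fun i => b i ≤ k ∧ i ∉ J) * (∑ i ∈ J, μ i + 1))
    (hB : ∀ k, ∀ J : Finset (Fin (m + 1)), (∃ l ∈ J, l ∈ Λ) → (∀ i ∈ J, b i = k) →
      2 * dg L F (Finset.univ.filter fun i => b i ≤ k) ≤
        dg L F (Finset.univ.filter fun i => b i ≤ k ∧ i ∉ J) * (∑ i ∈ J, μ i + 1))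
    (hC : ∀ k, (∃ l ∈ Λ, k < b l) → ∀ J : Finset (Fin (m + 1)), J.Nonempty →
      (∀ i ∈ J, b i = k) →
      2 * dg L F (Finset.univ.filter fun i => b i ≤ k) ≤
        dg L F (Finset.univ.filter fun i => b i ≤ k ∧ i ∉ J) * (∑ i ∈ J, μ i + 2)) :
    IsA1Uniruled ℂ L (m + 1) BL ∨ (KodGe ℂ L (m + 1) BL Λ.card ∧
      ∃ ω : (Fin (m + 1) → Derivation ℂ L L) → L, LogSec ℂ L (m + 1) 1 BL ω ∧ ∃ D, ω D ≠ 0) := by
  classical
  have hess : Algebra.EssFiniteType ℂ K := Pool.Agent.Helper320.PC.ess_sup F hsup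
  have hL : Algebra.trdeg ℂ L = (m + 1 : ℕ) := Pool.Agent.Y184.NT.trdeg_below (K := K) hK
  have halg : ∀ z : K, IsAlgebraic (⨆ i, F i : IntermediateField ℂ K) z := by
    intro z
    have hz : z ∈ (⨆ i, F i : IntermediateField ℂ K) := by rw [hsup]; trivial
    exact isAlgebraic_algebraMap (⟨z, hz⟩ : (⨆ i, F i : IntermediateField ℂ K))
  have hBL' : ∀ (P : Place ℂ L) (Q : Place ℂ K) (e : ℕ), Over Q P e → BdK F B Q → BL P :=
    fun P Q e hQ => (hBL P Q e hQ).2
  by_cases hall : ∀ k, ∀ J : Finset (Fin (m + 1)), J.Nonempty → (∀ i ∈ J, b i = k) →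
      dg L F (Finset.univ.filter fun i => b i ≤ k) ≤
        dg L F (Finset.univ.filter fun i => b i ≤ k ∧ i ∉ J) * (∑ i ∈ J, μ i + 1)
  · exact Or.inr ⟨kodV hK F B halg L b μ hγ BL hBL' Λ hall hB hC,
      secV hK F B halg L b μ hγ BL hBL' hall⟩
  push Not at hall
  obtain ⟨k, J, hJ0, hJk, hnA⟩ := hall
  have hnA' : ¬ (2 ≤ J.card ∨ ∃ i, k < b i) := fun h => absurd (hA k J hJ0 hJk h) (not_le.2 hnA)
  have hcard : J.card = 1 := by
    have h1 : ¬ 2 ≤ J.card := fun h => hnA' (Or.inl h)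
    have h2 := Finset.card_pos.2 hJ0
    omega
  obtain ⟨j, rfl⟩ := Finset.card_eq_one.1 hcard
  have hjk : b j = k := hJk j (Finset.mem_singleton_self j)
  subst hjk
  have hmax : ∀ i, b i ≤ b j := fun i => not_lt.1 fun h => hnA' (Or.inr ⟨i, h⟩)
  rw [Finset.sum_singleton] at hnA
  have hj := not_le.2 hnA
  have hIb : ∀ i, i ∈ Finset.univ.erase j ↔ newb b j i < b j + 1 := by
    intro i
    rw [Finset.mem_erase]
    by_cases hi : i = j
    · subst hi
      rw [newb_self]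
      simp
    · rw [newb_ne b j hi]
      exact ⟨fun _ => Nat.lt_succ_of_le (hmax i), fun _ => ⟨hi, Finset.mem_univ i⟩⟩
  have hins : ∀ J : Finset (Fin (m + 1)), (∀ i ∈ J, b i = b j) → ∀ i ∈ insert j J, b i = b j := by
    intro J hJ i hi
    rcases Finset.mem_insert.1 hi with rfl | hi
    · rfl
    · exact hJ i hi
  have hjJ : ∀ k < b j + 1, ∀ J : Finset (Fin (m + 1)), (∀ i ∈ J, newb b j i = k) →
      j ∉ J ∧ ∀ i ∈ J, b i = k := by
    intro k hk J hJk
    have hjJ : j ∉ J := fun h => by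
      have := hJk j h
      rw [newb_self] at this
      omega
    refine ⟨hjJ, fun i hi => ?_⟩
    rw [← newb_ne b j (fun h => hjJ (h ▸ hi))]
    exact hJk i hi
  have hA' : ∀ k < b j + 1, ∀ J : Finset (Fin (m + 1)), J.Nonempty →
      (∀ i ∈ J, newb b j i = k) →
      relDeg L F (Finset.univ.filter fun i => newb b j i ≤ k ∧ i ∉ J) J ≤
        ∑ i ∈ J, μ i + 1 := by
    intro k hk J hJ hJk
    obtain ⟨hjJ, hbJ⟩ := hjJ k hk J hJk
    rcases (Nat.lt_succ_iff.1 hk).lt_or_eq with hlt | rfl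
    · rw [newb_filter_lt b j hmax hlt]
      have h1 := relDeg_le_iff (L := L) F b k (∑ i ∈ J, μ i + 1) J hbJ 1
        (by rw [one_mul]; exact hA k J hJ hbJ (Or.inr ⟨j, hlt⟩))
      rwa [one_mul] at h1
    · have h1 := step_last F b μ j hmax hj J hjJ 1 (by
        rw [one_mul]
        refine hA (b j) (insert j J) (Finset.insert_nonempty _ _) (hins J hbJ) (Or.inl ?_)
        rw [Finset.card_insert_of_notMem hjJ]
        have := Finset.card_pos.2 hJ
        omega)
      rwa [one_mul] at h1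
  have hjΛ : j ∉ Λ := by
    intro h
    have h1 := hB (b j) {j} ⟨j, Finset.mem_singleton_self j, h⟩
      (fun i hi => by rw [Finset.mem_singleton.1 hi])
    rw [Finset.sum_singleton] at h1
    omega
  have hΛ : ∀ l ∈ Λ, l ≠ j := fun l hl h => hjΛ (h ▸ hl)
  have hB' : ∀ l ∈ Λ, ∀ J : Finset (Fin (m + 1)), l ∈ J → (∀ i ∈ J, newb b j i = newb b j l) →
      2 * relDeg L F (Finset.univ.filter fun i => newb b j i ≤ newb b j l ∧ i ∉ J) J ≤
        ∑ i ∈ J, μ i + 1 := by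
    intro l hl J hlJ hJk
    rw [newb_ne b j (hΛ l hl)] at hJk ⊢
    obtain ⟨hjJ, hbJ⟩ := hjJ (b l) (Nat.lt_succ_of_le (hmax l)) J hJk
    rcases (hmax l).lt_or_eq with hlt | heq
    · rw [newb_filter_lt b j hmax hlt]
      exact relDeg_le_iff (L := L) F b (b l) _ J hbJ 2 (hB (b l) J ⟨l, hlJ, hl⟩ hbJ)
    · rw [heq] at hbJ ⊢
      exact step_last F b μ j hmax hj J hjJ 2
        (hB (b j) (insert j J) ⟨l, Finset.mem_insert_of_mem hlJ, hl⟩ (hins J hbJ))
  have hC' : ∀ l ∈ Λ, ∀ k < newb b j l, ∀ J : Finset (Fin (m + 1)), J.Nonempty →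
      (∀ i ∈ J, newb b j i = k) →
      2 * relDeg L F (Finset.univ.filter fun i => newb b j i ≤ k ∧ i ∉ J) J ≤
        ∑ i ∈ J, μ i + 2 := by
    intro l hl k hk J hJ hJk
    rw [newb_ne b j (hΛ l hl)] at hk
    have hkj : k < b j := lt_of_lt_of_le hk (hmax l)
    obtain ⟨hjJ, hbJ⟩ := hjJ k (by omega) J hJk
    rw [newb_filter_lt b j hmax hkj]
    exact relDeg_le_iff (L := L) F b k _ J hbJ 2 (hC k ⟨l, hl, hk⟩ J hJ hbJ)
  obtain ⟨D0, hD0def⟩ : ∃ D0 : ∀ i, Derivation ℂ (F i) (F i), D0 = fun i => der ℂ (F i) :=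
    ⟨_, rfl⟩
  have hD0 : ∀ i, D0 i ≠ 0 := fun i => by rw [hD0def]; exact der_ne
  choose x hx using fun i => IsFF.exists_transcendental (k := ℂ) (K := F i)
  obtain ⟨z, E, hz, hE⟩ := exists_crd (k := ℂ) (K := L) hL
  choose E' hE' using fun i => exists_lift (k := ℂ) (K := L) (L := K) hL (E i)
  by_cases hA1 : IsA1Uniruled ℂ L (m + 1) BL
  · exact Or.inl hA1
  have hno := fun hrel => hA1 (a1_of_rel' hK F B hsup L μ hγ BL hBL D0 hD0 x hx hz hE hE' j _ rfl
    hrel)
  refine Or.inr ⟨?_, ?_⟩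
  · rcases dichB hK F B halg L D0 hD0 x hx hz hE hE' BL hBL' (newb b j) (b j + 1)
      (Finset.univ.erase j) hIb _ rfl μ hγ hA' Λ
      (fun l hl => Finset.mem_erase.2 ⟨hΛ l hl, Finset.mem_univ l⟩) hB' hC' with h | h
    · exact h
    · exact (hno fun c hc => h c fun i _ => hc i).elim
  · by_contra hcon
    refine hno fun c hc => ?_
    rw [form_eq F D0 x c E' rfl]
    refine rel_over F B (newb b j) (b j + 1) (Finset.univ.erase j) hIb _ rfl μ hγ hA' D0 hD0
      _ (fun c hc => ?_) c fun i _ => hc i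
    rw [← form_eq F D0 x c E' rfl]
    refine rel_of_genus hK F B L D0 hD0 x hx hz hE hE' BL hBL' (fun ω hω D => ?_) c hc
    by_contra hne
    exact hcon ⟨ω, hω, D, hne⟩

end

end Pool.Agent.Helper320.PCH
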