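import Pool.Agent.Helper320.PCL.Sepj
import Pool.Agent.Helper320.PCL.Rrl

/-!
Separation of the points of an open curve over an arbitrary extension of the field of constants, with
simple and double zeros.
-/

set_option autoImplicit false
set_option linter.overlappingInstances false
set_option linter.unusedSectionVars false
set_option maxHeartbeats 4000000
set_option synthInstance.maxHeartbeats 400000

open FF Pool.Agent.W603.LV
open Pool.Agent.Helper320.PCL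

namespace Pool.Agent.Helper320.PCH

namespace SEPM

open Pool.Agent.Helper320.PC.SEPJ (exists_ev exists_pl ge_const exists_notMem)
open Pool.Agent.Helper320.PCL.SEPJL (bt_eq_zero exists_h exists_gens)

/-- The specialisation argument. -/
theorem core {k F Ω : Type} [Field k] [Field F] [Algebra k F] [CharZero k] [IsFF k F]
    [IsAlgClosed k] [Field Ω] [Algebra k Ω] (hRRL : S_RRL) (B : Finset (Place k F)) {T : Finset (F →ₐ[k] Ω)}
    {q : F →ₐ[k] Ω} (hqT : q ∉ T) (T2 : Finset (F →ₐ[k] Ω)) (hT2 : T2 ⊆ T) (e : ℕ)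
    (hgon : ∀ t : F, Transcendental k t → (∀ P ∈ B, 0 < P.ord t) →
      T.card + T2.card + e + 2 ≤ Module.finrank (IntermediateField.adjoin k {t}) F)
    {D : Derivation k F F} (hD : D ≠ 0) (β₁ β₂ : Ω) (a a' : T → Ω)
    (ha' : ∀ t : T, t.1 ∉ T2 → a' t = 0)
    (he : (e = 0 ∧ β₁ = 1 ∧ β₂ = 0) ∨ (e = 1 ∧ β₂ = 1))
    (hrel : ∀ c : F, IsLogD B D c →
      β₁ * q c + β₂ * q (D c) = ∑ t : T, (a t * t.1 c + a' t * t.1 (D c))) : False := by
  classical
  -- the affine model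
  obtain ⟨x, hx⟩ := IsFF.exists_transcendental (k := k) (K := F)
  obtain ⟨h, hh0, hh, hhb⟩ := exists_h B hD
  obtain ⟨G, hG⟩ := exists_gens B hD
  have hu : ∀ t : T, ∃ u : F, t.1 u ≠ q u := by
    intro t
    by_contra hc
    push Not at hc
    exact hqT ((AlgHom.ext hc : t.1 = q) ▸ t.2)
  choose u hu using hu
  let Gen : Finset F := G ∪ G.image D ∪ {x, h} ∪ Finset.univ.image u
  let A : Subalgebra k F := Algebra.adjoin k (Gen : Set F)
  have hGB : ∀ b ∈ Gen, b ∈ A := fun b hb => Algebra.subset_adjoin hb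
  have hxB : x ∈ A := hGB x (by simp [Gen])
  have hhB : h ∈ A := hGB h (by simp [Gen])
  have huB : ∀ t, u t ∈ A := fun t => hGB _ (by simp [Gen])
  have hcB : ∀ c : F, IsLogD B D c → c ∈ A := by
    intro c hc
    have h1 : Submodule.span k (G : Set F) ≤ Subalgebra.toSubmodule A := by
      rw [Submodule.span_le]
      intro g hg
      exact hGB g (by simp only [Gen, Finset.mem_union]; exact Or.inl (Or.inl (Or.inl hg)))
    exact h1 (hG c hc)
  have hdB : ∀ c : F, IsLogD B D c → D c ∈ A := by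
    intro c hc
    have h1 : Submodule.span k (G : Set F) ≤
        (Subalgebra.toSubmodule A).comap (D : F →ₗ[k] F) := by
      rw [Submodule.span_le]
      intro g hg
      refine hGB (D g) ?_
      simp only [Gen, Finset.mem_union]
      exact Or.inl (Or.inl (Or.inr (Finset.mem_image_of_mem _ hg)))
    exact h1 (hG c hc)
  -- the ring of the coefficients
  let RG : Finset Ω := Finset.univ.image a ∪ Finset.univ.image (fun p : T × Gen => p.1.1 p.2.1) ∪
    Finset.univ.image (fun g : Gen => q g.1) ∪ Finset.univ.image (fun t : T => (t.1 h)⁻¹) ∪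
    {(q h)⁻¹} ∪ Finset.univ.image (fun t : T => (t.1 (u t) - q (u t))⁻¹) ∪
    Finset.univ.image a' ∪ {β₁, β₂}
  let R : Subalgebra k Ω := Algebra.adjoin k (RG : Set Ω)
  have hRR : ∀ b ∈ RG, b ∈ R := fun b hb => Algebra.subset_adjoin hb
  have haR : ∀ t, a t ∈ R := fun t => hRR _ (by
    simp only [RG, Finset.mem_union, Finset.mem_image, Finset.mem_univ, true_and]
    exact Or.inl (Or.inl (Or.inl (Or.inl (Or.inl (Or.inl (Or.inl ⟨t, rfl⟩)))))))
  have haR' : ∀ t, a' t ∈ R := fun t => hRR _ (by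
    simp only [RG, Finset.mem_union, Finset.mem_image, Finset.mem_univ, true_and]
    exact Or.inl (Or.inr ⟨t, rfl⟩))
  have hβ₁ : β₁ ∈ R := hRR _ (by simp [RG])
  have hβ₂ : β₂ ∈ R := hRR _ (by simp [RG])
  have htR : ∀ (t : T) (b : F), b ∈ A → t.1 b ∈ R := by
    intro t b hb
    have h1 : A ≤ R.comap t.1 := by
      rw [Algebra.adjoin_le_iff]
      intro g hg
      refine hRR _ ?_
      simp only [RG, Finset.mem_union, Finset.mem_image, Finset.mem_univ, true_and]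
      exact Or.inl (Or.inl (Or.inl (Or.inl (Or.inl (Or.inl (Or.inr ⟨(t, ⟨g, hg⟩), rfl⟩))))))
    exact h1 hb
  have hqR : ∀ (b : F), b ∈ A → q b ∈ R := by
    intro b hb
    have h1 : A ≤ R.comap q := by
      rw [Algebra.adjoin_le_iff]
      intro g hg
      refine hRR _ ?_
      simp only [RG, Finset.mem_union, Finset.mem_image, Finset.mem_univ, true_and]
      exact Or.inl (Or.inl (Or.inl (Or.inl (Or.inl (Or.inr ⟨⟨g, hg⟩, rfl⟩)))))
    exact h1 hb
  have hthR : ∀ t : T, (t.1 h)⁻¹ ∈ R := fun t => hRR _ (by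
    simp only [RG, Finset.mem_union, Finset.mem_image, Finset.mem_univ, true_and]
    exact Or.inl (Or.inl (Or.inl (Or.inl (Or.inr ⟨t, rfl⟩)))))
  have hqhR : (q h)⁻¹ ∈ R := hRR _ (by
    simp only [RG, Finset.mem_union, Finset.mem_image, Finset.mem_univ, true_and,
      Finset.mem_singleton]
    exact Or.inl (Or.inl (Or.inl (Or.inr trivial))))
  have huR : ∀ t : T, (t.1 (u t) - q (u t))⁻¹ ∈ R := fun t => hRR _ (by
    simp only [RG, Finset.mem_union, Finset.mem_image, Finset.mem_univ, true_and]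
    exact Or.inl (Or.inl (Or.inr ⟨t, rfl⟩)))
  have : Algebra.FiniteType k R :=
    (Subalgebra.fg_iff_finiteType R).1 (Subalgebra.fg_adjoin_finset RG)
  obtain ⟨φ⟩ := exists_ev (k := k) (R := R)
  -- the points
  let pt : T → (A →ₐ[k] k) := fun t =>
    φ.comp ((t.1.comp A.val).codRestrict R (fun b => htR t b.1 b.2))
  let pq : A →ₐ[k] k := φ.comp ((q.comp A.val).codRestrict R (fun b => hqR b.1 b.2))
  have hpt : ∀ (t : T) (b : A), pt t b = φ ⟨t.1 b.1, htR t b.1 b.2⟩ := fun t b => rfl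
  have hpq : ∀ (b : A), pq b = φ ⟨q b.1, hqR b.1 b.2⟩ := fun b => rfl
  have hinv : ∀ (z : Ω) (hz : z ∈ R) (hz' : z⁻¹ ∈ R), z ≠ 0 → φ ⟨z, hz⟩ ≠ 0 := by
    intro z hz hz' hz0 h0
    have h1 : (⟨z, hz⟩ : R) * ⟨z⁻¹, hz'⟩ = 1 := Subtype.ext (mul_inv_cancel₀ hz0)
    have h2 := congrArg φ h1
    rw [map_mul, h0, zero_mul, map_one] at h2
    exact zero_ne_one h2
  have hth0 : ∀ t : T, pt t ⟨h, hhB⟩ ≠ 0 := fun t =>
    hinv _ _ (hthR t) ((map_ne_zero_iff _ t.1.injective).2 hh0)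
  have hqh0 : pq ⟨h, hhB⟩ ≠ 0 := hinv _ _ hqhR ((map_ne_zero_iff _ q.injective).2 hh0)
  have htu : ∀ t : T, pt t ⟨u t, huB t⟩ ≠ pq ⟨u t, huB t⟩ := by
    intro t h1
    have h2 : t.1 (u t) - q (u t) ∈ R := sub_mem (htR t _ (huB t)) (hqR _ (huB t))
    have h3 := hinv _ h2 (huR t) (sub_ne_zero.2 (hu t))
    apply h3
    have h4 : (⟨t.1 (u t) - q (u t), h2⟩ : R) = ⟨t.1 (u t), htR t _ (huB t)⟩ -
        ⟨q (u t), hqR _ (huB t)⟩ := rfl
    rw [h4, map_sub]
    exact sub_eq_zero.2 h1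
  -- the places
  choose Pt hPt using fun t : T => exists_pl A hxB hx (pt t)
  obtain ⟨Pq, hPq⟩ := exists_pl A hxB hx pq
  have hvan : ∀ (P : Place k F) (χ : A →ₐ[k] k),
      (∀ b : A, Ge P 1 ((b : F) - algebraMap k F (χ b))) → ∀ (b : F) (hb : b ∈ A), Ge P 1 b →
        χ ⟨b, hb⟩ = 0 := by
    intro P χ h1 b hb h2
    have h3 := h2.sub (h1 ⟨b, hb⟩)
    have h4 : b - (((⟨b, hb⟩ : A) : F) - algebraMap k F (χ ⟨b, hb⟩)) =
        algebraMap k F (χ ⟨b, hb⟩) := by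
      show b - (b - algebraMap k F (χ ⟨b, hb⟩)) = _
      ring
    rw [h4] at h3
    exact ge_const h3
  have hnvan : ∀ (P : Place k F) (χ : A →ₐ[k] k),
      (∀ b : A, Ge P 1 ((b : F) - algebraMap k F (χ b))) → ∀ (b : F) (hb : b ∈ A), b ≠ 0 →
        P.ord b = 0 → χ ⟨b, hb⟩ ≠ 0 := by
    intro P χ h1 b hb hb0 hb1 h2
    have h3 := h1 ⟨b, hb⟩
    rw [h2, map_zero, sub_zero] at h3
    have h4 := h3.resolve_left hb0
    have h5 : P.ord ((⟨b, hb⟩ : A) : F) = 0 := hb1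
    omega
  have hvo : ∀ (P : Place k F) (χ : A →ₐ[k] k),
      (∀ b : A, Ge P 1 ((b : F) - algebraMap k F (χ b))) → χ ⟨h, hhB⟩ ≠ 0 → vo P D = 0 := by
    intro P χ h1 h2
    by_contra h3
    exact h2 (hvan P χ h1 h hhB (Or.inr (hh P h3)))
  have hPB : ∀ (P : Place k F) (χ : A →ₐ[k] k),
      (∀ b : A, Ge P 1 ((b : F) - algebraMap k F (χ b))) → χ ⟨h, hhB⟩ ≠ 0 → P ∉ B := by
    intro P χ h1 h2 h3
    exact h2 (hvan P χ h1 h hhB (Or.inr (hhb P h3)))
  have hPtB : ∀ t : T, Pt t ∉ B := fun t => hPB (Pt t) (pt t) (hPt t) (hth0 t)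
  have hPqB : Pq ∉ B := hPB Pq pq hPq hqh0
  have hne : ∀ t : T, Pt t ≠ Pq := by
    intro t h1
    apply htu t
    have h2 := hPt t ⟨u t, huB t⟩
    have h3 := hPq ⟨u t, huB t⟩
    rw [h1] at h2
    have h4 := h3.sub h2
    have h5 : ((⟨u t, huB t⟩ : A) : F) - algebraMap k F (pq ⟨u t, huB t⟩) -
        (((⟨u t, huB t⟩ : A) : F) - algebraMap k F (pt t ⟨u t, huB t⟩)) =
        algebraMap k F (pt t ⟨u t, huB t⟩ - pq ⟨u t, huB t⟩) := by
      rw [map_sub]; ring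
    rw [h5] at h4
    exact sub_eq_zero.1 (ge_const h4)
  let Tb : Finset (Place k F) := Finset.univ.image Pt
  let Tb2 : Finset (Place k F) := (Finset.univ.filter fun t : T => t.1 ∈ T2).image Pt
  have hTb : Tb.card ≤ T.card := by
    refine Finset.card_image_le.trans ?_
    rw [Finset.card_univ, Fintype.card_coe]
  have hTb2 : Tb2.card ≤ T2.card := by
    refine Finset.card_image_le.trans ?_
    refine Finset.card_le_card_of_injOn (fun t => t.1) (fun t ht => ?_) ?_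
    · rw [Finset.mem_coe, Finset.mem_filter] at ht
      exact ht.2
    · intro t _ t' _ h
      exact Subtype.ext h
  have hTb2s : Tb2 ⊆ Tb := Finset.image_subset_image (Finset.filter_subset _ _)
  have hPqT : Pq ∉ Tb := by
    intro h1
    obtain ⟨t, -, h2⟩ := Finset.mem_image.1 h1
    exact hne t h2
  have he1 : e ≤ 1 := by
    rcases he with he | he
    · omega
    · omega
  let Z : Place k F → ℕ := fun Q =>
    if Q ∈ Tb then (if Q ∈ Tb2 then 2 else 1) else if Q = Pq then e else 0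
  have hZt : ∀ Q ∈ Tb, Z Q = if Q ∈ Tb2 then 2 else 1 := fun Q hQ => if_pos hQ
  have hZq : Z Pq = e := by
    show (if Pq ∈ Tb then _ else if Pq = Pq then e else 0) = e
    rw [if_neg hPqT, if_pos rfl]
  have hZ0 : ∀ Q, Q ∉ insert Pq Tb → Z Q = 0 := by
    intro Q hQ
    rw [Finset.mem_insert, not_or] at hQ
    show (if Q ∈ Tb then _ else if Q = Pq then e else 0) = 0
    rw [if_neg hQ.2, if_neg hQ.1]
  have hsum : ∑ Q ∈ insert Pq Tb, Z Q ≤ T.card + T2.card + e := by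
    rw [Finset.sum_insert hPqT, hZq, Finset.sum_congr rfl hZt]
    have h1 : ∑ Q ∈ Tb, (if Q ∈ Tb2 then 2 else 1) =
        ∑ Q ∈ Tb, (1 + if Q ∈ Tb2 then 1 else 0) :=
      Finset.sum_congr rfl fun Q _ => by split_ifs <;> rfl
    rw [h1, Finset.sum_add_distrib, Finset.sum_const, smul_eq_mul, mul_one,
      Finset.sum_ite_mem, Finset.inter_eq_right.2 hTb2s, Finset.sum_const, smul_eq_mul, mul_one]
    omega
  have hTB : ∀ Q ∈ insert Pq Tb, Q ∉ B := by
    intro Q hQ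
    rcases Finset.mem_insert.1 hQ with h1 | h1
    · rw [h1]
      exact hPqB
    · obtain ⟨t, -, h2⟩ := Finset.mem_image.1 h1
      rw [← h2]
      exact hPtB t
  obtain ⟨f, hf0, hf1, hf2⟩ := hRRL B Z (insert Pq Tb) hZ0 hTB Pq hPqB (fun t ht ht' => by
    have := hgon t ht ht'
    omega) hD
  have hfr : IsLogD B D f := fun P => Or.inr (by
    have := hf1 P
    omega)
  have hfB : f ∈ A := hcB f hfr
  have hdfB : D f ∈ A := hdB f hfr
  have hvq : vo Pq D = 0 := hvo Pq pq hPq hqh0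
  rw [hvq, hZq, zero_add] at hf2
  have hft : ∀ t : T, pt t ⟨f, hfB⟩ = 0 ∧ (t.1 ∈ T2 → pt t ⟨D f, hdfB⟩ = 0) := by
    intro t
    have hvt : vo (Pt t) D = 0 := hvo (Pt t) (pt t) (hPt t) (hth0 t)
    have hmt : Pt t ∈ Tb := Finset.mem_image_of_mem _ (Finset.mem_univ _)
    have h1 := hf1 (Pt t)
    rw [hvt, hZt (Pt t) hmt, zero_add, bt_eq_zero (hPtB t), sub_zero] at h1
    have h2 : (1 : ℤ) ≤ (Pt t).ord f := by
      refine le_trans ?_ h1
      split_ifs <;> norm_num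
    refine ⟨hvan (Pt t) (pt t) (hPt t) f hfB (Or.inr (by omega)), fun ht2 => ?_⟩
    have hmt2 : Pt t ∈ Tb2 :=
      Finset.mem_image_of_mem _ (Finset.mem_filter.2 ⟨Finset.mem_univ _, ht2⟩)
    rw [if_pos hmt2] at h1
    have h3 : (2 : ℤ) ≤ (Pt t).ord f := h1
    obtain ⟨-, h4⟩ := ord_der (Pt t) hD (f := f) (by omega)
    exact hvan (Pt t) (pt t) (hPt t) (D f) hdfB (Or.inr (by omega))
  have h1 := hrel f hfr
  have h2 : (⟨β₁, hβ₁⟩ : R) * ⟨q f, hqR f hfB⟩ + (⟨β₂, hβ₂⟩ : R) * ⟨q (D f), hqR _ hdfB⟩ =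
      ∑ t : T, ((⟨a t, haR t⟩ : R) * ⟨t.1 f, htR t f hfB⟩ +
        (⟨a' t, haR' t⟩ : R) * ⟨t.1 (D f), htR t _ hdfB⟩) := by
    apply Subtype.ext
    rw [AddSubmonoidClass.coe_finsetSum]
    exact h1
  have h3 := congrArg φ h2
  rw [map_sum, map_add, map_mul, map_mul] at h3
  have h4 : ∑ t : T, φ ((⟨a t, haR t⟩ : R) * ⟨t.1 f, htR t f hfB⟩ +
        (⟨a' t, haR' t⟩ : R) * ⟨t.1 (D f), htR t _ hdfB⟩) = 0 := by
    refine Finset.sum_eq_zero fun t _ => ?_
    rw [map_add, map_mul, map_mul]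
    obtain ⟨h5, h6⟩ := hft t
    rw [hpt] at h5
    rw [h5, mul_zero, zero_add]
    by_cases ht2 : t.1 ∈ T2
    · have h7 := h6 ht2
      rw [hpt] at h7
      rw [h7, mul_zero]
    · have h7 : (⟨a' t, haR' t⟩ : R) = 0 := Subtype.ext (ha' t ht2)
      rw [h7, map_zero, zero_mul]
  rw [h4] at h3
  rcases he with ⟨he0, hb1, hb2⟩ | ⟨he0, hb2⟩
  · subst hb1
    subst hb2
    have h5 : φ (⟨1, hβ₁⟩ : R) = 1 := map_one φ
    have h6 : φ (⟨0, hβ₂⟩ : R) = 0 := map_zero φ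
    rw [h5, h6, one_mul, zero_mul, add_zero] at h3
    rw [he0] at hf2
    exact hnvan Pq pq hPq f hfB hf0 (by rw [hf2]; rfl) h3
  · subst hb2
    have h5 : φ (⟨1, hβ₂⟩ : R) = 1 := map_one φ
    rw [he0] at hf2
    have hf2' : Pq.ord f = 1 := by rw [hf2]; rfl
    have h6 : pq ⟨f, hfB⟩ = 0 := hvan Pq pq hPq f hfB (Or.inr (by omega))
    rw [hpq] at h6
    rw [h5, h6, mul_zero, one_mul, zero_add] at h3
    obtain ⟨h7, h8⟩ := ord_der Pq hD (f := f) (by omega)
    exact hnvan Pq pq hPq (D f) hdfB h7 (by omega) h3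

end SEPM

open scoped Classical in
theorem sum_dite {X R : Type} [Field R] (T T2 : Finset X) (h : T2 ⊆ T) (a : T2 → R) (b : X → R) :
    ∑ t : T2, a t * b t.1 = ∑ t : T, (if h : t.1 ∈ T2 then a ⟨t.1, h⟩ else 0) * b t.1 := by
  have h1 : ∑ t : T, (if h : t.1 ∈ T2 then a ⟨t.1, h⟩ else 0) * b t.1 =
      ∑ t ∈ T, (if h : t ∈ T2 then a ⟨t, h⟩ else 0) * b t :=
    Finset.sum_coe_sort T fun t => (if h : t ∈ T2 then a ⟨t, h⟩ else 0) * b t
  have h2 : ∑ t : T2, a t * b t.1 = ∑ t ∈ T2, (if h : t ∈ T2 then a ⟨t, h⟩ else 0) * b t := by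
    rw [← Finset.sum_coe_sort T2 fun t => (if h : t ∈ T2 then a ⟨t, h⟩ else 0) * b t]
    refine Finset.sum_congr rfl fun t _ => ?_
    rw [dif_pos t.2]
  rw [h1, h2]
  refine Finset.sum_subset h fun t _ ht => ?_
  rw [dif_neg ht, zero_mul]

open Pool.Agent.Helper320.PCL.SEPJL (ev1 ev2)

/-- a section which does not vanish at `q`, has zeros at the points of `T`, and double zeros at those of
`T2` -/
theorem sep_zero {k F Ω : Type} [Field k] [Field F] [Algebra k F] [CharZero k] [IsFF k F]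
    [IsAlgClosed k] [Field Ω] [Algebra k Ω] (B : Finset (Place k F)) {T : Finset (F →ₐ[k] Ω)}
    {q : F →ₐ[k] Ω} (hq : q ∉ T) (T2 : Finset (F →ₐ[k] Ω)) (hT2 : T2 ⊆ T)
    (hgon : ∀ t : F, Transcendental k t → (∀ P ∈ B, 0 < P.ord t) →
      T.card + T2.card + 2 ≤ Module.finrank (IntermediateField.adjoin k {t}) F)
    {D : Derivation k F F} (hD : D ≠ 0) :
    ∃ w ∈ WspJL Ω B D, (w q).1 ≠ 0 ∧ (∀ t ∈ T, (w t).1 = 0) ∧ ∀ t ∈ T2, (w t).2 = 0 := by
  classical
  by_contra hcon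
  push Not at hcon
  let L : T ⊕ T2 → (WspJL Ω B D →ₗ[Ω] Ω) := Sum.elim (fun t => ev1 B D t.1) (fun t => ev2 B D t.1)
  have hker : ⨅ i, LinearMap.ker (L i) ≤ LinearMap.ker (ev1 B D q) := by
    intro w hw
    rw [Submodule.mem_iInf] at hw
    rw [LinearMap.mem_ker]
    by_contra hwq
    obtain ⟨t, ht, hwt⟩ := hcon w.1 w.2 hwq fun t ht => hw (Sum.inl ⟨t, ht⟩)
    exact hwt (hw (Sum.inr ⟨t, ht⟩))
  have hspan := mem_span_of_iInf_ker_le_ker hker
  rw [Submodule.mem_span_range_iff_exists_fun] at hspan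
  obtain ⟨a, ha⟩ := hspan
  refine SEPM.core t_RRL B hq T2 hT2 0 hgon hD 1 0 (fun t => a (Sum.inl t))
    (fun t => if h : t.1 ∈ T2 then a (Sum.inr ⟨t.1, h⟩) else 0) (fun t ht => dif_neg ht)
    (Or.inl ⟨rfl, rfl, rfl⟩) ?_
  intro c hc
  have hmem : (fun σ : F →ₐ[k] Ω => (σ c, σ (D c))) ∈ WspJL Ω B D :=
    Submodule.subset_span ⟨⟨c, hc⟩, rfl⟩
  have h1 := LinearMap.congr_fun ha ⟨_, hmem⟩
  rw [LinearMap.sum_apply, Fintype.sum_sum_type] at h1
  rw [one_mul, zero_mul, add_zero, Finset.sum_add_distrib]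
  refine h1.symm.trans ?_
  congr 1
  exact sum_dite T T2 hT2 (fun t => a (Sum.inr t)) (fun t => t (D c))

/-- a section which vanishes at `q` to the first order, has zeros at the points of `T`, and double
zeros at those of `T2` -/
theorem sep_one {k F Ω : Type} [Field k] [Field F] [Algebra k F] [CharZero k] [IsFF k F]
    [IsAlgClosed k] [Field Ω] [Algebra k Ω] (B : Finset (Place k F)) {T : Finset (F →ₐ[k] Ω)}
    {q : F →ₐ[k] Ω} (hq : q ∉ T) (T2 : Finset (F →ₐ[k] Ω)) (hT2 : T2 ⊆ T)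
    (hgon : ∀ t : F, Transcendental k t → (∀ P ∈ B, 0 < P.ord t) →
      T.card + T2.card + 3 ≤ Module.finrank (IntermediateField.adjoin k {t}) F)
    {D : Derivation k F F} (hD : D ≠ 0) :
    ∃ w ∈ WspJL Ω B D, (w q).1 = 0 ∧ (w q).2 ≠ 0 ∧ (∀ t ∈ T, (w t).1 = 0) ∧
      ∀ t ∈ T2, (w t).2 = 0 := by
  classical
  by_contra hcon
  push Not at hcon
  let L : Option (T ⊕ T2) → (WspJL Ω B D →ₗ[Ω] Ω) := fun o => match o with
    | none => ev1 B D q
    | some (Sum.inl t) => ev1 B D t.1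
    | some (Sum.inr t) => ev2 B D t.1
  have hker : ⨅ i, LinearMap.ker (L i) ≤ LinearMap.ker (ev2 B D q) := by
    intro w hw
    rw [Submodule.mem_iInf] at hw
    rw [LinearMap.mem_ker]
    by_contra hwq
    obtain ⟨t, ht, hwt⟩ := hcon w.1 w.2 (hw none) hwq fun t ht => hw (some (Sum.inl ⟨t, ht⟩))
    exact hwt (hw (some (Sum.inr ⟨t, ht⟩)))
  have hspan := mem_span_of_iInf_ker_le_ker hker
  rw [Submodule.mem_span_range_iff_exists_fun] at hspan
  obtain ⟨a, ha⟩ := hspan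
  refine SEPM.core t_RRL B hq T2 hT2 1 hgon hD (-(a none)) 1 (fun t => a (some (Sum.inl t)))
    (fun t => if h : t.1 ∈ T2 then a (some (Sum.inr ⟨t.1, h⟩)) else 0) (fun t ht => dif_neg ht)
    (Or.inr ⟨rfl, rfl⟩) ?_
  intro c hc
  have hmem : (fun σ : F →ₐ[k] Ω => (σ c, σ (D c))) ∈ WspJL Ω B D :=
    Submodule.subset_span ⟨⟨c, hc⟩, rfl⟩
  have h1 := LinearMap.congr_fun ha ⟨_, hmem⟩
  rw [LinearMap.sum_apply, Fintype.sum_option, Fintype.sum_sum_type] at h1
  have h2 : a none * q c + (∑ t : T, a (some (Sum.inl t)) * t.1 c +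
      ∑ t : T2, a (some (Sum.inr t)) * t.1 (D c)) = q (D c) := h1
  rw [Finset.sum_add_distrib, one_mul, ← h2,
    sum_dite T T2 hT2 (fun t => a (some (Sum.inr t))) (fun t => t (D c))]
  ring

end Pool.Agent.Helper320.PCH
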