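import Pool.Agent.Helper320.PCH.BlockF
import Pool.Agent.Helper320.PCH.Sepm
import Pool.Agent.Helper320.PCL.Dich

/-!
Correspondences with curves: the relations between the embeddings, block by block.
-/

set_option autoImplicit false
set_option linter.overlappingInstances false
set_option linter.unusedSectionVars false
set_option maxHeartbeats 4000000
set_option synthInstance.maxHeartbeats 400000

open FF Pool.Agent.W603.LV
open Pool.Agent.Helper320.PCL
open Pool.Agent.Helper320.PCL.COREJL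

namespace Pool.Agent.Helper320.PCH

section

variable {K L : Type} [Field K] [Field L] [Algebra ℂ K] [Algebra ℂ L]
  [Algebra L K] [IsScalarTower ℂ L K] [FiniteDimensional L K] {n : ℕ}
  (F : Fin n → IntermediateField ℂ K)

/-- the sum over the embeddings over `L'` -/
theorem trace_of_sum (I : Finset (Fin n)) (L' : IntermediateField L K)
    (hL' : L' = IntermediateField.adjoin L (⋃ i ∈ I, (F i : Set K)))
    (f : (K →ₐ[L] AlgebraicClosure K) → AlgebraicClosure K) (hf : ∑ σ, f σ = 0)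
    (C : AlgebraicClosure K) (hC : C ≠ 0) (g : K)
    (hoff : ∀ σ : K →ₐ[L] AlgebraicClosure K, (∃ i ∈ I, pr F i σ ≠ pr F i (s0 K L)) → f σ = 0)
    (hon : ∀ τ : K →ₐ[L'] AlgebraicClosure K, f (τ.restrictScalars L) = C * τ g) :
    Algebra.trace L' K g = 0 := by
  classical
  have : CharZero L := charZero_of_injective_algebraMap (algebraMap ℂ L).injective
  have : CharZero L' := charZero_of_injective_algebraMap (algebraMap L L').injective
  have : FiniteDimensional L' K := FiniteDimensional.right L L' K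
  have hoff' : ∀ σ : K →ₐ[L] AlgebraicClosure K,
      σ ∉ Finset.univ.image
        (fun τ : K →ₐ[L'] AlgebraicClosure K => (τ.restrictScalars L : K →ₐ[L] _)) →
      f σ = 0 := by
    intro σ hσ
    apply hoff
    by_contra h
    push Not at h
    obtain ⟨τ, hτ⟩ := mem_range F I L' hL' σ h
    exact hσ (Finset.mem_image.2 ⟨τ, Finset.mem_univ _, hτ⟩)
  have h1 := Finset.sum_subset (Finset.subset_univ (Finset.univ.image
    (fun τ : K →ₐ[L'] AlgebraicClosure K => (τ.restrictScalars L : K →ₐ[L] _))))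
    (fun σ _ hσ => hoff' σ hσ)
  rw [Finset.sum_image fun τ _ τ' _ h => restrict_inj L' h, hf,
    Finset.sum_congr rfl fun τ _ => hon τ, ← Finset.mul_sum] at h1
  apply (algebraMap L' (AlgebraicClosure K)).injective
  rw [map_zero, trace_eq_sum_embeddings (AlgebraicClosure K)]
  exact (mul_eq_zero.1 h1).resolve_left hC

variable [∀ i, IsFF ℂ (F i)] (B : ∀ i, Finset (Place ℂ (F i)))

/-- the relation over the compositum with the factors in the blocks before `N` -/
theorem rel_over (b : Fin n → ℕ) (N : ℕ) (I : Finset (Fin n)) (hIb : ∀ i, i ∈ I ↔ b i < N)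
    (L' : IntermediateField L K)
    (hL' : L' = IntermediateField.adjoin L (⋃ i ∈ I, (F i : Set K)))
    (μ : Fin n → ℕ) (hγ : ∀ i, LGonGe ℂ (F i) (B i) (μ i + 2))
    (hA : ∀ k < N, ∀ J : Finset (Fin n), J.Nonempty → (∀ i ∈ J, b i = k) →
      relDeg L F (Finset.univ.filter fun i => b i ≤ k ∧ i ∉ J) J ≤ ∑ i ∈ J, μ i + 1)
    (D : ∀ i, Derivation ℂ (F i) (F i)) (hD : ∀ i, D i ≠ 0) (δ : K)
    (hrel : ∀ c : ∀ i, F i, (∀ i, IsLogD (B i) (D i) (c i)) →
      Algebra.trace L K ((∏ i, (c i : K)) * δ) = 0)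
    (c : ∀ i, F i) (hc : ∀ i, i ∉ I → IsLogD (B i) (D i) (c i)) :
    Algebra.trace L' K ((∏ i, (c i : K)) * δ) = 0 := by
  classical
  have : CharZero L := charZero_of_injective_algebraMap (algebraMap ℂ L).injective
  obtain ⟨T, hT1, hT2, hT3⟩ := core_Tb F b N μ hA
  have hw : ∀ i, ∃ w ∈ WspL (AlgebraicClosure K) (B i) (D i),
      (i ∈ I → w (pr F i (s0 K L)) ≠ 0 ∧ ∀ t ∈ T i, w t = 0) ∧
      (i ∉ I → ∀ s, w s = s (c i)) := by
    intro i
    by_cases hi : i ∈ I
    · obtain ⟨w, h1, h2, h3⟩ := t_SEPL t_RRL (B i) (hT1 i)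
        (fun t ht htB => (Nat.add_le_add_right (hT2 i) 2).trans (hγ i t ht htB)) (hD i)
      exact ⟨w, h1, fun _ => ⟨h2, h3⟩, fun h => absurd hi h⟩
    · exact ⟨fun s => s (c i), Submodule.subset_span ⟨⟨c i, hc i hi⟩, rfl⟩,
        fun h => absurd h hi, fun _ _ => rfl⟩
  choose w hwW hw1 hw2 using hw
  have h1 := t_MULL F B D δ hrel w hwW
  have hC0 : ∏ i ∈ I, w i (pr F i (s0 K L)) ≠ 0 :=
    Finset.prod_ne_zero_iff.2 fun i hi => (hw1 i hi).1
  have hI : ∏ i ∈ I, (c i : K) ∈ L' := by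
    refine prod_mem fun i hi => ?_
    rw [hL']
    refine IntermediateField.subset_adjoin L _ ?_
    simp only [Set.mem_iUnion]
    exact ⟨i, hi, (c i).2⟩
  have h2 : Algebra.trace L' K (δ * ∏ i ∈ Iᶜ, (c i : K)) = 0 := by
    refine trace_of_sum F I L' hL' _ h1 _ hC0 _ ?_ ?_
    · rintro σ ⟨i, hi, hne⟩
      obtain ⟨j, hj, hjT⟩ := hT3 σ ⟨i, (hIb i).1 hi, hne⟩
      have hjI : j ∈ I := (hIb j).2 hj
      exact mul_eq_zero_of_right _
        (Finset.prod_eq_zero (Finset.mem_univ j) ((hw1 j hjI).2 _ hjT))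
    · intro τ
      show (τ.restrictScalars L) δ * ∏ i, w i (pr F i (τ.restrictScalars L)) = _
      rw [← Finset.prod_mul_prod_compl I]
      have h3 : ∏ i ∈ I, w i (pr F i (τ.restrictScalars L)) =
          ∏ i ∈ I, w i (pr F i (s0 K L)) :=
        Finset.prod_congr rfl fun i hi => by rw [pr_of_range F I L' hL' τ i hi]
      have h4 : ∏ i ∈ Iᶜ, w i (pr F i (τ.restrictScalars L)) = ∏ i ∈ Iᶜ, τ (c i : K) :=
        Finset.prod_congr rfl fun i hi => by
          rw [hw2 i (Finset.mem_compl.1 hi)]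
          rfl
      have h5 : (τ.restrictScalars L) δ = τ δ := rfl
      rw [h3, h4, h5, map_mul, map_prod]
      ring
  have hprod : (∏ i, (c i : K)) * δ = (⟨_, hI⟩ : L') • (δ * ∏ i ∈ Iᶜ, (c i : K)) := by
    rw [← Finset.prod_mul_prod_compl I, Algebra.smul_def]
    show _ = (∏ i ∈ I, (c i : K)) * _
    ring
  rw [hprod, map_smul, h2, smul_zero]

/-- the relation with derivatives -/
theorem rel_overJ (b : Fin n → ℕ) (N : ℕ) (I : Finset (Fin n)) (hIb : ∀ i, i ∈ I ↔ b i < N)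
    (L' : IntermediateField L K)
    (hL' : L' = IntermediateField.adjoin L (⋃ i ∈ I, (F i : Set K)))
    (μ : Fin n → ℕ) (hγ : ∀ i, LGonGe ℂ (F i) (B i) (μ i + 2))
    (l₀ : Fin n) (hl₀ : l₀ ∈ I) (hμ : 1 ≤ μ l₀)
    (hA : ∀ k < N, ∀ J : Finset (Fin n), J.Nonempty → (∀ i ∈ J, b i = k) →
      relDeg L F (Finset.univ.filter fun i => b i ≤ k ∧ i ∉ J) J ≤ ∑ i ∈ J, μ i + 1)
    (hB : ∀ J : Finset (Fin n), l₀ ∈ J → (∀ i ∈ J, b i = b l₀) →
      2 * relDeg L F (Finset.univ.filter fun i => b i ≤ b l₀ ∧ i ∉ J) J ≤ ∑ i ∈ J, μ i + 1)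
    (hC : ∀ k < b l₀, ∀ J : Finset (Fin n), J.Nonempty → (∀ i ∈ J, b i = k) →
      2 * relDeg L F (Finset.univ.filter fun i => b i ≤ k ∧ i ∉ J) J ≤ ∑ i ∈ J, μ i + 2)
    (D : ∀ i, Derivation ℂ (F i) (F i)) (hD : ∀ i, D i ≠ 0) (a δ : K)
    (lam : Fin n → K) (hlam : lam l₀ ≠ 0) (hlamL : lam l₀ ∈ L')
    (hrel : ∀ c : ∀ i, F i, (∀ i, IsLogD (B i) (D i) (c i)) →
      Algebra.trace L K ((∏ i, (c i : K)) * a +
        ∑ l, δ * lam l * (D l (c l) : K) * ∏ i ∈ Finset.univ.erase l, (c i : K)) = 0)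
    (c : ∀ i, F i) (hc : ∀ i, i ∉ I → IsLogD (B i) (D i) (c i)) :
    Algebra.trace L' K ((∏ i, (c i : K)) * δ) = 0 := by
  classical
  have : CharZero L := charZero_of_injective_algebraMap (algebraMap ℂ L).injective
  obtain ⟨T, T2, hTT, hT1, hT2, hT2', hT3⟩ := core_Tb2 F b N μ l₀ hμ hA hB hC
  have hw : ∀ i, ∃ w ∈ WspJL (AlgebraicClosure K) (B i) (D i),
      (i ∈ I → i ≠ l₀ → (w (pr F i (s0 K L))).1 ≠ 0) ∧
      (i = l₀ → (w (pr F i (s0 K L))).1 = 0 ∧ (w (pr F i (s0 K L))).2 ≠ 0) ∧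
      (i ∈ I → (∀ t ∈ T i, (w t).1 = 0) ∧ ∀ t ∈ T2 i, (w t).2 = 0) ∧
      (i ∉ I → ∀ s, w s = (s (c i), s (D i (c i)))) := by
    intro i
    by_cases hiI : i ∈ I
    · by_cases hi : i = l₀
      · subst hi
        obtain ⟨w, h1, h2, h3, h4, h5⟩ := sep_one (B i) (hT1 i) (T2 i) (hTT i)
          (fun t ht htB => (by omega : (T i).card + (T2 i).card + 3 ≤ μ i + 2).trans
            (hγ i t ht htB)) (hD i)
        exact ⟨w, h1, fun _ h => absurd rfl h, fun _ => ⟨h2, h3⟩, fun _ => ⟨h4, h5⟩,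
          fun h => absurd hiI h⟩
      · obtain ⟨w, h1, h2, h3, h4⟩ := sep_zero (B i) (hT1 i) (T2 i) (hTT i)
          (fun t ht htB => (Nat.add_le_add_right (hT2 i) 2).trans (hγ i t ht htB)) (hD i)
        exact ⟨w, h1, fun _ _ => h2, fun h => absurd h hi, fun _ => ⟨h3, h4⟩,
          fun h => absurd hiI h⟩
    · refine ⟨fun s => (s (c i), s (D i (c i))), ?_, fun h => absurd h hiI,
        fun h => absurd (h ▸ hl₀) hiI, fun h => absurd h hiI, fun _ _ => rfl⟩
      exact Submodule.subset_span ⟨⟨c i, hc i hiI⟩, rfl⟩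
  choose w hwW hw0 hw1 hw2 hw3 using hw
  have h1 := t_MULJL F B D a δ lam hrel w hwW
  have hz : ∀ (l : Fin n) (σ : K →ₐ[L] AlgebraicClosure K), (w l (pr F l σ)).1 = 0 →
      ∏ i, (w i (pr F i σ)).1 = 0 :=
    fun l σ h => Finset.prod_eq_zero (Finset.mem_univ l) h
  have hz' : ∀ (l l' : Fin n) (σ : K →ₐ[L] AlgebraicClosure K), l' ≠ l →
      (w l' (pr F l' σ)).1 = 0 → ∏ i ∈ Finset.univ.erase l, (w i (pr F i σ)).1 = 0 :=
    fun l l' σ hne h => Finset.prod_eq_zero (Finset.mem_erase.2 ⟨hne, Finset.mem_univ l'⟩) h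
  have htwo : ∀ (i j : Fin n) (σ : K →ₐ[L] AlgebraicClosure K), i ≠ j →
      (w i (pr F i σ)).1 = 0 → (w j (pr F j σ)).1 = 0 →
      ((∏ i, (w i (pr F i σ)).1) * σ a +
        ∑ l, σ δ * σ (lam l) * (w l (pr F l σ)).2 *
          ∏ i ∈ Finset.univ.erase l, (w i (pr F i σ)).1) = 0 := by
    intro i j σ hij h2 h3
    rw [hz i σ h2, zero_mul, zero_add]
    refine Finset.sum_eq_zero fun l _ => ?_
    by_cases hl : l = i
    · subst hl
      exact mul_eq_zero_of_right _ (hz' l j σ (fun h => hij h.symm) h3)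
    · exact mul_eq_zero_of_right _ (hz' l i σ (fun h => hl h.symm) h2)
  -- the points lie on factors in `I`
  set C : AlgebraicClosure K := algebraMap K (AlgebraicClosure K) (lam l₀) *
    (w l₀ (pr F l₀ (s0 K L))).2 * ∏ i ∈ I.erase l₀, (w i (pr F i (s0 K L))).1 with hC'
  have hC0 : C ≠ 0 := by
    refine mul_ne_zero (mul_ne_zero ?_ (hw1 l₀ rfl).2) ?_
    · rw [Ne, map_eq_zero]
      exact hlam
    · refine Finset.prod_ne_zero_iff.2 fun i hi => ?_
      rw [Finset.mem_erase] at hi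
      exact hw0 i hi.2 hi.1
  have hI : ∏ i ∈ I, (c i : K) ∈ L' := by
    refine prod_mem fun i hi => ?_
    rw [hL']
    refine IntermediateField.subset_adjoin L _ ?_
    simp only [Set.mem_iUnion]
    exact ⟨i, hi, (c i).2⟩
  have h2 : Algebra.trace L' K (δ * ∏ i ∈ Iᶜ, (c i : K)) = 0 := by
    refine trace_of_sum F I L' hL' _ h1 _ hC0 _ ?_ ?_
    · rintro σ ⟨i, hi, hne⟩
      rcases hT3 σ ⟨i, (hIb i).1 hi, hne⟩ with ⟨i, hiN, hi⟩ | ⟨i, j, hiN, hjN, hij, hi, hj⟩ |
        ⟨h2, i, hiN, hi⟩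
      · have hiI : i ∈ I := (hIb i).2 hiN
        have h2 : (w i (pr F i σ)).1 = 0 := (hw2 i hiI).1 _ (hTT i hi)
        have h3 : (w i (pr F i σ)).2 = 0 := (hw2 i hiI).2 _ hi
        show (∏ i, (w i (pr F i σ)).1) * σ a +
          ∑ l, σ δ * σ (lam l) * (w l (pr F l σ)).2 *
            ∏ i ∈ Finset.univ.erase l, (w i (pr F i σ)).1 = 0
        rw [hz i σ h2, zero_mul, zero_add]
        refine Finset.sum_eq_zero fun l _ => ?_
        by_cases hl : l = i
        · subst hl
          rw [h3, mul_zero, zero_mul]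
        · exact mul_eq_zero_of_right _ (hz' l i σ (fun h => hl h.symm) h2)
      · exact htwo i j σ hij ((hw2 i ((hIb i).2 hiN)).1 _ hi) ((hw2 j ((hIb j).2 hjN)).1 _ hj)
      · refine htwo i l₀ σ ?_ ((hw2 i ((hIb i).2 hiN)).1 _ hi) ?_
        · rintro rfl
          rw [h2] at hi
          exact hT1 i hi
        · rw [h2]
          exact (hw1 l₀ rfl).1
    · intro τ
      have h1 : ∀ i ∈ I, pr F i (τ.restrictScalars L) = pr F i (s0 K L) :=
        fun i hi => pr_of_range F I L' hL' τ i hi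
      have h2 : (w l₀ (pr F l₀ (τ.restrictScalars L))).1 = 0 := by
        rw [h1 l₀ hl₀]
        exact (hw1 l₀ rfl).1
      have h3 : ∏ i, (w i (pr F i (τ.restrictScalars L))).1 = 0 :=
        Finset.prod_eq_zero (Finset.mem_univ l₀) h2
      show (∏ i, (w i (pr F i (τ.restrictScalars L))).1) * (τ.restrictScalars L) a +
        ∑ l, (τ.restrictScalars L) δ * (τ.restrictScalars L) (lam l) *
          (w l (pr F l (τ.restrictScalars L))).2 *
          ∏ i ∈ Finset.univ.erase l, (w i (pr F i (τ.restrictScalars L))).1 = _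
      rw [h3, zero_mul, zero_add, Finset.sum_eq_single l₀]
      · have h4 : Finset.univ.erase l₀ = I.erase l₀ ∪ Iᶜ := by
          ext i
          simp only [Finset.mem_erase, Finset.mem_univ, and_true, Finset.mem_union,
            Finset.mem_compl]
          constructor
          · intro h
            by_cases hi : i ∈ I
            · exact Or.inl ⟨h, hi⟩
            · exact Or.inr hi
          · rintro (h | h)
            · exact h.1
            · rintro rfl
              exact h hl₀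
        have h5 : Disjoint (I.erase l₀) Iᶜ := by
          rw [Finset.disjoint_left]
          intro i hi hi'
          exact (Finset.mem_compl.1 hi') (Finset.mem_of_mem_erase hi)
        have h6 : ∏ i ∈ I.erase l₀, (w i (pr F i (τ.restrictScalars L))).1 =
            ∏ i ∈ I.erase l₀, (w i (pr F i (s0 K L))).1 :=
          Finset.prod_congr rfl fun i hi => by rw [h1 i (Finset.mem_of_mem_erase hi)]
        have h7 : ∏ i ∈ Iᶜ, (w i (pr F i (τ.restrictScalars L))).1 =
            ∏ i ∈ Iᶜ, τ (c i : K) :=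
          Finset.prod_congr rfl fun i hi => by
            rw [hw3 i (Finset.mem_compl.1 hi)]
            rfl
        have h8 : (τ.restrictScalars L) (lam l₀) = algebraMap K (AlgebraicClosure K) (lam l₀) :=
          τ.commutes ⟨lam l₀, hlamL⟩
        have h9 : (τ.restrictScalars L) δ = τ δ := rfl
        rw [h4, Finset.prod_union h5, h6, h7, h1 l₀ hl₀, h8, h9, map_mul, map_prod, hC']
        ring
      · intro l _ hl
        have h4 : ∏ i ∈ Finset.univ.erase l, (w i (pr F i (τ.restrictScalars L))).1 = 0 :=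
          Finset.prod_eq_zero (Finset.mem_erase.2 ⟨fun h => hl h.symm, Finset.mem_univ l₀⟩) h2
        rw [h4, mul_zero]
      · intro h
        exact absurd (Finset.mem_univ _) h
  have hprod : (∏ i, (c i : K)) * δ = (⟨_, hI⟩ : L') • (δ * ∏ i ∈ Iᶜ, (c i : K)) := by
    rw [← Finset.prod_mul_prod_compl I, Algebra.smul_def]
    show _ = (∏ i ∈ I, (c i : K)) * _
    ring
  rw [hprod, map_smul, h2, smul_zero]

end

end Pool.Agent.Helper320.PCH
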